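import Pool.Agent.Helper80.LP.Mom

/-! # MP_b6b996_nt: bounds for the moments of every order -/

set_option autoImplicit false

namespace Pool.Agent.Helper80.LP

open Finset MeasureTheory
open Pool.Agent.Helper92.GB (F e)
open Pool.Agent.Helper76.EM (ee ee_add ee_sub ee_zero norm_ee ee_continuous TP TP_continuous TP_parseval TP_bessel cf)

/-- the fourth moment from the correlations of order two -/
theorem mo_four_le (g : ℕ → ℤ) (hg : Pool.Agent.Helper92.CB.ChowlaClass g) (ε : ℝ) (hε : 0 < ε) :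
    ∃ C : ℝ, 0 < C ∧ ∀ N : ℕ, 1 ≤ N → mo 4 g N ≤ C * (N : ℝ) ^ (2 + ε) := by
  obtain ⟨C₀, hC₀⟩ := hg.corr 2 le_rfl (ε / 2) (by linarith)
  refine ⟨1 + 3 * C₀ ^ 2, by positivity, fun N hN => ?_⟩
  have hN1 : (1 : ℝ) ≤ N := by exact_mod_cast hN
  have hN0 : (0 : ℝ) < N := by linarith
  have h1 : ∀ h ∈ Icc (-(N : ℤ)) N, ‖c2 g N h‖ ^ 2 ≤ (if h = 0 then (N : ℝ) ^ (2 : ℝ) else 0) +
      C₀ ^ 2 * (N : ℝ) ^ (1 + ε) := by
    intro h hh
    rw [Finset.mem_Icc] at hh
    have hp : 0 ≤ C₀ ^ 2 * (N : ℝ) ^ (1 + ε) := by positivity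
    by_cases h0 : h = 0
    · rw [if_pos h0, h0]
      have h2 := c2_zero_le g hg.sq N
      have h3 : (N : ℝ) ^ (2 : ℝ) = (N : ℝ) ^ 2 := Real.rpow_natCast _ 2
      rw [h3]
      have h4 : ‖c2 g N 0‖ ^ 2 ≤ (N : ℝ) ^ 2 := pow_le_pow_left₀ (norm_nonneg _) h2 2
      linarith
    · rw [if_neg h0, zero_add]
      have h2 : c2 g N h = c2 g N ((h.natAbs : ℕ) : ℤ) := by
        rcases Int.natAbs_eq h with h3 | h3
        · rw [← h3]
        · conv_lhs => rw [h3]
          rw [c2_neg]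
      have h3 : h.natAbs ≠ 0 := fun h4 => h0 (Int.natAbs_eq_zero.1 h4)
      have h4 : h.natAbs ≤ N := by omega
      rw [h2, c2_nonneg_eq]
      have h5 := hC₀ (N - h.natAbs) N (Nat.sub_le _ _) hN (fun i : Fin 2 => if i = 0 then 0 else h.natAbs)
        (by
          intro i j hij
          simp only at hij
          fin_cases i <;> fin_cases j
          · rfl
          · exfalso
            simp at hij
            exact h3 (by omega)
          · exfalso
            simp at hij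
            exact h3 (by omega)
          · rfl)
        (by
          intro i
          split_ifs
          · omega
          · exact h4) 0
      have h6 : (N : ℝ) ^ (1 + ε) = ((N : ℝ) ^ (1 / 2 + ε / 2)) ^ 2 := by
        rw [← Real.rpow_natCast, ← Real.rpow_mul hN0.le]
        congr 1
        push_cast
        ring
      rw [h6, ← mul_pow]
      exact pow_le_pow_left₀ (norm_nonneg _) h5 2
  rw [mo_four]
  refine (Finset.sum_le_sum h1).trans ?_
  rw [Finset.sum_add_distrib, Finset.sum_ite_eq', if_pos (by rw [Finset.mem_Icc]; omega), Finset.sum_const,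
    nsmul_eq_mul]
  have hcard : ((Icc (-(N : ℤ)) N).card : ℝ) ≤ 3 * N := by
    rw [Int.card_Icc]
    have : ((N : ℤ) + 1 - -(N : ℤ)).toNat = 2 * N + 1 := by omega
    rw [this]
    push_cast
    linarith
  have h7 : (N : ℝ) ^ (2 : ℝ) ≤ (N : ℝ) ^ (2 + ε) := Real.rpow_le_rpow_of_exponent_le hN1 (by linarith)
  have h8 : (N : ℝ) ^ (2 + ε) = N * (N : ℝ) ^ (1 + ε) := by
    nth_rewrite 2 [← Real.rpow_one (N : ℝ)]
    rw [← Real.rpow_add hN0]
    congr 1
    ring
  have h9 : ((Icc (-(N : ℤ)) N).card : ℝ) * (C₀ ^ 2 * (N : ℝ) ^ (1 + ε)) ≤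
      3 * N * (C₀ ^ 2 * (N : ℝ) ^ (1 + ε)) := mul_le_mul_of_nonneg_right hcard (by positivity)
  have h10 : 3 * N * (C₀ ^ 2 * (N : ℝ) ^ (1 + ε)) = 3 * C₀ ^ 2 * (N : ℝ) ^ (2 + ε) := by
    rw [h8]
    ring
  rw [h10] at h9
  linarith

/-- orders at most four: upper bound -/
theorem mo_le_four {p : ℝ} (hp : 0 < p) (hp4 : p ≤ 4) {g : ℕ → ℤ} {N : ℕ} {l : ℝ} (hl : 0 < l) :
    mo p g N ≤ l ^ p + l ^ (p - 4) * mo 4 g N := by
  have h := mo_le (p := p) (q := 0) (r := 4) (A := l ^ p) (B := l ^ (p - 4)) hp.le le_rfl (by norm_num) g N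
    (fun x _ => by
      set t := ‖F g N x‖ with ht
      have ht0 : 0 ≤ t := norm_nonneg _
      rw [Real.rpow_zero, mul_one]
      have hlp : 0 ≤ l ^ p := Real.rpow_nonneg hl.le _
      have hlq : 0 ≤ l ^ (p - 4) := Real.rpow_nonneg hl.le _
      have ht4 : 0 ≤ t ^ (4 : ℝ) := Real.rpow_nonneg ht0 _
      rcases le_or_gt t l with h1 | h1
      · have := Real.rpow_le_rpow ht0 h1 hp.le
        have := mul_nonneg hlq ht4
        linarith
      · have ht1 : 0 < t := hl.trans h1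
        have h2 : t ^ p = t ^ (p - 4) * t ^ (4 : ℝ) := by
          rw [← Real.rpow_add ht1]
          congr 1
          ring
        have h3 : t ^ (p - 4) ≤ l ^ (p - 4) :=
          Real.rpow_le_rpow_of_nonpos hl h1.le (by linarith)
        have := mul_le_mul_of_nonneg_right h3 ht4
        linarith)
  rw [mo_zero, mul_one] at h
  exact h

/-- orders at most two: comparison from below -/
theorem mo_two_le_low {p : ℝ} (hp : 0 < p) (hp2 : p ≤ 2) {g : ℕ → ℤ} {N : ℕ} {l : ℝ} (hl : 0 < l) :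
    mo 2 g N ≤ l ^ (2 - p) * mo p g N + l ^ (-2 : ℝ) * mo 4 g N := by
  refine mo_le (p := 2) (q := p) (r := 4) (by norm_num) hp.le (by norm_num) g N (fun x _ => ?_)
  set t := ‖F g N x‖ with ht
  have ht0 : 0 ≤ t := norm_nonneg _
  have hlp : 0 ≤ l ^ (2 - p) := Real.rpow_nonneg hl.le _
  have hlq : 0 ≤ l ^ (-2 : ℝ) := Real.rpow_nonneg hl.le _
  have ht4 : 0 ≤ t ^ (4 : ℝ) := Real.rpow_nonneg ht0 _
  have htp : 0 ≤ t ^ p := Real.rpow_nonneg ht0 _
  rcases le_or_gt t l with h1 | h1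
  · rcases eq_or_lt_of_le ht0 with h0 | h0
    · rw [← h0, Real.zero_rpow (by norm_num), Real.zero_rpow hp.ne', Real.zero_rpow (by norm_num)]
      simp
    · have h2 : t ^ (2 : ℝ) = t ^ (2 - p) * t ^ p := by
        rw [← Real.rpow_add h0]
        congr 1
        ring
      have h3 : t ^ (2 - p) ≤ l ^ (2 - p) := Real.rpow_le_rpow ht0 h1 (by linarith)
      have := mul_le_mul_of_nonneg_right h3 htp
      have := mul_nonneg hlq ht4
      linarith
  · have ht1 : 0 < t := hl.trans h1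
    have h2 : t ^ (2 : ℝ) = t ^ (-2 : ℝ) * t ^ (4 : ℝ) := by
      rw [← Real.rpow_add ht1]
      congr 1
      ring
    have h3 : t ^ (-2 : ℝ) ≤ l ^ (-2 : ℝ) := Real.rpow_le_rpow_of_nonpos hl h1.le (by norm_num)
    have := mul_le_mul_of_nonneg_right h3 ht4
    have := mul_nonneg hlp htp
    linarith

/-- orders at least two: comparison from below -/
theorem mo_two_le_high {p : ℝ} (hp2 : 2 ≤ p) {g : ℕ → ℤ} {N : ℕ} {l : ℝ} (hl : 0 < l) :
    mo 2 g N ≤ l ^ (2 : ℝ) + l ^ (2 - p) * mo p g N := by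
  have h := mo_le (p := 2) (q := 0) (r := p) (A := l ^ (2 : ℝ)) (B := l ^ (2 - p)) (by norm_num) le_rfl (by linarith) g N
    (fun x _ => by
      set t := ‖F g N x‖ with ht
      have ht0 : 0 ≤ t := norm_nonneg _
      rw [Real.rpow_zero, mul_one]
      have hlq : 0 ≤ l ^ (2 - p) := Real.rpow_nonneg hl.le _
      have htp : 0 ≤ t ^ p := Real.rpow_nonneg ht0 _
      have hl2 : 0 ≤ l ^ (2 : ℝ) := Real.rpow_nonneg hl.le _
      rcases le_or_gt t l with h1 | h1
      · have := Real.rpow_le_rpow ht0 h1 (by norm_num : (0 : ℝ) ≤ 2)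
        have := mul_nonneg hlq htp
        linarith
      · have ht1 : 0 < t := hl.trans h1
        have h2 : t ^ (2 : ℝ) = t ^ (2 - p) * t ^ p := by
          rw [← Real.rpow_add ht1]
          congr 1
          ring
        have h3 : t ^ (2 - p) ≤ l ^ (2 - p) := Real.rpow_le_rpow_of_nonpos hl h1.le (by linarith)
        have := mul_le_mul_of_nonneg_right h3 htp
        linarith)
  rw [mo_zero, mul_one] at h
  exact h

/-- orders at least four: upper bound -/
theorem mo_le_sup {p : ℝ} (hp4 : 4 ≤ p) {g : ℕ → ℤ} {N : ℕ} {S : ℝ}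
    (hS : ∀ x ∈ Set.Icc (0 : ℝ) 1, ‖F g N x‖ ≤ S) : mo p g N ≤ S ^ (p - 4) * mo 4 g N := by
  have h := mo_le (p := p) (q := 4) (r := 4) (A := S ^ (p - 4)) (B := 0) (by linarith) (by norm_num) (by norm_num) g N
    (fun x hx => by
      set t := ‖F g N x‖ with ht
      have ht0 : 0 ≤ t := norm_nonneg _
      rw [zero_mul, add_zero]
      have ht4 : 0 ≤ t ^ (4 : ℝ) := Real.rpow_nonneg ht0 _
      rcases eq_or_lt_of_le ht0 with h0 | h0
      · rw [← h0, Real.zero_rpow (by linarith : p ≠ 0), Real.zero_rpow (by norm_num)]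
        simp
      · have h2 : t ^ p = t ^ (p - 4) * t ^ (4 : ℝ) := by
          rw [← Real.rpow_add h0]
          congr 1
          ring
        rw [h2]
        exact mul_le_mul_of_nonneg_right (Real.rpow_le_rpow ht0 (hS x hx) (by linarith)) ht4)
  rw [zero_mul, add_zero] at h
  exact h

end Pool.Agent.Helper80.LP
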