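import Pool.Agent.Helper80.LP.Nik
import Pool.Agent.Helper80.LP.Bd

/-! # MP_b6b996_nt: the exponents of the norms of order `p` -/

set_option autoImplicit false

namespace Pool.Agent.Helper80.LP

open Finset MeasureTheory
open Pool.Agent.Helper92.GB (F e)

/-- the norm of order `p` -/
noncomputable def nrm (p : ℝ) (g : ℕ → ℤ) (N : ℕ) : ℝ := (mo p g N) ^ (1 / p)

lemma nrm_nonneg (p : ℝ) (g : ℕ → ℤ) (N : ℕ) : 0 ≤ nrm p g N := Real.rpow_nonneg (mo_nonneg _ _ _) _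

/-- the growth exponent of the norm of order `p` -/
noncomputable def thetaP (p : ℝ) (g : ℕ → ℤ) : ℝ :=
  sInf {a : ℝ | 0 ≤ a ∧ ∃ C : ℝ, ∀ N : ℕ, 1 ≤ N → nrm p g N ≤ C * (N : ℝ) ^ a}

/-- from moments to norms, upper bounds -/
lemma nrm_le_of {p : ℝ} (hp : 0 < p) {g : ℕ → ℤ} {N : ℕ} (hN : 1 ≤ N) {C a : ℝ} (hC : 0 ≤ C)
    (h : mo p g N ≤ C * (N : ℝ) ^ a) : nrm p g N ≤ C ^ (1 / p) * (N : ℝ) ^ (a / p) := by
  have hN0 : (0 : ℝ) < N := by exact_mod_cast hN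
  unfold nrm
  refine (Real.rpow_le_rpow (mo_nonneg _ _ _) h (by positivity)).trans (le_of_eq ?_)
  rw [Real.mul_rpow hC (by positivity), ← Real.rpow_mul hN0.le]
  congr 2
  field_simp

/-- from moments to norms, lower bounds -/
lemma le_nrm_of {p : ℝ} (hp : 0 < p) {g : ℕ → ℤ} {N : ℕ} (hN : 1 ≤ N) {C a : ℝ} (hC : 0 ≤ C)
    (h : C * (N : ℝ) ^ a ≤ mo p g N) : C ^ (1 / p) * (N : ℝ) ^ (a / p) ≤ nrm p g N := by
  have hN0 : (0 : ℝ) < N := by exact_mod_cast hN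
  unfold nrm
  refine le_trans (le_of_eq ?_) (Real.rpow_le_rpow (by positivity) h (by positivity))
  rw [Real.mul_rpow hC (by positivity), ← Real.rpow_mul hN0.le]
  congr 2
  field_simp

/-- orders at most four: upper bound -/
theorem nrm_upper {p : ℝ} (hp : 0 < p) (hp4 : p ≤ 4) (g : ℕ → ℤ) (hg : Pool.Agent.Helper92.CB.ChowlaClass g)
    (ε : ℝ) (hε : 0 < ε) : ∃ C : ℝ, 0 < C ∧ ∀ N : ℕ, 1 ≤ N → nrm p g N ≤ C * (N : ℝ) ^ (1 / 2 + ε) := by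
  obtain ⟨C₁, hC₁, h1⟩ := mo_four_le g hg (ε * p) (by positivity)
  refine ⟨(1 + C₁) ^ (1 / p), by positivity, fun N hN => ?_⟩
  have hN0 : (0 : ℝ) < N := by exact_mod_cast hN
  have hN1 : (1 : ℝ) ≤ N := by exact_mod_cast hN
  have hl : (0 : ℝ) < (N : ℝ) ^ (1 / 2 : ℝ) := by positivity
  have h2 := mo_le_four hp hp4 (g := g) (N := N) hl
  rw [← Real.rpow_mul hN0.le, ← Real.rpow_mul hN0.le] at h2
  have h3 : (N : ℝ) ^ (1 / 2 * (p - 4)) * mo 4 g N ≤ (N : ℝ) ^ (1 / 2 * (p - 4)) * (C₁ * (N : ℝ) ^ (2 + ε * p)) :=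
    mul_le_mul_of_nonneg_left (h1 N hN) (by positivity)
  have h4 : (N : ℝ) ^ (1 / 2 * (p - 4)) * (C₁ * (N : ℝ) ^ (2 + ε * p)) = C₁ * (N : ℝ) ^ (p / 2 + ε * p) := by
    have : (N : ℝ) ^ (p / 2 + ε * p) = (N : ℝ) ^ (1 / 2 * (p - 4)) * (N : ℝ) ^ (2 + ε * p) := by
      rw [← Real.rpow_add hN0]
      congr 1
      ring
    rw [this]
    ring
  have h5 : (N : ℝ) ^ (1 / 2 * p) ≤ (N : ℝ) ^ (p / 2 + ε * p) := by
    apply Real.rpow_le_rpow_of_exponent_le hN1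
    have := mul_pos hε hp
    linarith
  have h6 : mo p g N ≤ (1 + C₁) * (N : ℝ) ^ (p / 2 + ε * p) := by
    rw [h4] at h3
    linarith
  have h7 := nrm_le_of hp hN (by positivity) h6
  have h8 : (p / 2 + ε * p) / p = 1 / 2 + ε := by
    field_simp
  rwa [h8] at h7

/-- orders at least two: lower bound -/
theorem nrm_lower_high {p : ℝ} (hp2 : 2 ≤ p) (g : ℕ → ℤ)
    (hsq : ∀ n : ℕ, g n ^ 2 = ArithmeticFunction.moebius n ^ 2) (N : ℕ) (hN : 1 ≤ N) :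
    (1 / 8) ^ (1 / 2 : ℝ) * (N : ℝ) ^ (1 / 2 : ℝ) ≤ nrm p g N := by
  have hN0 : (0 : ℝ) < N := by exact_mod_cast hN
  have hp : 0 < p := by linarith
  have hl : (0 : ℝ) < ((N : ℝ) / 8) ^ (1 / 2 : ℝ) := by positivity
  have h1 := mo_two_le_high hp2 (g := g) (N := N) hl
  have h2 := mo_two_ge g hsq N
  rw [← Real.rpow_mul (by positivity), ← Real.rpow_mul (by positivity)] at h1
  have h3 : ((N : ℝ) / 8) ^ (1 / 2 * 2 : ℝ) = (N : ℝ) / 8 := by norm_num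
  rw [h3] at h1
  have h4 : (N : ℝ) / 8 ≤ ((N : ℝ) / 8) ^ (1 / 2 * (2 - p)) * mo p g N := by linarith
  have h5 : ((N : ℝ) / 8) ^ (p / 2) ≤ mo p g N := by
    have h6 : (0 : ℝ) < ((N : ℝ) / 8) ^ (1 / 2 * (2 - p)) := by positivity
    refine le_of_mul_le_mul_left ?_ h6
    rw [← Real.rpow_add (by positivity)]
    refine le_trans (le_of_eq ?_) h4
    have : (1 / 2 * (2 - p) + p / 2 : ℝ) = 1 := by ring
    rw [this, Real.rpow_one]
  have h6 : (1 / 8) ^ (p / 2) * (N : ℝ) ^ (p / 2) ≤ mo p g N := by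
    rw [← Real.mul_rpow (by norm_num) hN0.le]
    have : (1 / 8 : ℝ) * N = (N : ℝ) / 8 := by ring
    rwa [this]
  have h7 := le_nrm_of hp hN (by positivity) h6
  rw [← Real.rpow_mul (by norm_num)] at h7
  have h8 : p / 2 * (1 / p) = 1 / 2 := by field_simp
  have h9 : p / 2 / p = 1 / 2 := by field_simp
  rwa [h8, h9] at h7

/-- orders at most two: lower bound -/
theorem nrm_lower_low {p : ℝ} (hp : 0 < p) (hp2 : p ≤ 2) (g : ℕ → ℤ)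
    (hg : Pool.Agent.Helper92.CB.ChowlaClass g) (ε : ℝ) (hε : 0 < ε) :
    ∃ c : ℝ, 0 < c ∧ ∀ N : ℕ, 1 ≤ N → c * (N : ℝ) ^ (1 / 2 - ε) ≤ nrm p g N := by
  obtain ⟨C₁, hC₁, h1⟩ := mo_four_le g hg (ε * p) (by positivity)
  refine ⟨(1 / 8 * (8 * C₁) ^ (1 / 2 * (p - 2))) ^ (1 / p), by positivity, fun N hN => ?_⟩
  have hN0 : (0 : ℝ) < N := by exact_mod_cast hN
  have hN1 : (1 : ℝ) ≤ N := by exact_mod_cast hN
  set m : ℝ := 8 * C₁ * (N : ℝ) ^ (1 + ε * p) with hm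
  have hm0 : 0 < m := by positivity
  have hl : (0 : ℝ) < m ^ (1 / 2 : ℝ) := by positivity
  have h2 := mo_two_le_low hp hp2 (g := g) (N := N) hl
  have h3 := mo_two_ge g hg.sq N
  rw [← Real.rpow_mul hm0.le, ← Real.rpow_mul hm0.le] at h2
  have h4 : m ^ (1 / 2 * (-2) : ℝ) * mo 4 g N ≤ (N : ℝ) / 8 := by
    have h5 : m ^ (1 / 2 * (-2) : ℝ) = m⁻¹ := by
      have : (1 / 2 * (-2) : ℝ) = -1 := by norm_num
      rw [this, Real.rpow_neg_one]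
    rw [h5, inv_mul_le_iff₀ hm0]
    refine (h1 N hN).trans (le_of_eq ?_)
    have h6 : (N : ℝ) ^ (2 + ε * p) = N * (N : ℝ) ^ (1 + ε * p) := by
      nth_rewrite 2 [← Real.rpow_one (N : ℝ)]
      rw [← Real.rpow_add hN0]
      congr 1
      ring
    rw [h6, hm]
    ring
  have h5 : (N : ℝ) / 8 ≤ m ^ (1 / 2 * (2 - p)) * mo p g N := by linarith
  have h6 : (N : ℝ) / 8 * m ^ (1 / 2 * (p - 2)) ≤ mo p g N := by
    have h7 : (0 : ℝ) < m ^ (1 / 2 * (2 - p)) := by positivity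
    refine le_of_mul_le_mul_left ?_ h7
    refine le_trans (le_of_eq ?_) h5
    have : m ^ (1 / 2 * (2 - p)) * ((N : ℝ) / 8 * m ^ (1 / 2 * (p - 2))) =
        (N : ℝ) / 8 * (m ^ (1 / 2 * (2 - p)) * m ^ (1 / 2 * (p - 2))) := by ring
    rw [this, ← Real.rpow_add hm0]
    have : (1 / 2 * (2 - p) + 1 / 2 * (p - 2) : ℝ) = 0 := by ring
    rw [this, Real.rpow_zero, mul_one]
  have h7 : (1 / 8 * (8 * C₁) ^ (1 / 2 * (p - 2))) * (N : ℝ) ^ (1 + (1 + ε * p) * (1 / 2 * (p - 2))) ≤ mo p g N := by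
    refine le_trans (le_of_eq ?_) h6
    rw [hm, Real.mul_rpow (show (0 : ℝ) ≤ 8 * C₁ by positivity) (Real.rpow_nonneg hN0.le _), ← Real.rpow_mul hN0.le,
      Real.rpow_add hN0 1, Real.rpow_one]
    ring
  have h8 : (1 / 8 * (8 * C₁) ^ (1 / 2 * (p - 2))) * (N : ℝ) ^ (p / 2 - ε * p) ≤ mo p g N := by
    refine le_trans (mul_le_mul_of_nonneg_left ?_ (by positivity)) h7
    apply Real.rpow_le_rpow_of_exponent_le hN1
    have : 0 < ε * p * p := by positivity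
    nlinarith
  have h9 := le_nrm_of hp hN (by positivity) h8
  have h10 : (p / 2 - ε * p) / p = 1 / 2 - ε := by
    field_simp
  rwa [h10] at h9

/-- orders at most four: two-sided bounds -/
theorem nrm_two_sided {p : ℝ} (hp : 0 < p) (hp4 : p ≤ 4) (g : ℕ → ℤ) (hg : Pool.Agent.Helper92.CB.ChowlaClass g)
    (ε : ℝ) (hε : 0 < ε) : ∃ c C : ℝ, 0 < c ∧ 0 < C ∧ ∀ N : ℕ, 1 ≤ N →
      c * (N : ℝ) ^ (1 / 2 - ε) ≤ nrm p g N ∧ nrm p g N ≤ C * (N : ℝ) ^ (1 / 2 + ε) := by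
  obtain ⟨C, hC, h1⟩ := nrm_upper hp hp4 g hg ε hε
  rcases le_total p 2 with h | h
  · obtain ⟨c, hc, h2⟩ := nrm_lower_low hp h g hg ε hε
    exact ⟨c, C, hc, hC, fun N hN => ⟨h2 N hN, h1 N hN⟩⟩
  · refine ⟨(1 / 8) ^ (1 / 2 : ℝ), C, by positivity, hC, fun N hN => ⟨?_, h1 N hN⟩⟩
    have hN1 : (1 : ℝ) ≤ N := by exact_mod_cast hN
    refine le_trans (mul_le_mul_of_nonneg_left ?_ (by positivity)) (nrm_lower_high h g hg.sq N hN)
    exact Real.rpow_le_rpow_of_exponent_le hN1 (by linarith)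

/-- orders above four: upper bound from the maximum -/
theorem nrm_upper_high {p : ℝ} (hp : 4 < p) (g : ℕ → ℤ) (hg : Pool.Agent.Helper92.CB.ChowlaClass g)
    (t : ℝ) (ht : ∀ ε : ℝ, 0 < ε → ∃ C : ℝ, ∀ N : ℕ, 1 ≤ N → ∀ x ∈ Set.Icc (0 : ℝ) 1,
      ‖F g N x‖ ≤ C * (N : ℝ) ^ (t + ε))
    (ε : ℝ) (hε : 0 < ε) : ∃ C : ℝ, ∀ N : ℕ, 1 ≤ N →
      nrm p g N ≤ C * (N : ℝ) ^ (t - (4 * t - 2) / p + ε) := by
  have hp0 : 0 < p := by linarith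
  obtain ⟨C₁, hC₁, h1⟩ := mo_four_le g hg ε hε
  obtain ⟨C₂, h2⟩ := ht ε hε
  refine ⟨(|C₂| ^ (p - 4) * C₁) ^ (1 / p), fun N hN => ?_⟩
  have hN0 : (0 : ℝ) < N := by exact_mod_cast hN
  have hN1 : (1 : ℝ) ≤ N := by exact_mod_cast hN
  have h3 : ∀ x ∈ Set.Icc (0 : ℝ) 1, ‖F g N x‖ ≤ |C₂| * (N : ℝ) ^ (t + ε) := fun x hx =>
    (h2 N hN x hx).trans (mul_le_mul_of_nonneg_right (le_abs_self _) (by positivity))
  have h4 := mo_le_sup hp.le h3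
  have h5 : mo p g N ≤ (|C₂| ^ (p - 4) * C₁) * (N : ℝ) ^ ((t + ε) * (p - 4) + (2 + ε)) := by
    refine h4.trans ((mul_le_mul_of_nonneg_left (h1 N hN) (by positivity)).trans (le_of_eq ?_))
    rw [Real.mul_rpow (by positivity) (by positivity), ← Real.rpow_mul hN0.le, Real.rpow_add hN0 (_ * _)]
    ring
  have h6 := nrm_le_of hp0 hN (by positivity) h5
  refine h6.trans (mul_le_mul_of_nonneg_left ?_ (by positivity))
  apply Real.rpow_le_rpow_of_exponent_le hN1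
  rw [div_le_iff₀ hp0]
  have h7 : (t - (4 * t - 2) / p + ε) * p = t * p - (4 * t - 2) + ε * p := by
    field_simp
  rw [h7]
  nlinarith

/-- the norm is at most the maximum -/
theorem nrm_le_sup {p : ℝ} (hp : 0 < p) (g : ℕ → ℤ) (N : ℕ) (S : ℝ) (hS0 : 0 ≤ S)
    (hS : ∀ x ∈ Set.Icc (0 : ℝ) 1, ‖F g N x‖ ≤ S) : nrm p g N ≤ S := by
  have h1 : mo p g N ≤ S ^ p := by
    have h := mo_le (p := p) (q := 0) (r := 0) (A := S ^ p) (B := 0) hp.le le_rfl le_rfl g N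
      (fun x hx => by
        rw [Real.rpow_zero, mul_one, zero_mul, add_zero]
        exact Real.rpow_le_rpow (norm_nonneg _) (hS x hx) hp.le)
    rw [mo_zero] at h
    linarith
  unfold nrm
  refine (Real.rpow_le_rpow (mo_nonneg _ _ _) h1 (by positivity)).trans (le_of_eq ?_)
  rw [← Real.rpow_mul hS0]
  have : p * (1 / p) = 1 := by field_simp
  rw [this, Real.rpow_one]

lemma thetaP_le (p : ℝ) (g : ℕ → ℤ) (b : ℝ) (hb : 0 ≤ b)
    (h : ∀ ε : ℝ, 0 < ε → ∃ C : ℝ, ∀ N : ℕ, 1 ≤ N → nrm p g N ≤ C * (N : ℝ) ^ (b + ε)) :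
    thetaP p g ≤ b := by
  refine le_of_forall_pos_le_add fun ε hε => ?_
  obtain ⟨C, hC⟩ := h ε hε
  exact csInf_le ⟨0, fun a ha => ha.1⟩ ⟨by linarith, C, hC⟩

lemma le_thetaP (p : ℝ) (g : ℕ → ℤ) (b : ℝ)
    (hne : ∃ a : ℝ, 0 ≤ a ∧ ∃ C : ℝ, ∀ N : ℕ, 1 ≤ N → nrm p g N ≤ C * (N : ℝ) ^ a)
    (h : ∀ ε : ℝ, 0 < ε → ∃ c : ℝ, 0 < c ∧ ∀ N₀ : ℕ, ∃ N : ℕ, N₀ ≤ N ∧ c * (N : ℝ) ^ (b - ε) ≤ nrm p g N) :
    b ≤ thetaP p g := by
  refine le_csInf hne ?_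
  rintro a ⟨ha0, C, hC⟩
  by_contra hlt
  push Not at hlt
  obtain ⟨c, hc, h1⟩ := h ((b - a) / 2) (by linarith)
  have hb : 0 < (b - a) / 2 := by linarith
  have hlim : Filter.Tendsto (fun N : ℕ => ((N : ℝ)) ^ ((b - a) / 2)) Filter.atTop Filter.atTop :=
    (tendsto_rpow_atTop hb).comp tendsto_natCast_atTop_atTop
  obtain ⟨N₀, hN₀⟩ := Filter.eventually_atTop.1 (hlim.eventually (Filter.eventually_gt_atTop (C / c)))
  obtain ⟨N, hN1, hN2⟩ := h1 (max N₀ 1)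
  have hNN : 1 ≤ N := (le_max_right _ _).trans hN1
  have hN0 : (0 : ℝ) < N := by exact_mod_cast hNN
  have h3 := hN₀ N ((le_max_left _ _).trans hN1)
  have h4 := hN2.trans (hC N hNN)
  have h5 : (N : ℝ) ^ (b - (b - a) / 2) = (N : ℝ) ^ ((b - a) / 2) * (N : ℝ) ^ a := by
    rw [← Real.rpow_add hN0]
    congr 1
    ring
  rw [h5, ← mul_assoc] at h4
  have h6 := le_of_mul_le_mul_right h4 (Real.rpow_pos_of_pos hN0 a)
  rw [div_lt_iff₀ hc] at h3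
  linarith

/-- large values of the sum make the norm large -/
theorem nrm_ge_of_large {p : ℝ} (hp : 0 < p) (g : ℕ → ℤ) : ∃ c : ℝ, 0 < c ∧ ∀ N : ℕ, 1 ≤ N → ∀ S : ℝ, 0 ≤ S →
    (∃ x ∈ Set.Icc (0 : ℝ) 1, S ≤ ‖F g N x‖) → c * (N : ℝ) ^ (-(1 / p)) * S ≤ nrm p g N := by
  obtain ⟨k, hk⟩ := exists_nat_ge p
  refine ⟨(1 / (k + 1)) ^ (1 / p), by positivity, fun N hN S hS ⟨x, hx, hSx⟩ => ?_⟩
  have hN0 : (0 : ℝ) < N := by exact_mod_cast hN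
  have hN1 : (1 : ℝ) ≤ N := by exact_mod_cast hN
  have hk0 : (0 : ℝ) ≤ k := Nat.cast_nonneg k
  have h1 := nik hp (k := k) (by linarith) g N x hx
  have h2 : S ^ p ≤ (k + 1) * N * mo p g N := by
    refine (Real.rpow_le_rpow hS hSx hp.le).trans (h1.trans (mul_le_mul_of_nonneg_right ?_ (mo_nonneg _ _ _)))
    nlinarith
  have h3 : 1 / (k + 1) * (N : ℝ) ^ (-1 : ℝ) * S ^ p ≤ mo p g N := by
    rw [Real.rpow_neg_one]
    have h4 : 1 / ((k : ℝ) + 1) * (N : ℝ)⁻¹ * S ^ p ≤ 1 / ((k : ℝ) + 1) * (N : ℝ)⁻¹ * ((k + 1) * N * mo p g N) :=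
      mul_le_mul_of_nonneg_left h2 (by positivity)
    refine h4.trans (le_of_eq ?_)
    field_simp
  unfold nrm
  refine le_trans (le_of_eq ?_) (Real.rpow_le_rpow (by positivity) h3 (by positivity))
  rw [Real.mul_rpow (by positivity) (by positivity), Real.mul_rpow (by positivity) (by positivity),
    ← Real.rpow_mul hN0.le, ← Real.rpow_mul hS]
  have h5 : p * (1 / p) = 1 := by field_simp
  have h6 : -1 * (1 / p) = -(1 / p) := by ring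
  rw [h5, h6, Real.rpow_one]

end Pool.Agent.Helper80.LP
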