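import Pool.Agent.Helper80.LP.Th
import Pool.Agent.Helper23.LP.NC

/-! # MP_b6b996_nt: the maximum as the norm of infinite order -/

set_option autoImplicit false

namespace Pool.Agent.Helper80.LP

open Finset
open Pool.Agent.Helper92.GB (F e ext)

/-- the maximum over one period -/
noncomputable def sup1 (g : ℕ → ℤ) (N : ℕ) : ℝ := sSup ((fun x => ‖F g N x‖) '' Set.Icc (0 : ℝ) 1)

lemma sup1_bdd (g : ℕ → ℤ) (N : ℕ) : BddAbove ((fun x => ‖F g N x‖) '' Set.Icc (0 : ℝ) 1) :=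
  isCompact_Icc.bddAbove_image ((F_cont g N).norm.continuousOn)

lemma le_sup1 (g : ℕ → ℤ) (N : ℕ) {x : ℝ} (hx : x ∈ Set.Icc (0 : ℝ) 1) : ‖F g N x‖ ≤ sup1 g N :=
  le_csSup (sup1_bdd g N) ⟨x, hx, rfl⟩

lemma sup1_le (g : ℕ → ℤ) (N : ℕ) {C : ℝ} (h : ∀ x ∈ Set.Icc (0 : ℝ) 1, ‖F g N x‖ ≤ C) : sup1 g N ≤ C := by
  refine csSup_le ⟨_, 0, by norm_num, rfl⟩ ?_
  rintro _ ⟨x, hx, rfl⟩
  exact h x hx

lemma sup1_nonneg (g : ℕ → ℤ) (N : ℕ) : 0 ≤ sup1 g N :=
  (norm_nonneg _).trans (le_sup1 g N (x := 0) (by norm_num))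

lemma sup1_att (g : ℕ → ℤ) (N : ℕ) : ∃ x ∈ Set.Icc (0 : ℝ) 1, ‖F g N x‖ = sup1 g N := by
  obtain ⟨x₀, hx₀, hmax⟩ := (isCompact_Icc (a := (0 : ℝ)) (b := 1)).exists_isMaxOn
    ⟨0, Set.left_mem_Icc.2 zero_le_one⟩ ((F_cont g N).norm.continuousOn)
  exact ⟨x₀, hx₀, le_antisymm (le_sup1 g N hx₀) (sup1_le g N fun x hx => hmax hx)⟩

/-- the bound holds for all real `x` -/
lemma le_sup1' (g : ℕ → ℤ) (N : ℕ) (x : ℝ) : ‖F g N x‖ ≤ sup1 g N := by
  have h : F g N x = F g N (Int.fract x) := by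
    have hp := Pool.Agent.Helper23.LP.F_per23 g N
    have : x = Int.fract x + (⌊x⌋ : ℤ) * 1 := by rw [mul_one]; exact (Int.fract_add_floor x).symm
    conv_lhs => rw [this]
    exact (hp.int_mul ⌊x⌋) (Int.fract x)
  rw [h]
  exact le_sup1 g N ⟨Int.fract_nonneg x, (Int.fract_lt_one x).le⟩

open Pool.Agent.Helper23.LP (off23 F_split23)

lemma sup1_zero (g : ℕ → ℤ) : sup1 g 0 = 0 := by
  refine le_antisymm (sup1_le g 0 fun x _ => ?_) (sup1_nonneg g 0)
  unfold Pool.Agent.Helper92.GB.F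
  simp

lemma sup1_off (b : ℕ → ℤ) (hb : ∀ n, b n = 1 ∨ b n = -1)
    (q : ℕ) (hq : q.Prime) (h4 : 4 ≤ q) (t : ℝ) (ht : 1 / 2 ≤ t) (C : ℝ) (hC : 0 ≤ C)
    (N : ℕ) (hbd : ∀ M : ℕ, 1 ≤ M → M ≤ N → sup1 (ext b) M ≤ C * (M : ℝ) ^ t) :
    ∀ M : ℕ, M ≤ N → sup1 (off23 b q) M ≤ 2 * C * (M : ℝ) ^ t := by
  intro M
  induction M using Nat.strong_induction_on with
  | _ M ih =>
    intro hM
    rcases Nat.eq_zero_or_pos M with h0 | h0
    · subst h0
      rw [sup1_zero]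
      positivity
    · have hq0 : (0 : ℝ) < q := by exact_mod_cast hq.pos
      have h1 := ih (M / q) (Nat.div_lt_self h0 hq.one_lt) ((Nat.div_le_self M q).trans hM)
      have h2 : ((M / q : ℕ) : ℝ) ^ t ≤ (M : ℝ) ^ t / (q : ℝ) ^ t := by
        rw [← Real.div_rpow (by positivity) hq0.le]
        exact Real.rpow_le_rpow (by positivity) Nat.cast_div_le (by linarith)
      have h3 : (2 : ℝ) ≤ (q : ℝ) ^ t := by
        have h4' : (4 : ℝ) ≤ q := by exact_mod_cast h4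
        calc (2 : ℝ) = (4 : ℝ) ^ (1 / 2 : ℝ) := by
              rw [show (4 : ℝ) = 2 ^ (2 : ℝ) by norm_num, ← Real.rpow_mul (by norm_num)]
              norm_num
          _ ≤ (4 : ℝ) ^ t := Real.rpow_le_rpow_of_exponent_le (by norm_num) ht
          _ ≤ (q : ℝ) ^ t := Real.rpow_le_rpow (by norm_num) h4' (by linarith)
      have h5 : ((M / q : ℕ) : ℝ) ^ t ≤ (M : ℝ) ^ t / 2 := by
        refine h2.trans ?_
        gcongr
      have h6 : sup1 (off23 b q) M ≤ sup1 (ext b) M + sup1 (off23 b q) (M / q) := by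
        refine sup1_le _ _ fun x hx => ?_
        have e1 : F (off23 b q) M x = F (ext b) M x + (-(b q : ℂ)) * F (off23 b q) (M / q) (q * x) := by
          rw [F_split23 b hq M x]
          ring
        have e3 : ‖(-(b q : ℂ)) * F (off23 b q) (M / q) (q * x)‖ = ‖F (off23 b q) (M / q) (q * x)‖ := by
          rw [norm_mul, norm_neg]
          rcases hb q with h | h <;> rw [h] <;> simp
        rw [e1]
        refine (norm_add_le _ _).trans ?_
        rw [e3]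
        exact add_le_add (le_sup1 _ _ hx) (le_sup1' _ _ _)
      have h7 := hbd M h0 hM
      calc sup1 (off23 b q) M ≤ sup1 (ext b) M + sup1 (off23 b q) (M / q) := h6
        _ ≤ C * (M : ℝ) ^ t + 2 * C * ((M : ℝ) ^ t / 2) := by
            refine add_le_add h7 (h1.trans ?_)
            gcongr
        _ = 2 * C * (M : ℝ) ^ t := by ring

/-- one changed sign, for the maximum -/
theorem sup1_change (a b : ℕ → ℤ) (ha : ∀ n, a n = 1 ∨ a n = -1) (hb : ∀ n, b n = 1 ∨ b n = -1)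
    (q : ℕ) (hq : q.Prime) (h4 : 4 ≤ q) (hab : ∀ n, n ≠ q → a n = b n) (t : ℝ) (ht : 1 / 2 ≤ t) (C : ℝ) (hC : 0 ≤ C)
    (N : ℕ) (hbd : ∀ M : ℕ, 1 ≤ M → M ≤ N → sup1 (ext b) M ≤ C * (M : ℝ) ^ t) :
    sup1 (ext a) N ≤ sup1 (ext b) N + 4 * C * ((N : ℝ) / q) ^ t := by
  have hq0 : (0 : ℝ) < q := by exact_mod_cast hq.pos
  have hoff : off23 a q = off23 b q := by
    funext n
    unfold off23
    by_cases h : q ∣ n
    · rw [if_pos h, if_pos h]
    · rw [if_neg h, if_neg h]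
      unfold Pool.Agent.Helper92.GB.ext
      by_cases hs : Squarefree n
      · rw [if_pos hs, if_pos hs]
        refine Finset.prod_congr rfl fun r hr => hab r ?_
        rintro rfl
        exact h (Nat.dvd_of_mem_primeFactors hr)
      · rw [if_neg hs, if_neg hs]
  have h1 := sup1_off b hb q hq h4 t ht C hC N hbd (N / q) (Nat.div_le_self N q)
  have h2 : ((N / q : ℕ) : ℝ) ^ t ≤ ((N : ℝ) / q) ^ t :=
    Real.rpow_le_rpow (by positivity) Nat.cast_div_le (by linarith)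
  refine sup1_le _ _ fun x hx => ?_
  have e1 : F (ext a) N x = F (ext b) N x +
      ((a q : ℂ) - (b q : ℂ)) * F (off23 b q) (N / q) (q * x) := by
    rw [F_split23 a hq N x, F_split23 b hq N x, hoff]
    ring
  have e4 : ‖((a q : ℂ) - (b q : ℂ))‖ ≤ 2 := by
    rcases ha q with h | h <;> rcases hb q with h' | h' <;> rw [h, h'] <;> norm_num
  rw [e1]
  refine (norm_add_le _ _).trans ?_
  rw [norm_mul]
  have e5 := le_sup1' (off23 b q) (N / q) (q * x)
  calc ‖F (ext b) N x‖ + ‖(a q : ℂ) - (b q : ℂ)‖ * ‖F (off23 b q) (N / q) (q * x)‖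
      ≤ sup1 (ext b) N + 2 * (2 * C * ((N : ℝ) / q) ^ t) := by
        refine add_le_add (le_sup1 _ _ hx) (mul_le_mul e4 (e5.trans (h1.trans ?_)) (norm_nonneg _) (by norm_num))
        exact mul_le_mul_of_nonneg_left h2 (by positivity)
    _ = _ := by ring

end Pool.Agent.Helper80.LP
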