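import Mathlib
import Pool.Agent.Helper92.CB.OPS
import Pool.Agent.Helper92.GB.GLU

/-!
# MP_b6b996_nt: special blocks, free second signs, cuts; the averages of a cut
-/

set_option autoImplicit false

namespace Pool.Agent.Helper80.LP

open Finset
open Pool.Agent.Helper92.GB (e ext F npi wt)
open Pool.Agent.Helper92.CB

/-- the data of the special blocks -/
structure Sys (z : ℕ → ℕ) (L B : ℕ → Finset ℕ) : Prop where
  grow : ∀ j, 2 ^ (z j ^ 2) < z (j + 1)
  sep : ∀ j, 16 * z j ^ 2 < z (j + 1)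
  big : ∀ j, 16 ≤ z j
  union : ∀ j, L j ∪ B j = (Ioc (3 * z j) (4 * z j)).filter Nat.Prime
  dis : ∀ j, Disjoint (L j) (B j)

open Classical in
/-- the special block containing `n` -/
noncomputable def idx (z : ℕ → ℕ) (n : ℕ) : ℕ :=
  if h : ∃ j, 3 * z j < n ∧ n ≤ 4 * z j then h.choose else 0

/-- the choices: two flips and a cut for every special block -/
abbrev Cho : Type := (ℤˣ × ℤˣ) × ℕ

open Classical in
/-- the sign function with flips and cuts -/
noncomputable def cut (z : ℕ → ℕ) (L B : ℕ → Finset ℕ) (s : ℕ → Cho) (f : ℕ → ℤˣ) (n : ℕ) : ℤˣ :=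
  if n ∈ L (idx z n) then (s (idx z n)).1.1 * f n
  else if n ∈ B (idx z n) then (s (idx z n)).1.2 * (if n ≤ (s (idx z n)).2 then f (n ^ 2) else f n)
  else f n

open Classical in
/-- the flips alone -/
noncomputable def sgn (z : ℕ → ℕ) (L B : ℕ → Finset ℕ) (s : ℕ → Cho) (n : ℕ) : ℤˣ :=
  if n ∈ L (idx z n) then (s (idx z n)).1.1
  else if n ∈ B (idx z n) then (s (idx z n)).1.2 else 1

open Classical in
/-- the primes below the cuts -/
noncomputable def below (z : ℕ → ℕ) (B : ℕ → Finset ℕ) (s : ℕ → Cho) (W : Finset ℕ) : Finset ℕ :=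
  W.filter fun n => n ∈ B (idx z n) ∧ n ≤ (s (idx z n)).2

/-- the set of the places where the signs are read -/
noncomputable def places (z : ℕ → ℕ) (B : ℕ → Finset ℕ) (s : ℕ → Cho) (W : Finset ℕ) : Finset ℕ :=
  (W \ below z B s W) ∪ (below z B s W).image fun n => n ^ 2

open Classical in
/-- the cells -/
noncomputable def cel (z : ℕ → ℕ) (L B : ℕ → Finset ℕ) : (ℕ ⊕ ℕ) ⊕ ℕ → Finset ℕ
  | Sum.inl (Sum.inl k) => (Ioc (2 ^ k) (2 ^ (k + 1))).filter
      (fun p => p.Prime ∧ ¬ ∃ j, 3 * z j < p ∧ p ≤ 4 * z j)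
  | Sum.inl (Sum.inr j) => L j ∪ B j
  | Sum.inr j => (B j).image fun p => p ^ 2

namespace Sys

variable {z : ℕ → ℕ} {L B : ℕ → Finset ℕ} (S : Sys z L B)

include S

lemma mono : StrictMono z := strictMono_nat_of_lt_succ fun j => by
  have h1 := S.sep j
  have h2 := S.big j
  nlinarith

lemma sep' {i j : ℕ} (h : i < j) : 16 * z i ^ 2 < z j :=
  lt_of_lt_of_le (S.sep i) (S.mono.monotone h)

lemma uniq {i j n : ℕ} (hi : 3 * z i < n ∧ n ≤ 4 * z i) (hj : 3 * z j < n ∧ n ≤ 4 * z j) : i = j := by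
  rcases lt_trichotomy i j with h | h | h
  · exfalso
    have h1 := S.sep' h
    have h3 := S.big i
    nlinarith
  · exact h
  · exfalso
    have h1 := S.sep' h
    have h3 := S.big j
    nlinarith

lemma idx_eq {j n : ℕ} (hn : 3 * z j < n ∧ n ≤ 4 * z j) : idx z n = j := by
  have hex : ∃ j, 3 * z j < n ∧ n ≤ 4 * z j := ⟨j, hn⟩
  have : idx z n = hex.choose := by
    unfold idx
    rw [dif_pos hex]
  rw [this]
  exact S.uniq hex.choose_spec hn

lemma memL {j p : ℕ} (hp : p ∈ L j) : p.Prime ∧ 3 * z j < p ∧ p ≤ 4 * z j := by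
  have : p ∈ (Ioc (3 * z j) (4 * z j)).filter Nat.Prime := by
    rw [← S.union j]; exact Finset.mem_union_left _ hp
  simp only [Finset.mem_filter, Finset.mem_Ioc] at this
  exact ⟨this.2, this.1.1, this.1.2⟩

lemma memB {j p : ℕ} (hp : p ∈ B j) : p.Prime ∧ 3 * z j < p ∧ p ≤ 4 * z j := by
  have : p ∈ (Ioc (3 * z j) (4 * z j)).filter Nat.Prime := by
    rw [← S.union j]; exact Finset.mem_union_right _ hp
  simp only [Finset.mem_filter, Finset.mem_Ioc] at this
  exact ⟨this.2, this.1.1, this.1.2⟩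

lemma memU {j p : ℕ} (hp : p.Prime) (h1 : 3 * z j < p) (h2 : p ≤ 4 * z j) : p ∈ L j ∪ B j := by
  rw [S.union j, Finset.mem_filter, Finset.mem_Ioc]
  exact ⟨⟨h1, h2⟩, hp⟩

lemma notL {j p : ℕ} (hp : p ∈ B j) : p ∉ L j := fun h => Finset.disjoint_left.mp (S.dis j) h hp

lemma idxL {j p : ℕ} (hp : p ∈ L j) : idx z p = j := S.idx_eq (S.memL hp).2

lemma idxB {j p : ℕ} (hp : p ∈ B j) : idx z p = j := S.idx_eq (S.memB hp).2

lemma cutL (s : ℕ → Cho) (f : ℕ → ℤˣ) {j n : ℕ} (hn : n ∈ L j) : cut z L B s f n = (s j).1.1 * f n := by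
  unfold cut
  rw [S.idxL hn, if_pos hn]

lemma cutB (s : ℕ → Cho) (f : ℕ → ℤˣ) {j n : ℕ} (hn : n ∈ B j) :
    cut z L B s f n = (s j).1.2 * (if n ≤ (s j).2 then f (n ^ 2) else f n) := by
  unfold cut
  rw [S.idxB hn, if_neg (S.notL hn), if_pos hn]

omit S in
lemma cutO (s : ℕ → Cho) (f : ℕ → ℤˣ) {n : ℕ} (h1 : ∀ j, n ∉ L j) (h2 : ∀ j, n ∉ B j) :
    cut z L B s f n = f n := by
  unfold cut
  rw [if_neg (h1 _), if_neg (h2 _)]

omit S in
lemma cut_pm (s : ℕ → Cho) (f : ℕ → ℤˣ) (n : ℕ) :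
    ((cut z L B s f n : ℤˣ) : ℤ) = 1 ∨ ((cut z L B s f n : ℤˣ) : ℤ) = -1 := by
  rcases Int.units_eq_one_or (cut z L B s f n) with h | h <;> simp [h]

lemma below_prime {s : ℕ → Cho} {W : Finset ℕ} {n : ℕ} (hn : n ∈ below z B s W) : n.Prime := by
  unfold below at hn
  rw [Finset.mem_filter] at hn
  exact (S.memB hn.2.1).1

/-- a cut sign function on characters -/
lemma ch_cut (s : ℕ → Cho) (f : ℕ → ℤˣ) (W : Finset ℕ) (hW : ∀ p ∈ W, p.Prime) :
    ch W (cut z L B s f) = ch W (sgn z L B s) * ch (places z B s W) f := by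
  classical
  have hd : Disjoint (W \ below z B s W) ((below z B s W).image fun n => n ^ 2) := by
    rw [Finset.disjoint_left]
    intro p hp hp'
    rw [Finset.mem_image] at hp'
    obtain ⟨q, hq, rfl⟩ := hp'
    have h1 := hW _ (Finset.mem_sdiff.mp hp).1
    exact Nat.Prime.not_prime_pow (le_refl 2) h1
  have hsub : below z B s W ⊆ W := Finset.filter_subset _ _
  unfold places ch
  rw [Finset.prod_union hd, Finset.prod_image (fun a _ b _ hab => Nat.pow_left_injective (by norm_num) hab),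
    ← Finset.prod_sdiff hsub (f := fun p => ((cut z L B s f p : ℤ) : ℝ)),
    ← Finset.prod_sdiff hsub (f := fun p => ((sgn z L B s p : ℤ) : ℝ))]
  have e1 : ∏ p ∈ W \ below z B s W, ((cut z L B s f p : ℤ) : ℝ) =
      (∏ p ∈ W \ below z B s W, ((sgn z L B s p : ℤ) : ℝ)) * ∏ p ∈ W \ below z B s W, ((f p : ℤ) : ℝ) := by
    rw [← Finset.prod_mul_distrib]
    refine Finset.prod_congr rfl fun p hp => ?_
    have h1 : ¬ (p ∈ B (idx z p) ∧ p ≤ (s (idx z p)).2) := by
      intro h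
      exact (Finset.mem_sdiff.mp hp).2 (Finset.mem_filter.mpr ⟨(Finset.mem_sdiff.mp hp).1, h⟩)
    have h2 : cut z L B s f p = sgn z L B s p * f p := by
      unfold cut sgn
      by_cases hL : p ∈ L (idx z p)
      · rw [if_pos hL, if_pos hL]
      · by_cases hB : p ∈ B (idx z p)
        · rw [if_neg hL, if_pos hB, if_neg hL, if_pos hB, if_neg (fun h => h1 ⟨hB, h⟩)]
        · rw [if_neg hL, if_neg hB, if_neg hL, if_neg hB, one_mul]
    rw [h2]
    push_cast
    rfl
  have e2 : ∏ p ∈ below z B s W, ((cut z L B s f p : ℤ) : ℝ) =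
      (∏ p ∈ below z B s W, ((sgn z L B s p : ℤ) : ℝ)) * ∏ p ∈ below z B s W, ((f (p ^ 2) : ℤ) : ℝ) := by
    rw [← Finset.prod_mul_distrib]
    refine Finset.prod_congr rfl fun p hp => ?_
    have h1 := (Finset.mem_filter.mp hp).2
    have hL : p ∉ L (idx z p) := S.notL h1.1
    have h2 : cut z L B s f p = sgn z L B s p * f (p ^ 2) := by
      unfold cut sgn
      rw [if_neg hL, if_pos h1.1, if_pos h1.2, if_neg hL, if_pos h1.1]
    rw [h2]
    push_cast
    rfl
  rw [e1, e2]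
  ring

lemma cel_dis : ∀ i j, i ≠ j → Disjoint (cel z L B i) (cel z L B j) := by
  classical
  have hsq : ∀ j p, p ∈ (B j).image (fun p => p ^ 2) → ¬ p.Prime := by
    intro j p hp
    rw [Finset.mem_image] at hp
    obtain ⟨q, hq, rfl⟩ := hp
    exact Nat.Prime.not_prime_pow (le_refl 2)
  have hD : ∀ k p, p ∈ cel z L B (Sum.inl (Sum.inl k)) → 2 ^ k < p ∧ p ≤ 2 ^ (k + 1) ∧ p.Prime ∧
      ¬ ∃ j, 3 * z j < p ∧ p ≤ 4 * z j := by
    intro k p hp
    unfold cel at hp
    rw [Finset.mem_filter, Finset.mem_Ioc] at hp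
    exact ⟨hp.1.1, hp.1.2, hp.2⟩
  have hS : ∀ j p, p ∈ cel z L B (Sum.inl (Sum.inr j)) → 3 * z j < p ∧ p ≤ 4 * z j ∧ p.Prime := by
    intro j p hp
    have : p ∈ L j ∪ B j := hp
    rcases Finset.mem_union.mp this with h | h
    · exact ⟨(S.memL h).2.1, (S.memL h).2.2, (S.memL h).1⟩
    · exact ⟨(S.memB h).2.1, (S.memB h).2.2, (S.memB h).1⟩
  have hU : ∀ i j, Disjoint (cel z L B (Sum.inl i)) (cel z L B (Sum.inr j)) := by
    intro i j
    rw [Finset.disjoint_left]
    intro p hp hp'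
    refine hsq j p hp' ?_
    rcases i with k | j'
    · exact (hD k p hp).2.2.1
    · exact (hS j' p hp).2.2
  have hDS : ∀ k j, Disjoint (cel z L B (Sum.inl (Sum.inl k))) (cel z L B (Sum.inl (Sum.inr j))) := by
    intro k j
    rw [Finset.disjoint_left]
    intro p hp hp'
    exact (hD k p hp).2.2.2 ⟨j, (hS j p hp').1, (hS j p hp').2.1⟩
  rintro ((k | j) | j) ((k' | j') | j') hne
  · have hkk : k ≠ k' := fun h => hne (by rw [h])
    rw [Finset.disjoint_left]
    intro p hp hp'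
    have h1 := hD k p hp
    have h2 := hD k' p hp'
    rcases lt_or_gt_of_ne hkk with h | h
    · have : 2 ^ (k + 1) ≤ 2 ^ k' := Nat.pow_le_pow_right (by norm_num) h
      omega
    · have : 2 ^ (k' + 1) ≤ 2 ^ k := Nat.pow_le_pow_right (by norm_num) h
      omega
  · exact hDS k j'
  · exact hU _ _
  · exact (hDS k' j).symm
  · have hjj : j ≠ j' := fun h => hne (by rw [h])
    rw [Finset.disjoint_left]
    intro p hp hp'
    have h1 := hS j p hp
    have h2 := hS j' p hp'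
    exact hjj (S.uniq ⟨h1.1, h1.2.1⟩ ⟨h2.1, h2.2.1⟩)
  · exact hU _ _
  · exact (hU _ _).symm
  · exact (hU _ _).symm
  · have hjj : j ≠ j' := fun h => hne (by rw [h])
    rw [Finset.disjoint_left]
    intro p hp hp'
    have h1 : p ∈ (B j).image (fun p => p ^ 2) := hp
    have h2 : p ∈ (B j').image (fun p => p ^ 2) := hp'
    rw [Finset.mem_image] at h1 h2
    obtain ⟨q, hq, rfl⟩ := h1
    obtain ⟨q', hq', he⟩ := h2
    have h3 : q' = q := Nat.pow_left_injective (by norm_num : 2 ≠ 0) he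
    subst h3
    exact hjj (S.uniq (S.memB hq).2 (S.memB hq').2)

end Sys

end Pool.Agent.Helper80.LP
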