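import Pool.Agent.Helper80.LP.CutD

/-!
# MP_b6b996_nt: the averages of the characters of a cut sign function
-/

set_option autoImplicit false

namespace Pool.Agent.Helper80.LP

open Finset
open Pool.Agent.Helper92.GB (e ext F npi wt)
open Pool.Agent.Helper92.CB

/-- the weights: their moments -/
structure Wts (z : ℕ → ℕ) (L B : ℕ → Finset ℕ)
    (w0 : ∀ i, ({p // p ∈ cel z L B i} → ℤˣ) → ℝ) : Prop where
  pw : ∀ i, IsPW (w0 i)
  free : ∀ (k : ℕ) (T : Finset ℕ), mom (cel z L B (Sum.inl (Sum.inl k))) (w0 (Sum.inl (Sum.inl k))) T =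
    if T ∩ cel z L B (Sum.inl (Sum.inl k)) = ∅ then 1 else 0
  bd : ∀ (j : ℕ) (T : Finset ℕ), |mom (cel z L B (Sum.inl (Sum.inr j))) (w0 (Sum.inl (Sum.inr j))) T| ≤
    (Real.sqrt (min 1 ((T ∩ (L j ∪ B j)).card / Real.sqrt (z j)))) ^ (T ∩ (L j ∪ B j)).card
  van : ∀ (j : ℕ) (T : Finset ℕ), T ∩ B j = ∅ → (T ∩ L j).Nonempty →
    mom (cel z L B (Sum.inl (Sum.inr j))) (w0 (Sum.inl (Sum.inr j))) T = 0
  sec : ∀ (j : ℕ) (T : Finset ℕ), mom (cel z L B (Sum.inr j)) (w0 (Sum.inr j)) T =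
    if T ∩ cel z L B (Sum.inr j) = ∅ then 1 else 0

/-- the relevant cells -/
structure Rel (z : ℕ → ℕ) (rel : ℕ → Finset ((ℕ ⊕ ℕ) ⊕ ℕ)) : Prop where
  r1 : ∀ N k : ℕ, Sum.inl (Sum.inl k) ∈ rel N ↔ 2 ^ k < 2 * N
  r2 : ∀ N j : ℕ, Sum.inl (Sum.inr j) ∈ rel N ↔ 3 * z j < 2 * N
  r3 : ∀ N j : ℕ, Sum.inr j ∈ rel N ↔ 3 * z j < 2 * N

/-- the top special block is cut completely -/
def Endp (z : ℕ → ℕ) (N : ℕ) (s : ℕ → Cho) : Prop :=
  ∀ i, 3 * z i < 2 * N → (∀ j, i < j → ¬ 3 * z j < 2 * N) → 4 * z i ≤ (s i).2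

namespace Sys

variable {z : ℕ → ℕ} {L B : ℕ → Finset ℕ} (S : Sys z L B)

include S

lemma special_iff {W : Finset ℕ} (hW : ∀ p ∈ W, p.Prime) (j : ℕ) :
    W ∩ (L j ∪ B j) = W.filter fun p => 3 * z j < p ∧ p ≤ 4 * z j := by
  ext p
  rw [Finset.mem_inter, Finset.mem_filter, S.union j, Finset.mem_filter, Finset.mem_Ioc]
  constructor
  · rintro ⟨h1, h2, _⟩
    exact ⟨h1, h2⟩
  · rintro ⟨h1, h2⟩
    exact ⟨h1, h2, hW p h1⟩

lemma dyadic {p : ℕ} (hp : p.Prime) (hs : ¬ ∃ j, 3 * z j < p ∧ p ≤ 4 * z j) :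
    p ∈ cel z L B (Sum.inl (Sum.inl (Nat.log 2 (p - 1)))) ∧ 2 ^ Nat.log 2 (p - 1) < p := by
  classical
  have h2 := hp.two_le
  have h3 : 2 ^ Nat.log 2 (p - 1) ≤ p - 1 := Nat.pow_log_le_self 2 (by omega)
  have h4 : p - 1 < 2 ^ (Nat.log 2 (p - 1) + 1) := Nat.lt_pow_succ_log_self (by norm_num) _
  constructor
  · unfold cel
    rw [Finset.mem_filter, Finset.mem_Ioc]
    exact ⟨⟨by omega, by omega⟩, hp, hs⟩
  · omega

variable {w0 : ∀ i, ({p // p ∈ cel z L B i} → ℤˣ) → ℝ} (Q : Wts z L B w0)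
  {rel : ℕ → Finset ((ℕ ⊕ ℕ) ⊕ ℕ)} (R : Rel z rel)

include Q R

/-- the average of a character of a cut sign function -/
lemma val (s : ℕ → Cho) (N : ℕ) (l : List ((ℕ ⊕ ℕ) ⊕ ℕ)) (hl : l.Nodup) (hli : ∀ i, i ∈ l ↔ i ∈ rel N)
    (W : Finset ℕ) (hW : ∀ p ∈ W, p.Prime ∧ p ≤ 2 * N) :
    EL (cel z L B) w0 l (fun f => ch W (cut z L B s f)) (fun _ => 1) =
      ch W (sgn z L B s) * ∏ i ∈ l.toFinset, mom (cel z L B i) (w0 i) (places z B s W) := by
  classical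
  have hf : (fun f => ch W (cut z L B s f)) = ch W (sgn z L B s) • ch (places z B s W) := by
    funext f
    rw [Pi.smul_apply, smul_eq_mul]
    exact S.ch_cut s f W fun p hp => (hW p hp).1
  obtain ⟨Lf, hLf⟩ := EL_lin (cel z L B) w0 l (fun _ => 1)
  rw [← hLf, hf, map_smul, smul_eq_mul, hLf, EL_ch (cel z L B) w0 S.cel_dis l hl _ ?_ _, List.prod_toFinset _ hl]
  intro p hp
  unfold places at hp
  rcases Finset.mem_union.mp hp with h | h
  · obtain ⟨hp1, hp2⟩ := hW p (Finset.mem_sdiff.mp h).1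
    by_cases hs : ∃ j, 3 * z j < p ∧ p ≤ 4 * z j
    · obtain ⟨j, hj1, hj2⟩ := hs
      refine ⟨Sum.inl (Sum.inr j), ?_, ?_⟩
      · rw [hli, R.r2]
        omega
      · exact S.memU hp1 hj1 hj2
    · obtain ⟨h1, h2⟩ := S.dyadic hp1 hs
      refine ⟨_, ?_, h1⟩
      rw [hli, R.r1]
      omega
  · rw [Finset.mem_image] at h
    obtain ⟨q, hq, rfl⟩ := h
    unfold below at hq
    rw [Finset.mem_filter] at hq
    obtain ⟨hq1, hq2, _⟩ := hq
    refine ⟨Sum.inr (idx z q), ?_, Finset.mem_image_of_mem _ hq2⟩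
    rw [hli, R.r3]
    have := (S.memB hq2).2.1
    have := (hW q hq1).2
    omega

omit S R in
lemma mom_le (i : (ℕ ⊕ ℕ) ⊕ ℕ) (T : Finset ℕ) : |mom (cel z L B i) (w0 i) T| ≤ 1 := by
  rcases i with (k | j) | j
  · rw [Q.free]
    split_ifs <;> simp
  · refine (Q.bd j T).trans ?_
    refine pow_le_one₀ (Real.sqrt_nonneg _) ?_
    rw [Real.sqrt_le_one]
    exact min_le_left _ _
  · rw [Q.sec]
    split_ifs <;> simp

omit S Q R in
lemma ch_sgn (s : ℕ → Cho) (W : Finset ℕ) : |ch W (sgn z L B s)| ≤ 1 := by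
  unfold ch
  rw [Finset.abs_prod]
  refine Finset.prod_le_one (fun _ _ => abs_nonneg _) fun p _ => ?_
  rcases Int.units_eq_one_or (sgn z L B s p) with hp | hp <;> simp [hp]

/-- a prime outside the special blocks -/
lemma val_out (s : ℕ → Cho) (N : ℕ) (l : List ((ℕ ⊕ ℕ) ⊕ ℕ)) (hl : l.Nodup) (hli : ∀ i, i ∈ l ↔ i ∈ rel N)
    (W : Finset ℕ) (hW : ∀ p ∈ W, p.Prime ∧ p ≤ 2 * N) (h : ∃ p ∈ W, ¬ ∃ j, 3 * z j < p ∧ p ≤ 4 * z j) :
    EL (cel z L B) w0 l (fun f => ch W (cut z L B s f)) (fun _ => 1) = 0 := by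
  classical
  rw [S.val Q R s N l hl hli W hW]
  obtain ⟨p, hp, hs⟩ := h
  obtain ⟨hp1, hp2⟩ := hW p hp
  obtain ⟨h1, h2⟩ := S.dyadic hp1 hs
  rw [Finset.prod_eq_zero (i := Sum.inl (Sum.inl (Nat.log 2 (p - 1)))), mul_zero]
  · rw [List.mem_toFinset, hli, R.r1]
    omega
  · rw [Q.free, if_neg]
    intro h4
    have h5 : p ∈ places z B s W := by
      unfold places
      refine Finset.mem_union_left _ (Finset.mem_sdiff.mpr ⟨hp, ?_⟩)
      intro h6
      unfold below at h6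
      rw [Finset.mem_filter] at h6
      exact hs ⟨idx z p, (S.memB h6.2.1).2⟩
    have h7 := Finset.mem_inter.mpr ⟨h5, h1⟩
    rw [h4] at h7
    exact absurd h7 (Finset.notMem_empty _)

lemma val_le (s : ℕ → Cho) (N : ℕ) (l : List ((ℕ ⊕ ℕ) ⊕ ℕ)) (hl : l.Nodup) (hli : ∀ i, i ∈ l ↔ i ∈ rel N)
    (W : Finset ℕ) (hW : ∀ p ∈ W, p.Prime ∧ p ≤ 2 * N) :
    |EL (cel z L B) w0 l (fun f => ch W (cut z L B s f)) (fun _ => 1)| ≤ 1 := by
  rw [S.val Q R s N l hl hli W hW, abs_mul, Finset.abs_prod]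
  exact mul_le_one₀ (ch_sgn s W) (Finset.prod_nonneg fun _ _ => abs_nonneg _)
    (Finset.prod_le_one (fun _ _ => abs_nonneg _) fun i _ => mom_le Q i _)

/-- a cut prime -/
lemma val_cut (s : ℕ → Cho) (N : ℕ) (l : List ((ℕ ⊕ ℕ) ⊕ ℕ)) (hl : l.Nodup) (hli : ∀ i, i ∈ l ↔ i ∈ rel N)
    (W : Finset ℕ) (hW : ∀ p ∈ W, p.Prime ∧ p ≤ 2 * N) {j p : ℕ} (hp : p ∈ W) (hB : p ∈ B j) (hc : p ≤ (s j).2) :
    EL (cel z L B) w0 l (fun f => ch W (cut z L B s f)) (fun _ => 1) = 0 := by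
  classical
  rw [S.val Q R s N l hl hli W hW]
  obtain ⟨hp1, hp2⟩ := hW p hp
  have hj := S.memB hB
  rw [Finset.prod_eq_zero (i := Sum.inr j), mul_zero]
  · rw [List.mem_toFinset, hli, R.r3]
    omega
  · rw [Q.sec, if_neg]
    intro h4
    have h5 : p ^ 2 ∈ places z B s W := by
      unfold places
      refine Finset.mem_union_right _ (Finset.mem_image_of_mem _ ?_)
      unfold below
      rw [Finset.mem_filter, S.idxB hB]
      exact ⟨hp, hB, hc⟩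
    have h7 : p ^ 2 ∈ places z B s W ∩ cel z L B (Sum.inr j) :=
      Finset.mem_inter.mpr ⟨h5, Finset.mem_image_of_mem _ hB⟩
    rw [h4] at h7
    exact absurd h7 (Finset.notMem_empty _)

omit Q R in
/-- no cut prime of the block `j` -/
lemma places_inter (s : ℕ → Cho) (W : Finset ℕ) (hW : ∀ p ∈ W, p.Prime) (j : ℕ)
    (h : ∀ p ∈ W, p ∈ B j → ¬ p ≤ (s j).2) : places z B s W ∩ (L j ∪ B j) = W ∩ (L j ∪ B j) := by
  classical
  ext p
  rw [Finset.mem_inter, Finset.mem_inter]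
  constructor
  · rintro ⟨h1, h2⟩
    refine ⟨?_, h2⟩
    unfold places at h1
    rcases Finset.mem_union.mp h1 with h3 | h3
    · exact (Finset.mem_sdiff.mp h3).1
    · exfalso
      rw [Finset.mem_image] at h3
      obtain ⟨q, hq, rfl⟩ := h3
      have h4 : (q ^ 2).Prime := by
        rcases Finset.mem_union.mp h2 with h5 | h5
        · exact (S.memL h5).1
        · exact (S.memB h5).1
      exact Nat.Prime.not_prime_pow (le_refl 2) h4
  · rintro ⟨h1, h2⟩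
    refine ⟨?_, h2⟩
    unfold places
    refine Finset.mem_union_left _ (Finset.mem_sdiff.mpr ⟨h1, ?_⟩)
    intro h3
    unfold below at h3
    rw [Finset.mem_filter] at h3
    obtain ⟨_, h4, h5⟩ := h3
    have h6 : idx z p = j := by
      rcases Finset.mem_union.mp h2 with h7 | h7
      · exact S.idxL h7
      · exact S.idxB h7
    rw [h6] at h4 h5
    exact h p h1 h4 h5

lemma val_bd (s : ℕ → Cho) (N : ℕ) (l : List ((ℕ ⊕ ℕ) ⊕ ℕ)) (hl : l.Nodup) (hli : ∀ i, i ∈ l ↔ i ∈ rel N)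
    (j : ℕ) (hj : 3 * z j < 2 * N) (W : Finset ℕ) (hW : ∀ p ∈ W, p.Prime ∧ p ≤ 2 * N) :
    |EL (cel z L B) w0 l (fun f => ch W (cut z L B s f)) (fun _ => 1)| ≤
      (Real.sqrt (min 1 ((W.filter fun p => 3 * z j < p ∧ p ≤ 4 * z j).card /
          Real.sqrt (z j)))) ^ (W.filter fun p => 3 * z j < p ∧ p ≤ 4 * z j).card := by
  classical
  by_cases hc : ∃ p ∈ W, p ∈ B j ∧ p ≤ (s j).2
  · obtain ⟨p, hp, hB, hc⟩ := hc
    rw [S.val_cut Q R s N l hl hli W hW hp hB hc, abs_zero]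
    exact pow_nonneg (Real.sqrt_nonneg _) _
  · have h1 := S.places_inter s W (fun p hp => (hW p hp).1) j (fun p hp hB hle => hc ⟨p, hp, hB, hle⟩)
    rw [S.special_iff (fun p hp => (hW p hp).1) j] at h1
    have h2 := Q.bd j (places z B s W)
    rw [h1] at h2
    rw [S.val Q R s N l hl hli W hW, abs_mul]
    have hmem : Sum.inl (Sum.inr j) ∈ l.toFinset := by
      rw [List.mem_toFinset, hli, R.r2]
      exact hj
    rw [← Finset.mul_prod_erase _ _ hmem, abs_mul]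
    have h3 : |∏ x ∈ l.toFinset.erase (Sum.inl (Sum.inr j)), mom (cel z L B x) (w0 x) (places z B s W)| ≤ 1 := by
      rw [Finset.abs_prod]
      exact Finset.prod_le_one (fun i _ => abs_nonneg _) (fun i _ => mom_le Q i _)
    have h4 := ch_sgn (L := L) (B := B) (z := z) s W
    calc |ch W (sgn z L B s)| * (|mom (cel z L B (Sum.inl (Sum.inr j))) (w0 (Sum.inl (Sum.inr j))) (places z B s W)| *
          |∏ x ∈ l.toFinset.erase (Sum.inl (Sum.inr j)), mom (cel z L B x) (w0 x) (places z B s W)|)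
        ≤ 1 * (|mom (cel z L B (Sum.inl (Sum.inr j))) (w0 (Sum.inl (Sum.inr j))) (places z B s W)| * 1) := by
          gcongr
      _ ≤ _ := by
          rw [one_mul, mul_one]
          exact h2

/-- the top block is free -/
lemma val_top (s : ℕ → Cho) (N : ℕ) (hs : Endp z N s) (l : List ((ℕ ⊕ ℕ) ⊕ ℕ)) (hl : l.Nodup)
    (hli : ∀ i, i ∈ l ↔ i ∈ rel N) (W : Finset ℕ) (hW : ∀ p ∈ W, p.Prime ∧ p ≤ 2 * N)
    (h : ∃ p ∈ W, ¬ ∃ i j, i < j ∧ 3 * z j < 2 * N ∧ 3 * z i < p ∧ p ≤ 4 * z i) :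
    EL (cel z L B) w0 l (fun f => ch W (cut z L B s f)) (fun _ => 1) = 0 := by
  classical
  obtain ⟨p, hp, hno⟩ := h
  by_cases hsp : ∃ i, 3 * z i < p ∧ p ≤ 4 * z i
  · obtain ⟨i, hi⟩ := hsp
    have hiN : 3 * z i < 2 * N := by
      have := (hW p hp).2
      omega
    have htop : ∀ j, i < j → ¬ 3 * z j < 2 * N := fun j hij hj => hno ⟨i, j, hij, hj, hi.1, hi.2⟩
    have hend := hs i hiN htop
    by_cases hc : ∃ q ∈ W, q ∈ B i
    · obtain ⟨q, hq, hB⟩ := hc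
      exact S.val_cut Q R s N l hl hli W hW hq hB ((S.memB hB).2.2.trans hend)
    · rw [S.val Q R s N l hl hli W hW]
      have h1 := S.places_inter s W (fun p hp => (hW p hp).1) i (fun q hq hB _ => hc ⟨q, hq, hB⟩)
      have hpL : p ∈ L i := by
        rcases Finset.mem_union.mp (S.memU (hW p hp).1 hi.1 hi.2) with h2 | h2
        · exact h2
        · exact absurd ⟨p, hp, h2⟩ hc
      rw [Finset.prod_eq_zero (i := Sum.inl (Sum.inr i)), mul_zero]
      · rw [List.mem_toFinset, hli, R.r2]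
        exact hiN
      · refine Q.van i _ ?_ ?_
        · rw [Finset.eq_empty_iff_forall_notMem]
          intro q hq
          rw [Finset.mem_inter] at hq
          have h3 : q ∈ places z B s W ∩ (L i ∪ B i) := Finset.mem_inter.mpr ⟨hq.1, Finset.mem_union_right _ hq.2⟩
          rw [h1, Finset.mem_inter] at h3
          exact hc ⟨q, h3.1, hq.2⟩
        · refine ⟨p, ?_⟩
          have h3 : p ∈ W ∩ (L i ∪ B i) := Finset.mem_inter.mpr ⟨hp, Finset.mem_union_left _ hpL⟩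
          rw [← h1, Finset.mem_inter] at h3
          exact Finset.mem_inter.mpr ⟨h3.1, hpL⟩
  · exact S.val_out Q R s N l hl hli W hW ⟨p, hp, hsp⟩

end Sys

end Pool.Agent.Helper80.LP
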