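import Mathlib
import Pool.Agent.Helper80.LP.CutM
import Pool.Agent.Helper80.LP.PH
import Pool.Agent.Helper87.LP.MBG
import Pool.Agent.Helper7.LP.BLK0
import Pool.Agent.Helper7.LP.UBLK
import Pool.Agent.Helper92.CB.ORD
import Pool.Agent.Helper92.CB.SC2
import Pool.Agent.Helper92.GB.P3
import Pool.Agent.Helper92.GB.GLU

/-!
# MP_b6b996_nt: a sign function all of whose cuts are in the strong class
-/

set_option autoImplicit false

namespace Pool.Agent.Helper80.LP

open Finset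
open Pool.Agent.Helper92.GB (e ext F npi wt tw PS GRHClass P3 GLU ext_mul ext_sq)
open Pool.Agent.Helper92.CB
open Pool.Agent.Helper5.JB (cort TWC)

private lemma norm_unit_mul (s : ℤˣ) (z : ℂ) : ‖((s : ℤ) : ℂ) * z‖ = ‖z‖ := by
  rcases Int.units_eq_one_or s with h | h <;> simp [h]

private lemma split_card (S : Finset ℕ) (x : ℝ) (hx : 1 < x) (h : x ≤ S.card) :
    ∃ L B : Finset ℕ, L ∪ B = S ∧ Disjoint L B ∧ x ≤ 4 * L.card ∧ x ≤ 4 * B.card := by
  obtain ⟨L, hL, hc⟩ := Finset.exists_subset_card_eq (s := S) (n := S.card / 2) (by omega)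
  have hS : 2 ≤ S.card := by
    have : (1 : ℝ) < S.card := lt_of_lt_of_le hx h
    have : 1 < S.card := by exact_mod_cast this
    omega
  have hB : (S \ L).card = S.card - S.card / 2 := by
    rw [Finset.card_sdiff_of_subset hL, hc]
  refine ⟨L, S \ L, Finset.union_sdiff_of_subset hL, Finset.disjoint_sdiff, ?_, ?_⟩
  · rw [hc]
    have : S.card ≤ 4 * (S.card / 2) := by omega
    have : (S.card : ℝ) ≤ 4 * ((S.card / 2 : ℕ) : ℝ) := by exact_mod_cast this
    linarith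
  · rw [hB]
    have : S.card ≤ 4 * (S.card - S.card / 2) := by omega
    have : (S.card : ℝ) ≤ 4 * ((S.card - S.card / 2 : ℕ) : ℝ) := by exact_mod_cast this
    linarith

private lemma ext_congr' {a b : ℕ → ℤ} {m : ℕ} (hm : 0 < m) (h : ∀ p, p.Prime → p ≤ m → a p = b p) :
    ext a m = ext b m := by
  unfold Pool.Agent.Helper92.GB.ext
  split_ifs
  · apply Finset.prod_congr rfl
    intro p hp
    exact h p (Nat.prime_of_mem_primeFactors hp) (Nat.le_of_dvd hm (Nat.dvd_of_mem_primeFactors hp))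
  · rfl

private lemma cort_congr {k : ℕ} (h : Fin k → ℕ) {q : ℕ} (χ : DirichletCharacter ℂ q) (t : ℝ)
    (M N : ℕ) (hMN : M ≤ N) (hle : ∀ i, h i ≤ N)
    (a b : ℕ → ℤ) (x : ℝ) (hab : ∀ p, p.Prime → p ≤ 2 * N → a p = b p) :
    cort (ext a) h χ t M x = cort (ext b) h χ t M x := by
  unfold cort
  apply Finset.sum_congr rfl
  intro n hn
  have hn' := Finset.mem_Icc.mp hn
  congr 1
  apply Finset.prod_congr rfl
  intro i _
  rw [ext_congr' (by omega) (fun p hpp hp => hab p hpp (hp.trans (by have := hle i; omega)))]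

private lemma prodz (z : ℕ → ℕ) (hz : ∀ j, 16 * z j ^ 2 < z (j + 1)) (hz1 : ∀ j, 16 ≤ z j) (J : ℕ) :
    ∏ i ∈ range (J + 1), (z i : ℝ) ^ 2 ≤ (z J : ℝ) ^ 4 := by
  induction J with
  | zero =>
    have : (16 : ℝ) ≤ z 0 := by exact_mod_cast hz1 0
    simp only [zero_add, Finset.range_one, Finset.prod_singleton]
    exact pow_le_pow_right₀ (by linarith) (by norm_num)
  | succ J ih =>
    rw [Finset.prod_range_succ]
    have h1 : (16 : ℝ) ≤ z J := by exact_mod_cast hz1 J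
    have h2 : (16 : ℝ) * (z J : ℝ) ^ 2 ≤ z (J + 1) := by exact_mod_cast (hz J).le
    have h3 : (z J : ℝ) ^ 2 ≤ z (J + 1) := by nlinarith [sq_nonneg (z J : ℝ)]
    calc (∏ i ∈ range (J + 1), (z i : ℝ) ^ 2) * (z (J + 1) : ℝ) ^ 2
        ≤ (z J : ℝ) ^ 4 * (z (J + 1) : ℝ) ^ 2 := by gcongr
      _ = ((z J : ℝ) ^ 2) ^ 2 * (z (J + 1) : ℝ) ^ 2 := by ring
      _ ≤ (z (J + 1) : ℝ) ^ 2 * (z (J + 1) : ℝ) ^ 2 := by gcongr
      _ = (z (J + 1) : ℝ) ^ 4 := by ring

private lemma pow4 (z : ℕ → ℕ) (hz : ∀ j, 16 * z j ^ 2 < z (j + 1)) (hz1 : ∀ j, 16 ≤ z j) (j : ℕ) :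
    4 ^ (j + 1) ≤ z j := by
  induction j with
  | zero => have := hz1 0; simpa using le_trans (by norm_num) this
  | succ j ih =>
    have h1 := hz j
    have h2 := hz1 j
    rw [pow_succ]
    nlinarith

/-- Indices of the special blocks relevant for `N`. -/
private def TT (z : ℕ → ℕ) (N : ℕ) : Finset ℕ := (range (2 * N)).filter fun j => 3 * z j < 2 * N

private lemma mem_TT (z : ℕ → ℕ) (hz : ∀ j, j ≤ z j) (N j : ℕ) : j ∈ TT z N ↔ 3 * z j < 2 * N := by
  unfold TT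
  rw [Finset.mem_filter, Finset.mem_range]
  have := hz j
  constructor
  · exact fun h => h.2
  · exact fun h => ⟨by omega, h⟩

private lemma TT_sub (z : ℕ → ℕ) (hm : StrictMono z) (N : ℕ) (h : (TT z N).Nonempty) :
    ∃ J, z J ≤ N ∧ TT z N ⊆ range (J + 1) := by
  refine ⟨(TT z N).max' h, ?_, ?_⟩
  · have := (mem_TT z (fun j => hm.id_le j) N _).mp ((TT z N).max'_mem h)
    omega
  · intro j hj
    exact Finset.mem_range.mpr (Nat.lt_succ_of_le ((TT z N).le_max' j hj))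

private lemma TT_prod (z : ℕ → ℕ) (hz : ∀ j, 16 * z j ^ 2 < z (j + 1)) (hz1 : ∀ j, 16 ≤ z j)
    (hm : StrictMono z) (N : ℕ) (hN : 1 ≤ N) :
    ∏ i ∈ TT z N, (z i : ℝ) ^ 2 ≤ (N : ℝ) ^ 4 := by
  have hN1 : (1 : ℝ) ≤ N := by exact_mod_cast hN
  by_cases h : (TT z N).Nonempty
  · obtain ⟨J, hJ, hsub⟩ := TT_sub z hm N h
    have hone : ∀ i, (1 : ℝ) ≤ (z i : ℝ) ^ 2 := fun i => by
      have : (16 : ℝ) ≤ z i := by exact_mod_cast hz1 i
      nlinarith
    calc ∏ i ∈ TT z N, (z i : ℝ) ^ 2 ≤ ∏ i ∈ range (J + 1), (z i : ℝ) ^ 2 :=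
          Finset.prod_le_prod_of_subset_of_one_le hsub (fun i _ => by positivity)
            (fun i _ _ => hone i)
      _ ≤ (z J : ℝ) ^ 4 := prodz z hz hz1 J
      _ ≤ (N : ℝ) ^ 4 := by
          have : (z J : ℝ) ≤ N := by exact_mod_cast hJ
          gcongr
  · rw [Finset.not_nonempty_iff_eq_empty] at h
    rw [h, Finset.prod_empty]
    exact one_le_pow₀ hN1

private lemma TT_card (z : ℕ → ℕ) (hz : ∀ j, 16 * z j ^ 2 < z (j + 1)) (hz1 : ∀ j, 16 ≤ z j)
    (hm : StrictMono z) (N : ℕ) (hN : 1 ≤ N) : 4 ^ (TT z N).card ≤ N := by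
  by_cases h : (TT z N).Nonempty
  · obtain ⟨J, hJ, hsub⟩ := TT_sub z hm N h
    have hc : (TT z N).card ≤ J + 1 := by
      have := Finset.card_le_card hsub
      rwa [Finset.card_range] at this
    calc 4 ^ (TT z N).card ≤ 4 ^ (J + 1) := Nat.pow_le_pow_right (by norm_num) hc
      _ ≤ z J := pow4 z hz hz1 J
      _ ≤ N := hJ
  · rw [Finset.not_nonempty_iff_eq_empty] at h
    rw [h, Finset.card_empty, pow_zero]
    exact hN

/-- Indices of the dyadic blocks relevant for `N`. -/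
private def KK (N : ℕ) : Finset ℕ := (range (2 * N)).filter fun k => 2 ^ k < 2 * N

private lemma mem_KK (N k : ℕ) : k ∈ KK N ↔ 2 ^ k < 2 * N := by
  unfold KK
  rw [Finset.mem_filter, Finset.mem_range]
  have := Nat.lt_two_pow_self (n := k)
  constructor
  · exact fun h => h.2
  · exact fun h => ⟨by omega, h⟩

private lemma KK_card (N : ℕ) (hN : 1 ≤ N) : (2 : ℝ) ^ (KK N).card ≤ 4 * N := by
  have hsub : KK N ⊆ range (Nat.log 2 (2 * N) + 1) := by
    intro k hk
    rw [mem_KK] at hk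
    rw [Finset.mem_range, Nat.lt_succ_iff]
    exact Nat.le_log_of_pow_le (by norm_num) hk.le
  have hc : (KK N).card ≤ Nat.log 2 (2 * N) + 1 := by
    have := Finset.card_le_card hsub
    rwa [Finset.card_range] at this
  have h1 : 2 ^ (KK N).card ≤ 4 * N := by
    calc 2 ^ (KK N).card ≤ 2 ^ (Nat.log 2 (2 * N) + 1) := Nat.pow_le_pow_right (by norm_num) hc
      _ = 2 ^ Nat.log 2 (2 * N) * 2 := pow_succ _ _
      _ ≤ (2 * N) * 2 := by
          gcongr
          exact Nat.pow_log_le_self 2 (by omega)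
      _ = 4 * N := by ring
  exact_mod_cast h1

/-- The weights of the cells. -/
private noncomputable def ww (z : ℕ → ℕ) (L B : ℕ → Finset ℕ)
    (wD : ∀ k, ({p // p ∈ cel z L B (Sum.inl (Sum.inl k))} → ℤˣ) → ℝ)
    (wS : ∀ j, ({p // p ∈ cel z L B (Sum.inl (Sum.inr j))} → ℤˣ) → ℝ)
    (wU : ∀ j, ({p // p ∈ cel z L B (Sum.inr j)} → ℤˣ) → ℝ) : ∀ i, ({p // p ∈ cel z L B i} → ℤˣ) → ℝ
  | Sum.inl (Sum.inl k) => wD k
  | Sum.inl (Sum.inr j) => wS j
  | Sum.inr j => wU j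

/-- the choices relevant for `N` -/
abbrev FlN (z : ℕ → ℕ) (N : ℕ) : Type := ∀ j : {j // j ∈ TT z N}, (ℤˣ × ℤˣ) × Fin (4 * z j + 1)

/-- the sequence of choices of a finite choice -/
noncomputable def sq (z : ℕ → ℕ) (N : ℕ) (φ : FlN z N) : ℕ → Cho := fun j =>
  if h : j ∈ TT z N then ((φ ⟨j, h⟩).1, ((φ ⟨j, h⟩).2 : ℕ)) else ((1, 1), 0)

/-- the finite choice of a sequence of choices -/
noncomputable def fin (z : ℕ → ℕ) (N : ℕ) (s : ℕ → Cho) : FlN z N := fun j =>
  ((s j).1, ⟨min (s j).2 (4 * z j), Nat.lt_succ_of_le (min_le_right _ _)⟩)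

/-- the average of a constant -/
private lemma EL_const {I : Type} (c : I → Finset ℕ) (w : ∀ i, ({p // p ∈ c i} → ℤˣ) → ℝ)
    (hw : ∀ i, ∑ x, w i x = 1) (K : ℝ) (l : List I) (f : ℕ → ℤˣ) : EL c w l (fun _ => K) f = K := by
  induction l generalizing f with
  | nil => rfl
  | cons i l ih =>
    show ex (c i) (w i) (EL c w l fun _ => K) f = K
    unfold ex
    rw [Finset.sum_congr rfl fun x _ => by rw [ih], ← Finset.sum_mul, hw i, one_mul]

private lemma cort_one (g : ℕ → ℤ) (N : ℕ) (x : ℝ) :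
    cort g (fun _ : Fin 1 => 0) (1 : DirichletCharacter ℂ 1) 0 N x = F g N x := by
  unfold cort F
  refine Finset.sum_congr rfl fun n _ => ?_
  have h1 : ((1 : DirichletCharacter ℂ 1) (n : ZMod 1)) = 1 := by
    rw [Subsingleton.elim (n : ZMod 1) 1]
    exact MulChar.one_apply (isUnit_of_subsingleton _)
  have h2 : npi n 0 = 1 := by
    unfold npi
    rw [Complex.ofReal_zero, zero_mul, Complex.cpow_zero]
  rw [h1, h2]
  simp

/-- a sequence of choices and its finite choice give the same function up to `2 N` -/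
private lemma cut_fin {z : ℕ → ℕ} {L B : ℕ → Finset ℕ} (S : Sys z L B) (N : ℕ) (s : ℕ → Cho) (f : ℕ → ℤˣ) {p : ℕ}
    (hpN : p ≤ 2 * N) : cut z L B s f p = cut z L B (sq z N (fin z N s)) f p := by
  have hzj : ∀ j, j ≤ z j := fun j => S.mono.id_le j
  have hval : ∀ j, 3 * z j < 2 * N → sq z N (fin z N s) j = ((s j).1, min (s j).2 (4 * z j)) := by
    intro j hj
    unfold sq fin
    rw [dif_pos ((mem_TT z hzj N j).mpr hj)]
  by_cases h1 : ∃ j, p ∈ L j
  · obtain ⟨j, hj⟩ := h1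
    have h2 := (S.memL hj).2.1
    rw [S.cutL s f hj, S.cutL _ f hj, hval j (by omega)]
  · by_cases h2 : ∃ j, p ∈ B j
    · obtain ⟨j, hj⟩ := h2
      have h3 := S.memB hj
      rw [S.cutB s f hj, S.cutB _ f hj, hval j (by omega)]
      have h4 : (p ≤ (s j).2) ↔ (p ≤ min (s j).2 (4 * z j)) :=
        ⟨fun h => le_min h h3.2.2, fun h => h.trans (min_le_left _ _)⟩
      simp only [h4]
    · rw [Sys.cutO s f (fun j hj => h1 ⟨j, hj⟩) (fun j hj => h2 ⟨j, hj⟩),
        Sys.cutO _ f (fun j hj => h1 ⟨j, hj⟩) (fun j hj => h2 ⟨j, hj⟩)]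

private lemma endp_fin {z : ℕ → ℕ} {L B : ℕ → Finset ℕ} (S : Sys z L B) (N : ℕ) (s : ℕ → Cho) (h : Endp z N s) :
    Endp z N (sq z N (fin z N s)) := by
  intro i hi htop
  have hzj : ∀ j, j ≤ z j := fun j => S.mono.id_le j
  have h1 := h i hi htop
  unfold sq fin
  rw [dif_pos ((mem_TT z hzj N i).mpr hi)]
  exact le_min h1 le_rfl

open Classical in
/-- the exponents -/
noncomputable def exq (z : ℕ → ℕ) (k N : ℕ) (s : ℕ → Cho) : ℝ := if k = 1 ∧ ¬ Endp z N s then 1 else 1 / 2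

/-- the moments of all cuts -/
theorem hMB_all {z : ℕ → ℕ} {L B : ℕ → Finset ℕ} (S : Sys z L B)
    {w0 : ∀ i, ({p // p ∈ cel z L B i} → ℤˣ) → ℝ} (Q : Wts z L B w0)
    {rel : ℕ → Finset ((ℕ ⊕ ℕ) ⊕ ℕ)} (R : Rel z rel) :
    ∀ k : ℕ, 1 ≤ k → ∀ (r : ℕ) (ε : ℝ), 0 < ε → ∃ C : ℝ, ∀ N : ℕ, 1 ≤ N → ∀ s : ℕ → Cho,
      ∀ h : Fin k → ℕ, Function.Injective h → (∀ i, h i ≤ N) → ∀ a : ℕ → ℝ, (∀ n, |a n| ≤ 1) →
      ∀ l : List ((ℕ ⊕ ℕ) ⊕ ℕ), l.Nodup → (∀ i, i ∈ l ↔ i ∈ rel N) →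
      EL (cel z L B) w0 l (fun f => (∑ n ∈ sqf h N, a n * ch (kap h N n) (cut z L B s f)) ^ (2 ^ (r + 1)))
        (fun _ => 1) ≤ C * (N : ℝ) ^ ((2 * exq z k N s + ε) * 2 ^ r) := by
  classical
  intro k hk r ε hε
  -- the functional
  have hfun : ∀ (s : ℕ → Cho) (l : List ((ℕ ⊕ ℕ) ⊕ ℕ)), ∃ Lf : ((ℕ → ℤˣ) → ℝ) →ₗ[ℝ] ℝ,
      ∀ Φ, Lf Φ = EL (cel z L B) w0 l (fun f => Φ (cut z L B s f)) (fun _ => 1) := by
    intro s l
    obtain ⟨L0, hL0⟩ := EL_lin (cel z L B) w0 l (fun _ => 1)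
    refine ⟨L0 ∘ₗ LinearMap.funLeft ℝ ℝ (cut z L B s), fun Φ => ?_⟩
    rw [LinearMap.comp_apply, hL0]
    rfl
  by_cases hk1 : k = 1
  · subst hk1
    obtain ⟨C, hC⟩ := Pool.Agent.Helper87.LP.MBG1 z S.grow S.big 1 le_rfl r ε hε
    refine ⟨max C 1, fun N hN s h hinj hle a ha l hl hli => ?_⟩
    have hN1 : (1 : ℝ) ≤ N := by exact_mod_cast hN
    have hN0 : (0 : ℝ) < N := by linarith
    by_cases he : Endp z N s
    · obtain ⟨Lf, hLf⟩ := hfun s l
      have h1 := hC N hN h hinj hle a ha Lf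
        (fun W hW hout => by rw [hLf]; exact S.val_top Q R s N he l hl hli W hW hout)
        (fun W hW => by rw [hLf]; exact S.val_le Q R s N l hl hli W hW)
      rw [hLf] at h1
      have h2 : exq z 1 N s = 1 / 2 := by
        unfold exq
        rw [if_neg]
        exact fun h => h.2 he
      rw [h2]
      refine h1.trans ?_
      have h3 : (2 * (1 / 2 : ℝ) + ε) = 1 + ε := by ring
      rw [h3]
      exact mul_le_mul_of_nonneg_right (le_max_left _ _) (by positivity)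
    · have h2 : exq z 1 N s = 1 := by
        unfold exq
        rw [if_pos ⟨rfl, he⟩]
      rw [h2]
      have h3 : ∀ f : ℕ → ℤˣ, (∑ n ∈ sqf h N, a n * ch (kap h N n) (cut z L B s f)) ^ (2 ^ (r + 1)) ≤
          (N : ℝ) ^ (2 ^ (r + 1)) := by
        intro f
        have h4 : |∑ n ∈ sqf h N, a n * ch (kap h N n) (cut z L B s f)| ≤ N := by
          refine (Finset.abs_sum_le_sum_abs _ _).trans ?_
          have h5 : ∀ n ∈ sqf h N, |a n * ch (kap h N n) (cut z L B s f)| ≤ 1 := by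
            intro n _
            rw [abs_mul]
            refine mul_le_one₀ (ha n) (abs_nonneg _) ?_
            unfold ch
            rw [Finset.abs_prod]
            refine Finset.prod_le_one (fun _ _ => abs_nonneg _) fun p _ => ?_
            rcases Int.units_eq_one_or (cut z L B s f p) with hp | hp <;> simp [hp]
          refine (Finset.sum_le_sum h5).trans ?_
          rw [Finset.sum_const, nsmul_eq_mul, mul_one]
          have : (sqf h N).card ≤ N := by
            unfold sqf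
            refine (Finset.card_filter_le _ _).trans ?_
            rw [Nat.card_Icc]; omega
          exact_mod_cast this
        have h6 : (∑ n ∈ sqf h N, a n * ch (kap h N n) (cut z L B s f)) ^ (2 ^ (r + 1)) =
            |∑ n ∈ sqf h N, a n * ch (kap h N n) (cut z L B s f)| ^ (2 ^ (r + 1)) := by
          rw [pow_succ, mul_comm, pow_mul, pow_mul, sq_abs]
        rw [h6]
        exact pow_le_pow_left₀ (abs_nonneg _) h4 _
      refine (EL_mono (cel z L B) w0 (fun i => (Q.pw i).1) l _ _ h3 _).trans ?_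
      rw [EL_const (cel z L B) w0 (fun i => (Q.pw i).2)]
      have h7 : (N : ℝ) ^ (2 ^ (r + 1)) ≤ (N : ℝ) ^ ((2 * 1 + ε) * 2 ^ r) := by
        rw [← Real.rpow_natCast]
        apply Real.rpow_le_rpow_of_exponent_le hN1
        push_cast
        rw [pow_succ]
        have : (0 : ℝ) < ε * 2 ^ r := by positivity
        linarith
      refine h7.trans ?_
      have h8 : (0 : ℝ) ≤ (N : ℝ) ^ ((2 * 1 + ε) * 2 ^ r) := by positivity
      calc (N : ℝ) ^ ((2 * 1 + ε) * 2 ^ r) = 1 * (N : ℝ) ^ ((2 * 1 + ε) * 2 ^ r) := (one_mul _).symm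
        _ ≤ _ := mul_le_mul_of_nonneg_right (le_max_right _ _) h8
  · obtain ⟨C, hC⟩ := Pool.Agent.Helper87.LP.MBG z S.grow S.big k (by omega) r ε hε
    refine ⟨C, fun N hN s h hinj hle a ha l hl hli => ?_⟩
    obtain ⟨Lf, hLf⟩ := hfun s l
    have h1 := hC N hN h hinj hle a ha Lf
      (fun W hW hout => by rw [hLf]; exact S.val_out Q R s N l hl hli W hW hout)
      (fun W hW => by rw [hLf]; exact S.val_le Q R s N l hl hli W hW)
      (fun j hj W hW => by rw [hLf]; exact S.val_bd Q R s N l hl hli j hj W hW)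
    rw [hLf] at h1
    have h2 : exq z k N s = 1 / 2 := by
      unfold exq
      rw [if_neg]
      exact fun h => hk1 h.1
    rw [h2]
    refine h1.trans (le_of_eq ?_)
    have h3 : (2 * (1 / 2 : ℝ) + ε) = 1 + ε := by ring
    rw [h3]

/-- the linear bounds of a cut sign function on a special block -/
private lemma cut_lin {z : ℕ → ℕ} {L B : ℕ → Finset ℕ} (S : Sys z L B) (f : ℕ → ℤˣ) (C₁ C₂ : ℝ)
    (hB : ∀ (j q : ℕ) (χ : DirichletCharacter ℂ q) (t : ℝ) (y : ℕ), 1 ≤ q →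
      ‖∑ p ∈ (B j).filter (· ≤ y), ((f p : ℤ) : ℂ) * χ (p : ZMod q) * npi p t‖ ≤
        C₁ * Real.sqrt (z j) * Real.sqrt (Real.log (q * (2 + |t|)) * Real.log (z j)))
    (hU : ∀ (j q : ℕ) (χ : DirichletCharacter ℂ q) (t : ℝ) (y : ℕ), 1 ≤ q →
      ‖∑ p ∈ (B j).filter (· ≤ y), ((f (p ^ 2) : ℤ) : ℂ) * χ (p : ZMod q) * npi p t‖ ≤
        C₂ * Real.sqrt (z j) * Real.sqrt (Real.log (q * (2 + |t|)) * Real.log (z j)))
    (s : ℕ → Cho) (j q : ℕ) (χ : DirichletCharacter ℂ q) (t : ℝ) (y : ℕ) (hq : 1 ≤ q) :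
    ‖∑ p ∈ (B j).filter (· ≤ y), (((cut z L B s f p : ℤˣ) : ℤ) : ℂ) * χ (p : ZMod q) * npi p t‖ ≤
      (2 * C₁ + C₂) * Real.sqrt (z j) * Real.sqrt (Real.log (q * (2 + |t|)) * Real.log (z j)) := by
  classical
  set c := (s j).2 with hc
  have e1 : ∑ p ∈ (B j).filter (· ≤ y), (((cut z L B s f p : ℤˣ) : ℤ) : ℂ) * χ (p : ZMod q) * npi p t =
      (((s j).1.2 : ℤ) : ℂ) * (∑ p ∈ (B j).filter (· ≤ min y c), ((f (p ^ 2) : ℤ) : ℂ) * χ (p : ZMod q) * npi p t +
        (∑ p ∈ (B j).filter (· ≤ y), ((f p : ℤ) : ℂ) * χ (p : ZMod q) * npi p t -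
        ∑ p ∈ (B j).filter (· ≤ min y c), ((f p : ℤ) : ℂ) * χ (p : ZMod q) * npi p t)) := by
    have h1 : (B j).filter (· ≤ min y c) = ((B j).filter (· ≤ y)).filter (· ≤ c) := by
      rw [Finset.filter_filter]
      refine Finset.filter_congr fun p _ => ?_
      exact le_min_iff
    rw [h1, Finset.sum_filter (s := (B j).filter (· ≤ y)), Finset.sum_filter (s := (B j).filter (· ≤ y)),
      ← Finset.sum_sub_distrib, ← Finset.sum_add_distrib, Finset.mul_sum]
    refine Finset.sum_congr rfl fun p hp => ?_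
    rw [S.cutB s f (Finset.mem_filter.mp hp).1]
    by_cases hpc : p ≤ c
    · rw [if_pos hpc, if_pos hpc, if_pos hpc]
      push_cast
      ring
    · rw [if_neg hpc, if_neg hpc, if_neg hpc]
      push_cast
      ring
  rw [e1, norm_unit_mul]
  have h1 := hU j q χ t (min y c) hq
  have h2 := hB j q χ t y hq
  have h3 := hB j q χ t (min y c) hq
  refine (norm_add_le _ _).trans ?_
  have h4 := norm_sub_le (∑ p ∈ (B j).filter (· ≤ y), ((f p : ℤ) : ℂ) * χ (p : ZMod q) * npi p t)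
    (∑ p ∈ (B j).filter (· ≤ min y c), ((f p : ℤ) : ℂ) * χ (p : ZMod q) * npi p t)
  linarith

/-- a sign function all of whose cuts are in the class; the exponential sums are small when the top special
block is cut completely, and the bilinear form of every special block is large -/
theorem CUTS : ∃ (z : ℕ → ℕ) (L B : ℕ → Finset ℕ) (_ : Sys z L B) (f : ℕ → ℤˣ),
    (∀ s : ℕ → Cho, GRHClass (ext fun n => ((cut z L B s f n : ℤˣ) : ℤ)) ∧
      TWC (ext fun n => ((cut z L B s f n : ℤˣ) : ℤ))) ∧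
    (∀ ε : ℝ, 0 < ε → ∃ C : ℝ, ∀ N : ℕ, 1 ≤ N → ∀ s : ℕ → Cho, Endp z N s → ∀ x : ℝ,
      ‖F (ext fun n => ((cut z L B s f n : ℤˣ) : ℤ)) N x‖ ≤ C * (N : ℝ) ^ (1 / 2 + ε)) ∧
    ∀ j, (z j : ℝ) ^ (3 / 2 - 4 * (1 / ((j : ℝ) + 10))) ≤
      ‖∑ p ∈ B j, ∑ l ∈ L j, ((f p : ℤ) : ℂ) * ((f l : ℤ) : ℂ) * e ((p * l : ℕ) * (1 / (4 * z j + 1)))‖ := by
  classical
  obtain ⟨CR, hCR0, hRB⟩ := Pool.Agent.Helper7.LP.BLK0
  obtain ⟨CU, hCU0, zU, hUB⟩ := Pool.Agent.Helper7.LP.UBLK
  obtain ⟨CN, hCN0, hNS⟩ := ORD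
  have hδ0 : ∀ j : ℕ, (0 : ℝ) < 1 / ((j : ℝ) + 10) := fun j => by positivity
  have hδ1 : ∀ j : ℕ, (1 : ℝ) / ((j : ℝ) + 10) ≤ 1 / 10 := fun j => by
    apply one_div_le_one_div_of_le (by norm_num)
    have : (0 : ℝ) ≤ j := Nat.cast_nonneg j
    linarith
  choose z₀ hz₀ using fun j : ℕ => hRB (1 / ((j : ℝ) + 10)) (hδ0 j) (hδ1 j)
  obtain ⟨z, hzG, hz2, hz3, hz4⟩ := SC2 (fun n => max (2 ^ (n ^ 2)) (16 * n ^ 2)) (fun j => max (z₀ j) zU)
  have hz1 : ∀ j, 16 * z j ^ 2 < z (j + 1) := fun j => lt_of_le_of_lt (le_max_right _ _) (hzG j)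
  have hz1' : ∀ j, 2 ^ (z j ^ 2) < z (j + 1) := fun j => lt_of_le_of_lt (le_max_left _ _) (hzG j)
  have hsplit : ∀ j, ∃ L B : Finset ℕ, L ∪ B = (Ioc (3 * z j) (4 * z j)).filter Nat.Prime ∧
      Disjoint L B ∧ (z j : ℝ) ^ (1 - 1 / ((j : ℝ) + 10)) ≤ 4 * L.card ∧
      (z j : ℝ) ^ (1 - 1 / ((j : ℝ) + 10)) ≤ 4 * B.card := by
    intro j
    apply split_card _ _ _ (hz4 j)
    apply Real.one_lt_rpow
    · have := hz3 j
      have : (16 : ℝ) ≤ z j := by exact_mod_cast this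
      linarith
    · have := hδ1 j
      linarith
  choose L B hLB hdis hLc hBc using hsplit
  have S : Sys z L B := ⟨hz1', hz1, hz3, hLB, hdis⟩
  have hzj : ∀ j, j ≤ z j := fun j => S.mono.id_le j
  choose wS wS0 hS1 hS2 hS3 hS4 hS5 hS6 using fun j : ℕ => hz₀ j (z j) ((le_max_left _ _).trans (hz2 j)) (L j) (B j)
    (fun p hp => Finset.mem_Ioc.mpr (S.memL hp).2)
    (fun p hp => Finset.mem_Ioc.mpr (S.memB hp).2) (hdis j) (hLc j) (hBc j)
  choose wU hU1 hU2 hU3 using fun j : ℕ => hUB (z j) ((le_max_right _ _).trans (hz2 j)) (B j)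
    (fun p hp => Finset.mem_Ioc.mpr (S.memB hp).2)
  choose wD hD1 hD2 hD3 using fun k : ℕ => hNS k (cel z L B (Sum.inl (Sum.inl k)))
    (by
      intro p hp
      unfold cel at hp
      exact (Finset.mem_filter.mp hp).1)
  set w0 : ∀ i, ({p // p ∈ cel z L B i} → ℤˣ) → ℝ :=
    ww z L B (fun k x => wt (fun _ => 0) x) wS0 (fun j x => wt (fun _ => 0) x) with hw0
  have Q : Wts z L B w0 := by
    refine ⟨?_, ?_, ?_, ?_, ?_⟩
    · rintro ((k | j) | j)
      · exact (MU _).1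
      · exact hS2 j
      · exact (MU _).1
    · exact fun k T => (MU _).2 T
    · exact fun j T => hS4 j T
    · exact fun j T => hS5 j T
    · exact fun j T => (MU _).2 T
  set rel : ℕ → Finset ((ℕ ⊕ ℕ) ⊕ ℕ) := fun N => ((KK N).disjSum (TT z N)).disjSum (TT z N) with hrel
  have R : Rel z rel := by
    refine ⟨?_, ?_, ?_⟩
    · intro N k
      rw [hrel]
      simp only [Finset.inl_mem_disjSum]
      exact mem_KK N k
    · intro N j
      rw [hrel]
      simp only [Finset.inl_mem_disjSum, Finset.inr_mem_disjSum]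
      exact mem_TT z hzj N j
    · intro N j
      rw [hrel]
      simp only [Finset.inr_mem_disjSum]
      exact mem_TT z hzj N j
  obtain ⟨f, hf1, hf2⟩ := PIPTH 1 (cel z L B) S.cel_dis (ww z L B wD wS wU) w0
    (by rintro ((k | j) | j)
        · exact hD1 k
        · exact hS1 j
        · exact hU1 j)
    Q.pw
    (Sum.elim (Sum.elim (fun _ => 2) (fun j => (z j : ℝ) ^ 2)) (fun _ => 2))
    (by rintro ((k | j) | j)
        · show (1 : ℝ) ≤ 2
          norm_num
        · show (1 : ℝ) ≤ (z j : ℝ) ^ 2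
          have : (16 : ℝ) ≤ z j := by exact_mod_cast hz3 j
          nlinarith
        · show (1 : ℝ) ≤ 2
          norm_num)
    (by rintro ((k | j) | j)
        · exact hD2 k
        · exact hS3 j
        · exact hU2 j)
    rel 4
    (by intro N hN
        have hN1 : (1 : ℝ) ≤ N := by exact_mod_cast hN
        have hN0 : (0 : ℝ) ≤ N := by linarith
        have h1 : ∏ i ∈ rel N, (Sum.elim (Sum.elim (fun _ => (2 : ℝ)) (fun j => (z j : ℝ) ^ 2)) (fun _ => 2) : (ℕ ⊕ ℕ) ⊕ ℕ → ℝ) i =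
            (2 ^ (KK N).card * ∏ i ∈ TT z N, (z i : ℝ) ^ 2) * 2 ^ (TT z N).card := by
          rw [hrel]
          simp only [Finset.prod_disjSum]
          simp
        rw [h1]
        have h2 : (2 : ℝ) ^ (TT z N).card ≤ N := by
          have h3 := TT_card z hz1 hz3 S.mono N hN
          have h4 : 2 ^ (TT z N).card ≤ 4 ^ (TT z N).card := Nat.pow_le_pow_left (by norm_num) _
          exact_mod_cast h4.trans h3
        calc ((2 : ℝ) ^ (KK N).card * ∏ i ∈ TT z N, (z i : ℝ) ^ 2) * 2 ^ (TT z N).card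
            ≤ ((4 * N) * (N : ℝ) ^ 4) * N := by
              gcongr
              · exact KK_card N hN
              · exact TT_prod z hz1 hz3 S.mono N hN
          _ = 4 * (N : ℝ) ^ 6 := by ring)
    (FlN z) 8
    (by intro N hN
        have hN1 : (1 : ℝ) ≤ N := by exact_mod_cast hN
        have h1 : (Fintype.card (FlN z N) : ℝ) = ∏ j : {j // j ∈ TT z N}, ((4 * (4 * z j + 1) : ℕ) : ℝ) := by
          rw [Fintype.card_pi]
          push_cast
          refine Finset.prod_congr rfl fun j _ => ?_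
          rw [Fintype.card_prod, Fintype.card_prod, Fintype.card_units_int, Fintype.card_fin]
          push_cast
          ring
        rw [h1, Finset.prod_coe_sort (TT z N) (fun j => ((4 * (4 * z j + 1) : ℕ) : ℝ))]
        calc ∏ i ∈ TT z N, ((4 * (4 * z i + 1) : ℕ) : ℝ) ≤ ∏ i ∈ TT z N, ((z i : ℝ) ^ 2) ^ 2 := by
              refine Finset.prod_le_prod (fun _ _ => Nat.cast_nonneg _) fun i _ => ?_
              have h2 : (16 : ℝ) ≤ z i := by exact_mod_cast hz3 i
              push_cast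
              have h3 : (16 : ℝ) * z i ≤ (z i : ℝ) ^ 2 := by nlinarith
              have h4 : (256 : ℝ) ≤ (z i : ℝ) ^ 2 := by nlinarith
              nlinarith
          _ = (∏ i ∈ TT z N, (z i : ℝ) ^ 2) ^ 2 := by rw [Finset.prod_pow]
          _ ≤ ((N : ℝ) ^ 4) ^ 2 := by
              have := TT_prod z hz1 hz3 S.mono N hN
              gcongr
          _ = (N : ℝ) ^ 8 := by ring)
    (fun N φ f => cut z L B (sq z N φ) f)
    (by intro N φ f f' hff p hp hpN
        by_cases h1 : ∃ j, p ∈ L j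
        · obtain ⟨j, hj⟩ := h1
          have h2 := (S.memL hj).2.1
          have h3 := hff (Sum.inl (Sum.inr j)) ((R.r2 N j).mpr (by omega)) p (Finset.mem_union_left _ hj)
          rw [S.cutL _ f hj, S.cutL _ f' hj, h3]
        · by_cases h2 : ∃ j, p ∈ B j
          · obtain ⟨j, hj⟩ := h2
            have h3 := (S.memB hj).2.1
            have h4 := hff (Sum.inl (Sum.inr j)) ((R.r2 N j).mpr (by omega)) p (Finset.mem_union_right _ hj)
            have h5 := hff (Sum.inr j) ((R.r3 N j).mpr (by omega)) (p ^ 2) (Finset.mem_image_of_mem _ hj)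
            rw [S.cutB _ f hj, S.cutB _ f' hj, h4, h5]
          · rw [Sys.cutO _ f (fun j hj => h1 ⟨j, hj⟩) (fun j hj => h2 ⟨j, hj⟩),
              Sys.cutO _ f' (fun j hj => h1 ⟨j, hj⟩) (fun j hj => h2 ⟨j, hj⟩)]
            have hs : ¬ ∃ j, 3 * z j < p ∧ p ≤ 4 * z j := by
              rintro ⟨j, hj1, hj2⟩
              rcases Finset.mem_union.mp (S.memU hp hj1 hj2) with h | h
              · exact h1 ⟨j, h⟩
              · exact h2 ⟨j, h⟩
            obtain ⟨h6, h7⟩ := S.dyadic hp hs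
            exact hff _ ((R.r1 N _).mpr (by omega)) p h6)
    (fun k N φ => exq z k N (sq z N φ))
    (by intro k _ N φ
        unfold exq
        split_ifs <;> norm_num)
    (by intro k hk r ε hε
        obtain ⟨C, hC⟩ := hMB_all S Q R k hk r ε hε
        exact ⟨C, fun N hN φ h hinj hle a ha l hl hli => hC N hN (sq z N φ) h hinj hle a ha l hl hli⟩)
  have hfD : ∀ k, 0 < wD k (rs (cel z L B (Sum.inl (Sum.inl k))) f) := fun k => hf1 (Sum.inl (Sum.inl k))
  have hfS : ∀ j, 0 < wS j (rs (L j ∪ B j) f) := fun j => hf1 (Sum.inl (Sum.inr j))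
  have hfU : ∀ j, 0 < wU j (rs ((B j).image fun p => p ^ 2) f) := fun j => hf1 (Sum.inr j)
  have hPS : ∀ s : ℕ → Cho, PS (fun n => ((cut z L B s f n : ℤˣ) : ℤ)) := by
    intro s
    refine GLU z hz1 hz3 L B hLB hdis _ (max (2 * CR + CU) CN) ?_ ?_ ?_
    · intro j q χ t y hq
      have h := (hS6 j f (hfS j)).1 q χ t y hq
      have e1 : ∑ p ∈ (L j).filter (· ≤ y), (((cut z L B s f p : ℤˣ) : ℤ) : ℂ) * χ (p : ZMod q) * npi p t =
          (((s j).1.1 : ℤ) : ℂ) * ∑ p ∈ (L j).filter (· ≤ y),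
            (((f p : ℤˣ) : ℤ) : ℂ) * χ (p : ZMod q) * npi p t := by
        rw [Finset.mul_sum]
        apply Finset.sum_congr rfl
        intro p hp
        rw [S.cutL s f (Finset.mem_filter.mp hp).1]
        push_cast
        ring
      rw [e1, norm_unit_mul]
      refine h.trans ?_
      gcongr
      exact (by linarith : CR ≤ 2 * CR + CU).trans (le_max_left _ _)
    · intro j q χ t y hq
      refine (cut_lin S f CR CU (fun j q χ t y hq => (hS6 j f (hfS j)).2.1 q χ t y hq)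
        (fun j q χ t y hq => hU3 j f (hfU j) q χ t y hq) s j q χ t y hq).trans ?_
      gcongr
      exact le_max_left _ _
    · intro k q χ t y hq
      have h := hD3 k f (hfD k) q χ t y hq
      have e0 : (Ioc (2 ^ k) (2 ^ (k + 1))).filter
          (fun p => p.Prime ∧ p ∉ {n : ℕ | ∃ j, 3 * z j < n ∧ n ≤ 4 * z j} ∧ p ≤ y) =
          (cel z L B (Sum.inl (Sum.inl k))).filter (· ≤ y) := by
        apply Finset.ext
        intro p
        have hc : p ∈ cel z L B (Sum.inl (Sum.inl k)) ↔ p ∈ (Ioc (2 ^ k) (2 ^ (k + 1))).filter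
            (fun p => p.Prime ∧ ¬ ∃ j, 3 * z j < p ∧ p ≤ 4 * z j) := Iff.rfl
        rw [Finset.mem_filter, Finset.mem_filter, hc, Finset.mem_filter, Finset.mem_Ioc]
        simp only [Set.mem_ofPred_eq]
        tauto
      have e1 : ∑ p ∈ (cel z L B (Sum.inl (Sum.inl k))).filter (· ≤ y),
          (((cut z L B s f p : ℤˣ) : ℤ) : ℂ) * χ (p : ZMod q) * npi p t =
          ∑ p ∈ (cel z L B (Sum.inl (Sum.inl k))).filter (· ≤ y),
            (((f p : ℤˣ) : ℤ) : ℂ) * χ (p : ZMod q) * npi p t := by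
        apply Finset.sum_congr rfl
        intro p hp
        have hp' : p ∈ (Ioc (2 ^ k) (2 ^ (k + 1))).filter
            (fun p => p.Prime ∧ ¬ ∃ j, 3 * z j < p ∧ p ≤ 4 * z j) := (Finset.mem_filter.mp hp).1
        rw [Finset.mem_filter] at hp'
        rw [Sys.cutO s f (fun j hj => hp'.2.2 ⟨j, (S.memL hj).2⟩) (fun j hj => hp'.2.2 ⟨j, (S.memB hj).2⟩)]
      rw [e0, e1]
      refine h.trans ?_
      gcongr
      exact le_max_right _ _
  refine ⟨z, L, B, S, f, ?_, ?_, fun j => (hS6 j f (hfS j)).2.2⟩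
  · intro s
    refine ⟨P3 _ (fun p _ => Sys.cut_pm s f p) (hPS s), ?_⟩
    intro k hk ε hε
    obtain ⟨C, hC⟩ := hf2 k (by omega) ε hε
    refine ⟨C, fun q χ t M N hq hMN hN h hinj hle x => ?_⟩
    have hsk : exq z k N (sq z N (fin z N s)) = 1 / 2 := by
      unfold exq
      rw [if_neg]
      rintro ⟨h1, _⟩
      omega
    have hC1 := hC q χ t M N hq hMN hN h hinj hle (fin z N s) x
    rw [hsk] at hC1
    refine le_trans (le_of_eq ?_) hC1
    congr 1
    apply cort_congr h χ t M N hMN hle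
    intro p _ hp
    rw [cut_fin S N s f hp]
  · intro ε hε
    obtain ⟨C, hC⟩ := hf2 1 le_rfl ε hε
    refine ⟨C, fun N hN s hs x => ?_⟩
    have h1 := hC 1 1 0 N N le_rfl le_rfl hN (fun _ => 0) (Function.injective_of_subsingleton _)
      (fun _ => Nat.zero_le _) (fin z N s) x
    have hsk : exq z 1 N (sq z N (fin z N s)) = 1 / 2 := by
      unfold exq
      rw [if_neg]
      exact fun h => h.2 (endp_fin S N s hs)
    rw [hsk] at h1
    have hN0 : (0 : ℝ) < N := by exact_mod_cast hN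
    have h2 : C * (((1 : ℕ) : ℝ) * (1 + |(0 : ℝ)|) * N) ^ ε * (N : ℝ) ^ (1 / 2 : ℝ) =
        C * (N : ℝ) ^ (1 / 2 + ε) := by
      have h3 : (((1 : ℕ) : ℝ) * (1 + |(0 : ℝ)|) * N) = N := by simp
      rw [h3, mul_assoc, ← Real.rpow_add hN0, add_comm]
    rw [h2] at h1
    refine le_trans (le_of_eq ?_) h1
    rw [← cort_one]
    congr 1
    apply cort_congr (fun _ : Fin 1 => 0) (1 : DirichletCharacter ℂ 1) 0 N N le_rfl (fun _ => Nat.zero_le _)
    intro p _ hp
    rw [cut_fin S N s f hp]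

end Pool.Agent.Helper80.LP
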