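import Pool.Agent.Helper80.LP.Th
import Pool.Agent.Helper92.CB.UP

/-! # MP_b6b996_nt: the growth exponents of the norms of order `p` against that of the maximum -/

set_option autoImplicit false

namespace Pool.Agent.Helper80.LP

open Finset MeasureTheory
open Pool.Agent.Helper92.GB (F e theta)
open Pool.Agent.Helper92.CB (ChowlaClass)

lemma setT_ne (g : ℕ → ℤ) (hg : ChowlaClass g) : ∃ a : ℝ, 0 ≤ a ∧ ∃ C : ℝ, ∀ N : ℕ, 1 ≤ N →
    ∀ x : ℝ, x ∈ Set.Icc (0 : ℝ) 1 → ‖F g N x‖ ≤ C * (N : ℝ) ^ a := by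
  obtain ⟨C, hC⟩ := Pool.Agent.Helper92.CB.UP g hg 1 one_pos
  exact ⟨3 / 4 + 1, by norm_num, C, fun N hN x _ => hC N hN x⟩

lemma setP_of {p : ℝ} (hp : 0 < p) (g : ℕ → ℤ) (a C : ℝ)
    (h : ∀ N : ℕ, 1 ≤ N → ∀ x : ℝ, x ∈ Set.Icc (0 : ℝ) 1 → ‖F g N x‖ ≤ C * (N : ℝ) ^ a) :
    ∀ N : ℕ, 1 ≤ N → nrm p g N ≤ |C| * (N : ℝ) ^ a := by
  intro N hN
  have hN0 : (0 : ℝ) < N := by exact_mod_cast hN
  refine nrm_le_sup hp g N _ (by positivity) fun x hx => ?_
  exact (h N hN x hx).trans (mul_le_mul_of_nonneg_right (le_abs_self _) (by positivity))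

lemma setP_ne {p : ℝ} (hp : 0 < p) (g : ℕ → ℤ) (hg : ChowlaClass g) :
    ∃ a : ℝ, 0 ≤ a ∧ ∃ C : ℝ, ∀ N : ℕ, 1 ≤ N → nrm p g N ≤ C * (N : ℝ) ^ a := by
  obtain ⟨a, ha, C, hC⟩ := setT_ne g hg
  exact ⟨a, ha, |C|, setP_of hp g a C hC⟩

/-- the bound belonging to the growth exponent -/
lemma theta_bound (g : ℕ → ℤ) (hg : ChowlaClass g) (ε : ℝ) (hε : 0 < ε) : ∃ C : ℝ, ∀ N : ℕ, 1 ≤ N →
    ∀ x ∈ Set.Icc (0 : ℝ) 1, ‖F g N x‖ ≤ C * (N : ℝ) ^ (theta g + ε) := by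
  have hlt : theta g < theta g + ε := by linarith
  obtain ⟨a, ⟨ha0, C, hC⟩, ha⟩ := exists_lt_of_csInf_lt (setT_ne g hg) hlt
  refine ⟨|C|, fun N hN x hx => ?_⟩
  have hN1 : (1 : ℝ) ≤ N := by exact_mod_cast hN
  refine (hC N hN x hx).trans ?_
  refine (mul_le_mul_of_nonneg_right (le_abs_self C) (by positivity)).trans ?_
  exact mul_le_mul_of_nonneg_left (Real.rpow_le_rpow_of_exponent_le hN1 ha.le) (abs_nonneg _)

/-- the exponent of the maximum against that of the norm of order `p` -/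
theorem theta_le_thetaP {p : ℝ} (hp : 0 < p) (g : ℕ → ℤ) (hg : ChowlaClass g) :
    theta g - 1 / p ≤ thetaP p g := by
  refine le_csInf (setP_ne hp g hg) ?_
  rintro a ⟨ha0, C, hC⟩
  obtain ⟨c, hc, hl⟩ := nrm_ge_of_large hp g
  have hp1 : 0 < 1 / p := by positivity
  have h : theta g ≤ a + 1 / p := by
    refine csInf_le ⟨0, fun b hb => hb.1⟩ ⟨by linarith, c⁻¹ * C, fun N hN x hx => ?_⟩
    have hN0 : (0 : ℝ) < N := by exact_mod_cast hN
    have h1 := (hl N hN ‖F g N x‖ (norm_nonneg _) ⟨x, hx, le_rfl⟩).trans (hC N hN)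
    have h2 : (0 : ℝ) < c * (N : ℝ) ^ (-(1 / p)) := by positivity
    refine le_of_mul_le_mul_left (h1.trans (le_of_eq ?_)) h2
    have h3 : (N : ℝ) ^ a = (N : ℝ) ^ (-(1 / p)) * (N : ℝ) ^ (a + 1 / p) := by
      rw [← Real.rpow_add hN0]
      congr 1
      ring
    rw [h3]
    field_simp
  linarith

lemma half_le_thetaP {p : ℝ} (hp : 0 < p) (g : ℕ → ℤ) (hg : ChowlaClass g) : 1 / 2 ≤ thetaP p g := by
  refine le_thetaP p g _ (setP_ne hp g hg) fun ε hε => ?_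
  rcases le_total p 4 with h | h
  · obtain ⟨c, C, hc, hC, h1⟩ := nrm_two_sided hp h g hg ε hε
    refine ⟨c, hc, fun N₀ => ⟨max N₀ 1, le_max_left _ _, (h1 _ (le_max_right _ _)).1⟩⟩
  · refine ⟨(1 / 8) ^ (1 / 2 : ℝ), by positivity, fun N₀ => ⟨max N₀ 1, le_max_left _ _, ?_⟩⟩
    have hN1 : (1 : ℝ) ≤ ((max N₀ 1 : ℕ) : ℝ) := by exact_mod_cast (le_max_right N₀ 1)
    refine le_trans (mul_le_mul_of_nonneg_left ?_ (by positivity))
      (nrm_lower_high (by linarith) g hg.sq _ (le_max_right _ _))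
    exact Real.rpow_le_rpow_of_exponent_le hN1 (by linarith)

lemma half_le_theta' (g : ℕ → ℤ) (hg : ChowlaClass g) : 1 / 2 ≤ theta g :=
  Pool.Agent.Helper92.GB.half_le_theta g hg.sq (setT_ne g hg)

lemma theta_le' (g : ℕ → ℤ) (hg : ChowlaClass g) : theta g ≤ 3 / 4 :=
  Pool.Agent.Helper92.GB.theta_le g _ (by norm_num) fun ε hε => Pool.Agent.Helper92.CB.UP g hg ε hε

/-- orders above four: the exponent of the norm against that of the maximum -/
theorem thetaP_le_theta {p : ℝ} (hp : 4 < p) (g : ℕ → ℤ) (hg : ChowlaClass g) :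
    thetaP p g ≤ theta g - (4 * theta g - 2) / p := by
  have hp0 : 0 < p := by linarith
  have h1 := half_le_theta' g hg
  have h2 := theta_le' g hg
  refine thetaP_le p g _ ?_ fun ε hε => nrm_upper_high hp g hg (theta g) (theta_bound g hg) ε hε
  have h3 : (4 * theta g - 2) / p ≤ (4 * theta g - 2) / 4 :=
    div_le_div_of_nonneg_left (by linarith) (by norm_num) hp.le
  linarith

/-- orders above four: the top value -/
theorem thetaP_top {p : ℝ} (hp : 4 < p) (g : ℕ → ℤ) (hg : ChowlaClass g) :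
    thetaP p g ≤ 3 / 4 - 1 / p ∧ (thetaP p g = 3 / 4 - 1 / p ↔ theta g = 3 / 4) := by
  have hp0 : 0 < p := by linarith
  have h0 := thetaP_le_theta hp g hg
  have h1 := half_le_theta' g hg
  have h2 := theta_le' g hg
  have h3 := theta_le_thetaP hp0 g hg
  have h4 : theta g - (4 * theta g - 2) / p = 3 / 4 - 1 / p - (3 / 4 - theta g) * ((p - 4) / p) := by
    field_simp
    ring
  have h5 : 0 < (p - 4) / p := div_pos (by linarith) hp0
  rw [h4] at h0
  have h6 : 0 ≤ (3 / 4 - theta g) * ((p - 4) / p) := mul_nonneg (by linarith) h5.le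
  refine ⟨by linarith, fun h => ?_, fun h => ?_⟩
  · by_contra hne
    have h7 : theta g < 3 / 4 := lt_of_le_of_ne h2 hne
    have h8 : 0 < (3 / 4 - theta g) * ((p - 4) / p) := mul_pos (by linarith) h5
    linarith
  · apply le_antisymm
    · linarith
    · rw [h] at h3
      exact h3

end Pool.Agent.Helper80.LP
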