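import Pool.Agent.Helper80.LP.CutS
import Pool.Agent.Helper7.LP.SELX
import Pool.Agent.Helper80.LP.Ends
import Pool.Agent.Helper80.LP.Sup

/-! # MP_b6b996_nt: members of the strong class with norms of exact order `N^t` -/

set_option autoImplicit false

namespace Pool.Agent.Helper80.LP

open Finset
open Pool.Agent.Helper92.GB (e ext F GRHClass)
open Pool.Agent.Helper5.JB (TWC)

/-- the upper limit is `1` -/
lemma limsup_one (u : ℕ → ℝ) (t : ℝ) (h1 : ∃ N₀ : ℕ, ∀ N : ℕ, N₀ ≤ N → u N ≤ (N : ℝ) ^ t)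
    (h2 : ∀ η : ℝ, 0 < η → ∀ N₀ : ℕ, ∃ N : ℕ, N₀ ≤ N ∧ (1 - η) * (N : ℝ) ^ t ≤ u N) :
    Filter.limsup (fun N : ℕ => u N / (N : ℝ) ^ t) Filter.atTop = 1 := by
  have key : ∀ a : ℝ, (∀ᶠ N : ℕ in Filter.atTop, u N / (N : ℝ) ^ t ≤ a) → ∀ η : ℝ, 0 < η → 1 - η ≤ a := by
    intro a ha η hη
    obtain ⟨N₀, hN₀⟩ := Filter.eventually_atTop.1 ha
    obtain ⟨N, hN, h⟩ := h2 η hη (max N₀ 1)
    have hN1 : (0 : ℝ) < N := by exact_mod_cast (le_max_right N₀ 1).trans hN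
    have h3 := hN₀ N ((le_max_left _ _).trans hN)
    rw [div_le_iff₀ (Real.rpow_pos_of_pos hN1 t)] at h3
    exact le_of_mul_le_mul_right (h.trans h3) (Real.rpow_pos_of_pos hN1 t)
  rw [Filter.limsup_eq]
  apply le_antisymm
  · refine csInf_le ⟨0, fun a ha => ?_⟩ ?_
    · have := key a ha 1 one_pos
      linarith
    · obtain ⟨N₀, hN₀⟩ := h1
      refine Filter.eventually_atTop.2 ⟨max N₀ 1, fun N hN => ?_⟩
      have hN1 : (0 : ℝ) < N := by exact_mod_cast (le_max_right N₀ 1).trans hN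
      rw [div_le_iff₀ (Real.rpow_pos_of_pos hN1 t), one_mul]
      exact hN₀ N ((le_max_left _ _).trans hN)
  · have hne : {a : ℝ | ∀ᶠ N : ℕ in Filter.atTop, u N / (N : ℝ) ^ t ≤ a}.Nonempty := by
      obtain ⟨N₀, hN₀⟩ := h1
      refine ⟨1, Filter.eventually_atTop.2 ⟨max N₀ 1, fun N hN => ?_⟩⟩
      have hN1 : (0 : ℝ) < N := by exact_mod_cast (le_max_right N₀ 1).trans hN
      rw [div_le_iff₀ (Real.rpow_pos_of_pos hN1 t), one_mul]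
      exact hN₀ N ((le_max_left _ _).trans hN)
    refine le_csInf hne fun a ha => ?_
    refine le_of_forall_pos_le_add fun η hη => ?_
    have := key a ha η hη
    linarith

/-- exact order for the norm of order `p` -/
theorem EXACTP (p : ℝ) (hp : 4 < p) (t : ℝ) (ht1 : 1 / 2 < t) (ht2 : t < 3 / 4 - 1 / p) :
    ∃ g : ℕ → ℤ, (GRHClass g ∧ TWC g) ∧ (∃ N₀ : ℕ, ∀ N : ℕ, N₀ ≤ N → nrm p g N ≤ (N : ℝ) ^ t) ∧
      ∀ η : ℝ, 0 < η → ∀ N₀ : ℕ, ∃ N : ℕ, N₀ ≤ N ∧ (1 - η) * (N : ℝ) ^ t ≤ nrm p g N := by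
  obtain ⟨z, L, B, S, f, h1, h2, h3⟩ := CUTS
  obtain ⟨s, hs⟩ := Pool.Agent.Helper7.LPX.SELX S f h2 h3 p hp t ht1 ht2
  exact ⟨_, h1 s, hs⟩

/-- exact order for the maximum -/
theorem EXACTI (t : ℝ) (ht1 : 1 / 2 < t) (ht2 : t < 3 / 4) :
    ∃ g : ℕ → ℤ, (GRHClass g ∧ TWC g) ∧ (∃ N₀ : ℕ, ∀ N : ℕ, N₀ ≤ N → sup1 g N ≤ (N : ℝ) ^ t) ∧
      ∀ η : ℝ, 0 < η → ∀ N₀ : ℕ, ∃ N : ℕ, N₀ ≤ N ∧ (1 - η) * (N : ℝ) ^ t ≤ sup1 g N := by
  obtain ⟨z, L, B, S, f, h1, h2, h3⟩ := CUTS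
  obtain ⟨s, hs⟩ := Pool.Agent.Helper7.LPX.SELI S f h2 h3 t ht1 ht2
  exact ⟨_, h1 s, hs⟩

/-- the exponent of a norm of exact order `N^t` -/
lemma thetaP_of_exact {p : ℝ} (hp : 0 < p) (g : ℕ → ℤ) (hg : Pool.Agent.Helper92.CB.ChowlaClass g) {t : ℝ} (ht : 0 ≤ t)
    (h1 : ∃ N₀ : ℕ, ∀ N : ℕ, N₀ ≤ N → nrm p g N ≤ (N : ℝ) ^ t)
    (h2 : ∀ η : ℝ, 0 < η → ∀ N₀ : ℕ, ∃ N : ℕ, N₀ ≤ N ∧ (1 - η) * (N : ℝ) ^ t ≤ nrm p g N) : thetaP p g = t := by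
  apply le_antisymm
  · obtain ⟨N₀, hN₀⟩ := h1
    refine csInf_le ⟨0, fun a ha => ha.1⟩ ⟨ht, max 1 (∑ M ∈ range N₀, nrm p g M), fun N hN => ?_⟩
    have hN1 : (1 : ℝ) ≤ N := by exact_mod_cast hN
    have hNt : 1 ≤ (N : ℝ) ^ t := Real.one_le_rpow hN1 ht
    rcases le_or_gt N₀ N with h | h
    · refine (hN₀ N h).trans ?_
      calc (N : ℝ) ^ t = 1 * (N : ℝ) ^ t := (one_mul _).symm
        _ ≤ _ := mul_le_mul_of_nonneg_right (le_max_left _ _) (by linarith)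
    · have h3 : nrm p g N ≤ ∑ M ∈ range N₀, nrm p g M :=
        Finset.single_le_sum (f := fun M => nrm p g M) (fun M _ => nrm_nonneg p g M) (Finset.mem_range.mpr h)
      have h4 : nrm p g N ≤ max 1 (∑ M ∈ range N₀, nrm p g M) := h3.trans (le_max_right _ _)
      have h5 : (0 : ℝ) ≤ max 1 (∑ M ∈ range N₀, nrm p g M) := zero_le_one.trans (le_max_left _ _)
      nlinarith
  · refine le_thetaP p g t (setP_ne hp g hg) fun ε hε => ⟨1 / 2, by norm_num, fun N₀ => ?_⟩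
    obtain ⟨N, hN, h⟩ := h2 (1 / 2) (by norm_num) (max N₀ 1)
    have hN1 : (1 : ℝ) ≤ N := by exact_mod_cast (le_max_right N₀ 1).trans hN
    refine ⟨N, (le_max_left _ _).trans hN, le_trans ?_ h⟩
    have h3 : (1 - 1 / 2 : ℝ) = 1 / 2 := by norm_num
    rw [h3]
    exact mul_le_mul_of_nonneg_left (Real.rpow_le_rpow_of_exponent_le hN1 (by linarith)) (by norm_num)

end Pool.Agent.Helper80.LP
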