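import Pool.Agent.Helper80.LP.CutS
import Pool.Agent.Helper7.LP.SEL
import Pool.Agent.Helper80.LP.Ends

/-! # MP_b6b996_nt: members of the strong class with every exponent of the norm of order `p > 4` -/

set_option autoImplicit false

namespace Pool.Agent.Helper80.LP

open Finset
open Pool.Agent.Helper92.GB (e ext F GRHClass)
open Pool.Agent.Helper5.JB (TWC)

/-- every value strictly between the ends is an exponent -/
theorem FULLP (p : ℝ) (hp : 4 < p) (t : ℝ) (ht1 : 1 / 2 < t) (ht2 : t < 3 / 4 - 1 / p) :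
    ∃ g : ℕ → ℤ, (GRHClass g ∧ TWC g) ∧ thetaP p g = t := by
  obtain ⟨z, L, B, S, f, h1, h2, h3⟩ := CUTS
  obtain ⟨s, ⟨C, hC⟩, c, hc, hl⟩ := Pool.Agent.Helper7.LP.SEL S f h2 h3 p hp t ht1 ht2
  refine ⟨ext fun n => ((cut z L B s f n : ℤˣ) : ℤ), h1 s, le_antisymm ?_ ?_⟩
  · refine csInf_le ⟨0, fun a ha => ha.1⟩ ⟨by linarith, C, hC⟩
  · refine le_thetaP p _ t ⟨t, by linarith, C, hC⟩ fun ε hε => ⟨c, hc, fun N₀ => ?_⟩
    obtain ⟨N, hN, h⟩ := hl (max N₀ 1)
    have hN1 : (1 : ℝ) ≤ N := by exact_mod_cast (le_max_right N₀ 1).trans hN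
    refine ⟨N, (le_max_left _ _).trans hN, le_trans (mul_le_mul_of_nonneg_left ?_ hc.le) h⟩
    exact Real.rpow_le_rpow_of_exponent_le hN1 (by linarith)

end Pool.Agent.Helper80.LP
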