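import Pool.Agent.Helper92.GB.Theta
import Pool.Agent.Helper92.CB.Defs
import Pool.Agent.Helper76.EM.Fourier

/-! # MP_b6b996_nt: moments of the exponential sums of multiplicative functions -/

set_option autoImplicit false

namespace Pool.Agent.Helper80.LP

open Finset MeasureTheory
open Pool.Agent.Helper92.GB (F e)
open Pool.Agent.Helper76.EM (ee ee_add ee_sub ee_zero norm_ee ee_continuous TP TP_continuous TP_parseval TP_bessel cf)

lemma e_eq (n : ℕ) (x : ℝ) : e (n * x) = ee (((n : ℤ) : ℝ) * x) := by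
  unfold Pool.Agent.Helper92.GB.e Pool.Agent.Helper76.EM.ee
  congr 1
  push_cast
  ring

lemma F_TP (g : ℕ → ℤ) (N : ℕ) (x : ℝ) :
    F g N x = TP (Icc 1 N) (fun n : ℕ => (n : ℤ)) (fun n => (g n : ℂ)) x := by
  unfold Pool.Agent.Helper92.GB.F Pool.Agent.Helper76.EM.TP
  refine Finset.sum_congr rfl fun n _ => ?_
  rw [e_eq]

lemma F_cont (g : ℕ → ℤ) (N : ℕ) : Continuous (F g N) := by
  have h : F g N = TP (Icc 1 N) (fun n : ℕ => (n : ℤ)) (fun n => (g n : ℂ)) := funext fun x => F_TP g N x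
  rw [h]
  exact TP_continuous _ _ _

lemma F_rpow_cont (g : ℕ → ℤ) (N : ℕ) {p : ℝ} (hp : 0 ≤ p) : Continuous fun x => ‖F g N x‖ ^ p :=
  (F_cont g N).norm.rpow_const fun _ => Or.inr hp

/-- the moment of order `p` -/
noncomputable def mo (p : ℝ) (g : ℕ → ℤ) (N : ℕ) : ℝ := ∫ x in (0 : ℝ)..1, ‖F g N x‖ ^ p

lemma mo_nonneg (p : ℝ) (g : ℕ → ℤ) (N : ℕ) : 0 ≤ mo p g N := by
  unfold mo
  exact intervalIntegral.integral_nonneg zero_le_one fun x _ => Real.rpow_nonneg (norm_nonneg _) _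

/-- a pointwise inequality between powers gives one between moments -/
lemma mo_le {p q r A B : ℝ} (hp : 0 ≤ p) (hq : 0 ≤ q) (hr : 0 ≤ r) (g : ℕ → ℤ) (N : ℕ)
    (h : ∀ x ∈ Set.Icc (0 : ℝ) 1, ‖F g N x‖ ^ p ≤ A * ‖F g N x‖ ^ q + B * ‖F g N x‖ ^ r) :
    mo p g N ≤ A * mo q g N + B * mo r g N := by
  unfold mo
  rw [← intervalIntegral.integral_const_mul, ← intervalIntegral.integral_const_mul,
    ← intervalIntegral.integral_add]
  · refine intervalIntegral.integral_mono_on zero_le_one ?_ ?_ h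
    · exact (F_rpow_cont g N hp).intervalIntegrable _ _
    · exact ((continuous_const.mul (F_rpow_cont g N hq)).add
        (continuous_const.mul (F_rpow_cont g N hr))).intervalIntegrable _ _
  · exact (continuous_const.mul (F_rpow_cont g N hq)).intervalIntegrable _ _
  · exact (continuous_const.mul (F_rpow_cont g N hr)).intervalIntegrable _ _

lemma mo_zero (g : ℕ → ℤ) (N : ℕ) : mo 0 g N = 1 := by
  unfold mo
  simp

/-- the second moment -/
lemma mo_two (g : ℕ → ℤ) (N : ℕ) : mo 2 g N = ∑ n ∈ Icc 1 N, ((g n : ℝ)) ^ 2 := by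
  have h0 : mo 2 g N = ∫ α in (0:ℝ)..1, ‖TP (Icc 1 N) (fun n : ℕ => (n : ℤ)) (fun n => (g n : ℂ)) α‖ ^ 2 := by
    unfold mo
    refine intervalIntegral.integral_congr fun x _ => ?_
    rw [← F_TP]
    exact Real.rpow_natCast _ 2
  have h1 := TP_parseval (Icc 1 N) (fun n : ℕ => (n : ℤ)) (fun n => (g n : ℂ))
  rw [← h0] at h1
  have h2 : ∑ i ∈ Icc 1 N, ∑ j ∈ Icc 1 N, ((g i : ℂ) * (starRingEnd ℂ) (g j : ℂ)) *
      (if ((i : ℤ)) = (j : ℤ) then (1:ℂ) else 0) = ((∑ n ∈ Icc 1 N, ((g n : ℝ)) ^ 2 : ℝ) : ℂ) := by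
    push_cast
    refine Finset.sum_congr rfl fun i hi => ?_
    rw [Finset.sum_eq_single i]
    · rw [if_pos rfl, mul_one, sq]
      congr 1
      exact map_intCast (starRingEnd ℂ) (g i)
    · intro j _ hj
      rw [if_neg, mul_zero]
      intro h
      exact hj (by exact_mod_cast h.symm)
    · intro h
      exact absurd hi h
  rw [h2] at h1
  exact_mod_cast h1

lemma mo_two_ge (g : ℕ → ℤ) (hsq : ∀ n : ℕ, g n ^ 2 = ArithmeticFunction.moebius n ^ 2) (N : ℕ) :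
    (N : ℝ) / 4 ≤ mo 2 g N := by
  rw [mo_two]
  refine (Pool.Agent.Helper92.GB.card_sqfree N).trans (le_of_eq ?_)
  rw [Finset.card_filter]
  push_cast
  refine Finset.sum_congr rfl fun n _ => ?_
  have h1 : ((g n : ℝ)) ^ 2 = ((g n ^ 2 : ℤ) : ℝ) := by push_cast; rfl
  rw [h1, hsq]
  by_cases hs : Squarefree n
  · have := ArithmeticFunction.moebius_sq_eq_one_of_squarefree hs
    rw [this, if_pos hs]
    simp
  · rw [ArithmeticFunction.moebius_eq_zero_of_not_squarefree hs, if_neg hs]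
    simp

/-- Parseval with grouped frequencies -/
lemma TP_eq {ι : Type*} (s : Finset ι) (n : ι → ℤ) (w : ι → ℂ) (T : Finset ℤ) (hT : ∀ i ∈ s, n i ∈ T) :
    ∫ α in (0:ℝ)..1, ‖TP s n w α‖ ^ 2 = ∑ h ∈ T, ‖cf s n w h‖ ^ 2 := by
  classical
  symm
  have h2 : ((∑ h ∈ T, ‖cf s n w h‖ ^ 2 : ℝ) : ℂ) = ((∫ α in (0:ℝ)..1, ‖TP s n w α‖ ^ 2 : ℝ) : ℂ) := by
    rw [TP_parseval]
    push_cast
    have h3 : ∀ h ∈ T, ((‖cf s n w h‖ : ℂ) ^ 2) =
        ∑ i ∈ s, ∑ j ∈ s, (w i * (starRingEnd ℂ) (w j)) * (if n i = h then (if n j = h then 1 else 0) else 0) := by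
      intro h _
      have h4 : ((‖cf s n w h‖ : ℂ) ^ 2) = cf s n w h * (starRingEnd ℂ) (cf s n w h) := by
        rw [Complex.mul_conj, Complex.normSq_eq_norm_sq]
        push_cast
        rfl
      rw [h4]
      unfold Pool.Agent.Helper76.EM.cf
      rw [map_sum, Finset.sum_filter, Finset.sum_filter, Finset.sum_mul_sum]
      refine Finset.sum_congr rfl fun i _ => Finset.sum_congr rfl fun j _ => ?_
      split_ifs <;> simp
    rw [Finset.sum_congr rfl h3, Finset.sum_comm]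
    refine Finset.sum_congr rfl fun i hi => ?_
    rw [Finset.sum_comm]
    refine Finset.sum_congr rfl fun j hj => ?_
    rw [← Finset.mul_sum]
    congr 1
    rw [Finset.sum_ite_eq T (n i) (fun h => if n j = h then (1:ℂ) else 0)]
    rw [if_pos (hT i hi)]
    simp only [eq_comm]
  exact_mod_cast h2

/-- the coefficients of `|F|²` -/
noncomputable def c2 (g : ℕ → ℤ) (N : ℕ) (h : ℤ) : ℂ :=
  cf (Icc 1 N ×ˢ Icc 1 N) (fun p => (p.1 : ℤ) - (p.2 : ℤ)) (fun p => (g p.1 : ℂ) * (g p.2 : ℂ)) h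

lemma mo_four (g : ℕ → ℤ) (N : ℕ) :
    mo 4 g N = ∑ h ∈ Icc (-(N : ℤ)) N, ‖c2 g N h‖ ^ 2 := by
  have hsq : ∀ x : ℝ, ((‖F g N x‖ ^ 2 : ℝ) : ℂ) = TP (Icc 1 N ×ˢ Icc 1 N) (fun p => (p.1 : ℤ) - (p.2 : ℤ))
      (fun p => (g p.1 : ℂ) * (g p.2 : ℂ)) x := by
    intro x
    have h1 : ((‖F g N x‖ ^ 2 : ℝ) : ℂ) = F g N x * (starRingEnd ℂ) (F g N x) := by
      rw [Complex.mul_conj, Complex.normSq_eq_norm_sq]
    rw [h1, F_TP]
    unfold Pool.Agent.Helper76.EM.TP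
    rw [map_sum, Finset.sum_mul_sum, Finset.sum_product]
    refine Finset.sum_congr rfl fun i _ => Finset.sum_congr rfl fun j _ => ?_
    have h2 : (((((i : ℤ)) - ((j : ℤ)) : ℤ)) : ℝ) * x = ((i : ℤ) : ℝ) * x - ((j : ℤ) : ℝ) * x := by
      push_cast
      ring
    rw [map_mul, map_intCast (starRingEnd ℂ) (g j), h2, ee_sub]
    ring
  have h4 : mo 4 g N = ∫ α in (0:ℝ)..1, ‖TP (Icc 1 N ×ˢ Icc 1 N) (fun p => (p.1 : ℤ) - (p.2 : ℤ))
      (fun p => (g p.1 : ℂ) * (g p.2 : ℂ)) α‖ ^ 2 := by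
    unfold mo
    refine intervalIntegral.integral_congr fun x _ => ?_
    rw [← hsq, Complex.norm_real, Real.norm_eq_abs, sq_abs]
    have : ‖F g N x‖ ^ (4 : ℝ) = ‖F g N x‖ ^ 4 := Real.rpow_natCast _ 4
    rw [this]
    ring
  rw [h4]
  unfold c2
  apply TP_eq
  rintro ⟨a, b⟩ hp
  simp only [Finset.mem_product, Finset.mem_Icc] at hp ⊢
  omega

lemma c2_nonneg_eq (g : ℕ → ℤ) (N h : ℕ) :
    c2 g N (h : ℤ) = Pool.Agent.Helper92.CB.corr g (fun i : Fin 2 => if i = 0 then 0 else h) (N - h) 0 := by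
  unfold c2 Pool.Agent.Helper76.EM.cf Pool.Agent.Helper92.CB.corr
  symm
  refine Finset.sum_bij (fun y _ => (y + h, y)) ?_ ?_ ?_ ?_
  · intro y hy
    rw [Finset.mem_Icc] at hy
    simp only [Finset.mem_filter, Finset.mem_product, Finset.mem_Icc]
    refine ⟨⟨⟨by omega, by omega⟩, by omega, by omega⟩, ?_⟩
    push_cast
    ring
  · intro a _ b _ hab
    exact (Prod.mk.inj hab).2
  · rintro ⟨x, y⟩ hp
    simp only [Finset.mem_filter, Finset.mem_product, Finset.mem_Icc] at hp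
    obtain ⟨⟨⟨h1, h2⟩, h3, h4⟩, h5⟩ := hp
    refine ⟨y, ?_, ?_⟩
    · rw [Finset.mem_Icc]
      omega
    · ext
      · simp only
        omega
      · rfl
  · intro y _
    have he : Pool.Agent.Helper92.GB.e ((y : ℝ) * 0) = 1 := by
      unfold Pool.Agent.Helper92.GB.e
      simp
    rw [he, Fin.prod_univ_two]
    simp only [if_true, add_zero, mul_one, Fin.isValue, one_ne_zero, if_false]
    rw [mul_comm]

lemma c2_neg (g : ℕ → ℤ) (N : ℕ) (h : ℤ) : c2 g N (-h) = c2 g N h := by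
  unfold c2 Pool.Agent.Helper76.EM.cf
  refine Finset.sum_bij (fun p _ => (p.2, p.1)) ?_ ?_ ?_ ?_
  · rintro ⟨a, b⟩ hp
    simp only [Finset.mem_filter, Finset.mem_product] at hp ⊢
    exact ⟨⟨hp.1.2, hp.1.1⟩, by linarith [hp.2]⟩
  · rintro ⟨a, b⟩ _ ⟨a', b'⟩ _ hab
    simp only [Prod.mk.injEq] at hab ⊢
    exact ⟨hab.2, hab.1⟩
  · rintro ⟨a, b⟩ hp
    simp only [Finset.mem_filter, Finset.mem_product] at hp
    refine ⟨(b, a), ?_, rfl⟩
    simp only [Finset.mem_filter, Finset.mem_product]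
    exact ⟨⟨hp.1.2, hp.1.1⟩, by linarith [hp.2]⟩
  · rintro ⟨a, b⟩ _
    exact mul_comm _ _

lemma c2_zero_le (g : ℕ → ℤ) (hsq : ∀ n : ℕ, g n ^ 2 = ArithmeticFunction.moebius n ^ 2) (N : ℕ) :
    ‖c2 g N 0‖ ≤ N := by
  have h1 := c2_nonneg_eq g N 0
  have h2 : c2 g N 0 = Pool.Agent.Helper92.CB.corr g (fun i : Fin 2 => if i = 0 then 0 else 0) (N - 0) 0 := by
    exact_mod_cast h1
  rw [h2]
  unfold Pool.Agent.Helper92.CB.corr
  refine (norm_sum_le _ _).trans ?_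
  have h3 : ∀ n ∈ Icc 1 (N - 0), ‖(∏ i : Fin 2, (g (n + if i = 0 then 0 else 0) : ℂ)) *
      Pool.Agent.Helper92.GB.e ((n : ℝ) * 0)‖ ≤ 1 := by
    intro n _
    have he : Pool.Agent.Helper92.GB.e ((n : ℝ) * 0) = 1 := by
      unfold Pool.Agent.Helper92.GB.e
      simp
    rw [he, Fin.prod_univ_two]
    simp only [ite_self, add_zero, mul_one]
    have h4 : (g n : ℂ) * (g n : ℂ) = ((g n ^ 2 : ℤ) : ℂ) := by push_cast; ring
    rw [h4, hsq]
    rcases ArithmeticFunction.moebius_eq_or n with h | h | h <;> simp [h]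
  refine (Finset.sum_le_sum h3).trans ?_
  simp

end Pool.Agent.Helper80.LP
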