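import Pool.Agent.Helper80.LP.Mom

/-! # MP_b6b996_nt: the moment of order `p` against the maximum (Nikolskii) -/

set_option autoImplicit false

namespace Pool.Agent.Helper80.LP

open Finset MeasureTheory
open Pool.Agent.Helper92.GB (F e)
open Pool.Agent.Helper76.EM (ee ee_add ee_sub ee_zero norm_ee ee_continuous TP TP_continuous TP_parseval TP_bessel cf)

lemma ee_pow (n : ℕ) (x : ℝ) : ee x ^ n = ee (((n : ℤ) : ℝ) * x) := by
  induction n with
  | zero => simp [ee_zero]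
  | succ n ih =>
    rw [pow_succ, ih, ← ee_add]
    congr 1
    push_cast
    ring

/-- the sum as a polynomial -/
noncomputable def pol (g : ℕ → ℤ) (N : ℕ) : Polynomial ℂ :=
  ∑ n ∈ Icc 1 N, Polynomial.C (g n : ℂ) * Polynomial.X ^ n

lemma pol_eval (g : ℕ → ℤ) (N : ℕ) (x : ℝ) : (pol g N).eval (ee x) = F g N x := by
  unfold pol
  rw [Polynomial.eval_finsetSum, F_TP]
  unfold Pool.Agent.Helper76.EM.TP
  refine Finset.sum_congr rfl fun n _ => ?_
  rw [Polynomial.eval_mul, Polynomial.eval_C, Polynomial.eval_pow, Polynomial.eval_X, ee_pow]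

lemma pol_natDegree (g : ℕ → ℤ) (N : ℕ) : (pol g N).natDegree ≤ N := by
  unfold pol
  refine Polynomial.natDegree_sum_le_of_forall_le _ _ fun n hn => ?_
  exact (Polynomial.natDegree_C_mul_X_pow_le _ _).trans (Finset.mem_Icc.1 hn).2

lemma eval_TP (Q : Polynomial ℂ) (L : ℕ) (hL : Q.natDegree ≤ L) (x : ℝ) :
    Q.eval (ee x) = TP (range (L + 1)) (fun n : ℕ => (n : ℤ)) (fun n => Q.coeff n) x := by
  rw [Polynomial.eval_eq_sum_range' (Nat.lt_succ_of_le hL)]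
  unfold Pool.Agent.Helper76.EM.TP
  refine Finset.sum_congr rfl fun n _ => ?_
  rw [ee_pow]

lemma TP_sq_sum (L : ℕ) (w : ℕ → ℂ) :
    ∫ α in (0:ℝ)..1, ‖TP (range (L + 1)) (fun n : ℕ => (n : ℤ)) w α‖ ^ 2 =
      ∑ n ∈ range (L + 1), ‖w n‖ ^ 2 := by
  have h1 := TP_parseval (range (L + 1)) (fun n : ℕ => (n : ℤ)) w
  have h2 : ∑ i ∈ range (L + 1), ∑ j ∈ range (L + 1), (w i * (starRingEnd ℂ) (w j)) *
      (if ((i : ℤ)) = (j : ℤ) then (1:ℂ) else 0) = ((∑ n ∈ range (L + 1), ‖w n‖ ^ 2 : ℝ) : ℂ) := by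
    push_cast
    refine Finset.sum_congr rfl fun i hi => ?_
    rw [Finset.sum_eq_single i]
    · rw [if_pos rfl, mul_one, Complex.mul_conj, Complex.normSq_eq_norm_sq]
      push_cast
      rfl
    · intro j _ hj
      rw [if_neg, mul_zero]
      intro h
      exact hj (by exact_mod_cast h.symm)
    · intro h
      exact absurd hi h
  rw [h2] at h1
  exact_mod_cast h1

lemma eval_sq_le (Q : Polynomial ℂ) (L : ℕ) (hL : Q.natDegree ≤ L) (x : ℝ) :
    ‖Q.eval (ee x)‖ ^ 2 ≤ (L + 1) * ∫ α in (0:ℝ)..1, ‖Q.eval (ee α)‖ ^ 2 := by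
  have h1 : ∫ α in (0:ℝ)..1, ‖Q.eval (ee α)‖ ^ 2 = ∑ n ∈ range (L + 1), ‖Q.coeff n‖ ^ 2 := by
    rw [← TP_sq_sum]
    refine intervalIntegral.integral_congr fun α _ => ?_
    rw [eval_TP Q L hL]
  rw [h1, eval_TP Q L hL]
  have h2 : ‖TP (range (L + 1)) (fun n : ℕ => (n : ℤ)) (fun n => Q.coeff n) x‖ ≤
      ∑ n ∈ range (L + 1), ‖Q.coeff n‖ := by
    unfold Pool.Agent.Helper76.EM.TP
    refine (norm_sum_le _ _).trans (Finset.sum_le_sum fun n _ => ?_)
    rw [norm_mul, norm_ee, mul_one]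
  have h3 : (∑ n ∈ range (L + 1), ‖Q.coeff n‖) ^ 2 ≤
      ((range (L + 1)).card : ℝ) * ∑ n ∈ range (L + 1), ‖Q.coeff n‖ ^ 2 := sq_sum_le_card_mul_sum_sq
  rw [Finset.card_range] at h3
  push_cast at h3
  exact (pow_le_pow_left₀ (norm_nonneg _) h2 2).trans h3

lemma mo_le_gen {p q : ℝ} (hq : 0 < q) (hpq : q ≤ p) {g : ℕ → ℤ} {N : ℕ} {S : ℝ}
    (hS : ∀ x ∈ Set.Icc (0 : ℝ) 1, ‖F g N x‖ ≤ S) : mo p g N ≤ S ^ (p - q) * mo q g N := by
  have h := mo_le (p := p) (q := q) (r := q) (A := S ^ (p - q)) (B := 0) (by linarith) hq.le hq.le g N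
    (fun x hx => by
      set t := ‖F g N x‖ with ht
      have ht0 : 0 ≤ t := norm_nonneg _
      rw [zero_mul, add_zero]
      have ht4 : 0 ≤ t ^ q := Real.rpow_nonneg ht0 _
      rcases eq_or_lt_of_le ht0 with h0 | h0
      · rw [← h0, Real.zero_rpow (by linarith : p ≠ 0), Real.zero_rpow hq.ne']
        simp
      · have h2 : t ^ p = t ^ (p - q) * t ^ q := by
          rw [← Real.rpow_add h0]
          congr 1
          ring
        rw [h2]
        exact mul_le_mul_of_nonneg_right (Real.rpow_le_rpow ht0 (hS x hx) (by linarith)) ht4)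
  rw [zero_mul, add_zero] at h
  exact h

/-- Nikolskii: the maximum against the moment of order `p` -/
theorem nik {p : ℝ} (hp : 0 < p) {k : ℕ} (hk : p ≤ 2 * k) (g : ℕ → ℤ) (N : ℕ) (x : ℝ)
    (hx : x ∈ Set.Icc (0 : ℝ) 1) : ‖F g N x‖ ^ p ≤ (k * N + 1) * mo p g N := by
  obtain ⟨x₀, hx₀, hmax⟩ := (isCompact_Icc (a := (0 : ℝ)) (b := 1)).exists_isMaxOn
    ⟨0, Set.left_mem_Icc.2 zero_le_one⟩ ((F_cont g N).norm.continuousOn)
  set S := ‖F g N x₀‖ with hS
  have hS' : ∀ y ∈ Set.Icc (0 : ℝ) 1, ‖F g N y‖ ≤ S := fun y hy => hmax hy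
  have hS0 : 0 ≤ S := norm_nonneg _
  have hmo := mo_nonneg p g N
  have hk1 : (0 : ℝ) ≤ (k : ℝ) * N + 1 := by positivity
  refine (Real.rpow_le_rpow (norm_nonneg _) (hS' x hx) hp.le).trans ?_
  rcases eq_or_lt_of_le hS0 with h0 | h0
  · rw [← h0, Real.zero_rpow hp.ne']
    exact mul_nonneg hk1 hmo
  · have h1 := eval_sq_le ((pol g N) ^ k) (k * N) (Polynomial.natDegree_pow_le.trans
      (Nat.mul_le_mul_left k (pol_natDegree g N))) x₀
    have h2 : ∀ y : ℝ, ‖((pol g N) ^ k).eval (ee y)‖ ^ 2 = ‖F g N y‖ ^ ((2 * k : ℝ)) := by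
      intro y
      rw [Polynomial.eval_pow, pol_eval, norm_pow, ← pow_mul, mul_comm k 2, ← Real.rpow_natCast]
      push_cast
      rfl
    simp only [h2] at h1
    have h3 : ∫ α in (0:ℝ)..1, ‖F g N α‖ ^ (2 * k : ℝ) = mo (2 * k) g N := rfl
    rw [h3, ← hS] at h1
    have h4 := mo_le_gen (p := 2 * k) (q := p) hp hk hS'
    have h5 : S ^ (2 * k : ℝ) = S ^ (2 * k - p : ℝ) * S ^ p := by
      rw [← Real.rpow_add h0]
      congr 1
      ring
    have h6 : 0 < S ^ (2 * k - p : ℝ) := Real.rpow_pos_of_pos h0 _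
    push_cast at h1
    have h7 : S ^ (2 * k - p : ℝ) * S ^ p ≤ S ^ (2 * k - p : ℝ) * ((k * N + 1) * mo p g N) := by
      rw [← h5]
      refine h1.trans ?_
      calc ((k : ℝ) * N + 1) * mo (2 * k) g N ≤ ((k : ℝ) * N + 1) * (S ^ (2 * k - p : ℝ) * mo p g N) :=
            mul_le_mul_of_nonneg_left h4 hk1
        _ = _ := by ring
    exact le_of_mul_le_mul_left h7 h6

end Pool.Agent.Helper80.LP
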