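import Pool.Agent.Helper80.LP.Th
import Pool.Agent.Helper80.LP.Ends

/-! # MP_b6b996_nt: the upper bounds from the correlations of order two alone -/

set_option autoImplicit false

namespace Pool.Agent.Helper80.LPP

open Finset MeasureTheory
open Pool.Agent.Helper92.GB (e ext F npi theta)
open Pool.Agent.Helper92.CB (corr)
open Pool.Agent.Helper76.EM (ee ee_add ee_sub ee_zero norm_ee ee_continuous TP TP_continuous TP_parseval TP_bessel cf)
open Pool.Agent.Helper80.LP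

/-- square root cancellation in the correlations of order two, not twisted -/
structure PairClass (g : ℕ → ℤ) : Prop where
  sq : ∀ n : ℕ, g n ^ 2 = ArithmeticFunction.moebius n ^ 2
  pair : ∀ ε : ℝ, 0 < ε → ∃ C : ℝ, ∀ M N h : ℕ, M ≤ N → 1 ≤ h → h ≤ N →
    |((∑ n ∈ Icc 1 M, g n * g (n + h) : ℤ) : ℝ)| ≤ C * (N : ℝ) ^ (1 / 2 + ε)

lemma corr2 {g : ℕ → ℤ} (hg : PairClass g) (ε : ℝ) (hε : 0 < ε) : ∃ C : ℝ, ∀ M N : ℕ, M ≤ N → 1 ≤ N →
    ∀ h : Fin 2 → ℕ, Function.Injective h → (∀ i, h i ≤ N) → h 0 = 0 →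
      ‖corr g h M 0‖ ≤ C * (N : ℝ) ^ (1 / 2 + ε) := by
  obtain ⟨C, hC⟩ := hg.pair ε hε
  refine ⟨C, fun M N hM _ h hinj hle h0 => ?_⟩
  have h1 : h 1 ≠ 0 := fun h1 => by
    have := hinj (h0.trans h1.symm)
    exact absurd this (by decide)
  have h2 := hC M N (h 1) hM (by omega) (hle 1)
  have h3 : corr g h M 0 = (((∑ n ∈ Icc 1 M, g n * g (n + h 1) : ℤ) : ℝ) : ℂ) := by
    unfold Pool.Agent.Helper92.CB.corr
    push_cast
    refine Finset.sum_congr rfl fun n _ => ?_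
    rw [Fin.prod_univ_two, h0, mul_zero]
    simp [Pool.Agent.Helper92.GB.e]
  rw [h3, Complex.norm_real, Real.norm_eq_abs]
  exact h2

private lemma UP_re (a b : ℤ) (x y : ℝ) :
    ((a : ℂ) * e x * (starRingEnd ℂ) ((b : ℂ) * e y)).re =
      (a : ℝ) * b * Real.cos (2 * Real.pi * x - 2 * Real.pi * y) := by
  have h : ∀ z : ℝ, e z = (Real.cos (2 * Real.pi * z) : ℂ) + (Real.sin (2 * Real.pi * z) : ℂ) * Complex.I := by
    intro z
    unfold e
    rw [show (2 * Real.pi * Complex.I * z : ℂ) = ((2 * Real.pi * z : ℝ) : ℂ) * Complex.I by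
      push_cast; ring, Complex.exp_mul_I, Complex.ofReal_cos, Complex.ofReal_sin]
  rw [h x, h y, Real.cos_sub]
  generalize Real.cos (2 * Real.pi * x) = c1
  generalize Real.sin (2 * Real.pi * x) = s1
  generalize Real.cos (2 * Real.pi * y) = c2
  generalize Real.sin (2 * Real.pi * y) = s2
  simp
  ring

private lemma UP_normSq (g : ℕ → ℤ) (N : ℕ) (x : ℝ) :
    ‖F g N x‖ ^ 2 = ∑ m ∈ Icc 1 N, ∑ n ∈ Icc 1 N,
      (g m : ℝ) * g n * Real.cos (2 * Real.pi * (m * x) - 2 * Real.pi * (n * x)) := by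
  have h1 : ‖F g N x‖ ^ 2 = (F g N x * (starRingEnd ℂ) (F g N x)).re := by
    rw [Complex.mul_conj, ← Complex.sq_norm, Complex.ofReal_re]
  rw [h1]
  unfold F
  rw [map_sum, Finset.sum_mul_sum, Complex.re_sum]
  apply Finset.sum_congr rfl
  intro m _
  rw [Complex.re_sum]
  apply Finset.sum_congr rfl
  intro n _
  rw [UP_re]

private lemma UP_split (b : ℕ → ℕ → ℝ) (hb : ∀ m n, b m n = b n m) (N : ℕ) :
    ∑ m ∈ Icc 1 N, ∑ n ∈ Icc 1 N, b m n =
      ∑ n ∈ Icc 1 N, b n n + 2 * ∑ h ∈ Icc 1 (N - 1), ∑ m ∈ Icc 1 (N - h), b m (m + h) := by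
  have h1 : ∑ h ∈ Icc 1 (N - 1), ∑ m ∈ Icc 1 (N - h), b m (m + h) =
      ∑ m ∈ Icc 1 N, ∑ n ∈ (Icc 1 N).filter (fun n => m < n), b m n := by
    rw [Finset.sum_sigma', Finset.sum_sigma']
    refine Finset.sum_nbij' (fun x => ⟨x.2, x.2 + x.1⟩) (fun x => ⟨x.2 - x.1, x.1⟩) ?_ ?_ ?_ ?_ ?_
    · rintro ⟨h, m⟩ hx
      simp only [Finset.mem_sigma, Finset.mem_Icc, Finset.mem_filter] at hx ⊢
      omega
    · rintro ⟨m, n⟩ hx
      simp only [Finset.mem_sigma, Finset.mem_Icc, Finset.mem_filter] at hx ⊢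
      omega
    · rintro ⟨h, m⟩ hx
      simp only [Finset.mem_sigma, Finset.mem_Icc] at hx
      simp
    · rintro ⟨m, n⟩ hx
      simp only [Finset.mem_sigma, Finset.mem_Icc, Finset.mem_filter] at hx
      simp only [Sigma.mk.injEq, true_and, heq_eq_eq]
      omega
    · rintro ⟨h, m⟩ hx
      rfl
  have h2 : ∑ m ∈ Icc 1 N, ∑ n ∈ (Icc 1 N).filter (fun n => n < m), b m n =
      ∑ m ∈ Icc 1 N, ∑ n ∈ (Icc 1 N).filter (fun n => m < n), b m n := by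
    simp only [Finset.sum_filter]
    rw [Finset.sum_comm]
    apply Finset.sum_congr rfl
    intro m _
    apply Finset.sum_congr rfl
    intro n _
    rw [hb n m]
  have h3 : ∀ m ∈ Icc 1 N, ∑ n ∈ Icc 1 N, b m n = b m m +
      ∑ n ∈ (Icc 1 N).filter (fun n => n < m), b m n +
      ∑ n ∈ (Icc 1 N).filter (fun n => m < n), b m n := by
    intro m hm
    have h4 : ∀ n, b m n = (if n = m then b m n else 0) + (if n < m then b m n else 0) +
        (if m < n then b m n else 0) := by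
      intro n
      rcases lt_trichotomy n m with h | h | h
      · rw [if_neg (by omega), if_pos h, if_neg (by omega)]; ring
      · rw [if_pos h, if_neg (by omega), if_neg (by omega)]; ring
      · rw [if_neg (by omega), if_neg (by omega), if_pos h]; ring
    rw [Finset.sum_congr rfl (fun n _ => h4 n), Finset.sum_add_distrib, Finset.sum_add_distrib,
      Finset.sum_ite_eq' (Icc 1 N) m, if_pos hm, Finset.sum_filter, Finset.sum_filter]
  rw [Finset.sum_congr rfl h3, Finset.sum_add_distrib, Finset.sum_add_distrib, h2, h1]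
  ring

theorem UPP (g : ℕ → ℤ) (hg : PairClass g) (ε : ℝ) (hε : 0 < ε) :
    ∃ C : ℝ, ∀ N : ℕ, 1 ≤ N → ∀ x : ℝ, ‖F g N x‖ ≤ C * (N : ℝ) ^ (3 / 4 + ε) := by
  obtain ⟨C, hC⟩ := corr2 hg (2 * ε) (by linarith)
  refine ⟨Real.sqrt (1 + 2 * |C|), ?_⟩
  intro N hN x
  have hN1 : (1 : ℝ) ≤ N := by exact_mod_cast hN
  have hN0 : (0 : ℝ) < N := by linarith
  have hsym : ∀ m n : ℕ, (g m : ℝ) * g n * Real.cos (2 * Real.pi * (m * x) - 2 * Real.pi * (n * x)) =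
      (g n : ℝ) * g m * Real.cos (2 * Real.pi * (n * x) - 2 * Real.pi * (m * x)) := by
    intro m n
    rw [← Real.cos_neg, neg_sub]
    ring
  have hdiag : ∀ n ∈ Icc 1 N, (g n : ℝ) * g n * Real.cos (2 * Real.pi * (n * x) - 2 * Real.pi * (n * x)) ≤ 1 := by
    intro n _
    rw [sub_self, Real.cos_zero, mul_one]
    have h1 := hg.sq n
    have h2 : (ArithmeticFunction.moebius n) ^ 2 ≤ 1 := by
      rw [ArithmeticFunction.moebius_sq]
      split_ifs <;> norm_num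
    have h3 : g n * g n ≤ 1 := by rw [← pow_two, h1]; exact h2
    exact_mod_cast h3
  have hoff : ∀ h ∈ Icc 1 (N - 1), ∑ m ∈ Icc 1 (N - h),
      (g m : ℝ) * g (m + h) * Real.cos (2 * Real.pi * (m * x) - 2 * Real.pi * ((m + h : ℕ) * x)) ≤
        |C| * (N : ℝ) ^ (1 / 2 + 2 * ε) := by
    intro h hh
    rw [Finset.mem_Icc] at hh
    have h1 : ∑ m ∈ Icc 1 (N - h),
      (g m : ℝ) * g (m + h) * Real.cos (2 * Real.pi * (m * x) - 2 * Real.pi * ((m + h : ℕ) * x)) =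
        (∑ m ∈ Icc 1 (N - h), (g m : ℝ) * g (m + h)) * Real.cos (2 * Real.pi * (h * x)) := by
      rw [Finset.sum_mul]
      apply Finset.sum_congr rfl
      intro m _
      rw [show 2 * Real.pi * (m * x) - 2 * Real.pi * ((m + h : ℕ) * x) = -(2 * Real.pi * (h * x)) by
        push_cast; ring, Real.cos_neg]
    rw [h1]
    have h2 : ‖corr g (![0, h]) (N - h) 0‖ ≤ C * (N : ℝ) ^ (1 / 2 + 2 * ε) := by
      apply hC (N - h) N (by omega) hN
      · intro i j hij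
        fin_cases i <;> fin_cases j <;> simp at hij ⊢ <;> omega
      · intro i
        fin_cases i
        · simp
        · simp; omega
      · rfl
    have h3 : corr g (![0, h]) (N - h) 0 = ((∑ m ∈ Icc 1 (N - h), (g m : ℝ) * g (m + h) : ℝ) : ℂ) := by
      unfold corr
      push_cast
      apply Finset.sum_congr rfl
      intro m _
      rw [Fin.prod_univ_two]
      simp [e]
    rw [h3, Complex.norm_real, Real.norm_eq_abs] at h2
    calc _ ≤ |(∑ m ∈ Icc 1 (N - h), (g m : ℝ) * g (m + h)) * Real.cos (2 * Real.pi * (h * x))| := le_abs_self _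
      _ = |∑ m ∈ Icc 1 (N - h), (g m : ℝ) * g (m + h)| * |Real.cos (2 * Real.pi * (h * x))| := abs_mul _ _
      _ ≤ |∑ m ∈ Icc 1 (N - h), (g m : ℝ) * g (m + h)| * 1 := by
          gcongr
          exact Real.abs_cos_le_one _
      _ ≤ C * (N : ℝ) ^ (1 / 2 + 2 * ε) := by rw [mul_one]; exact h2
      _ ≤ |C| * (N : ℝ) ^ (1 / 2 + 2 * ε) := by
          gcongr
          exact le_abs_self C
  have hsq : ‖F g N x‖ ^ 2 ≤ (1 + 2 * |C|) * (N : ℝ) ^ (3 / 2 + 2 * ε) := by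
    rw [UP_normSq, UP_split (fun m n => (g m : ℝ) * g n * Real.cos (2 * Real.pi * (m * x) -
      2 * Real.pi * (n * x))) hsym]
    have h1 := Finset.sum_le_sum hdiag
    have h2 := Finset.sum_le_sum hoff
    rw [Finset.sum_const, Nat.card_Icc, nsmul_eq_mul, mul_one] at h1
    rw [Finset.sum_const, Nat.card_Icc, nsmul_eq_mul] at h2
    have h3 : (((N - 1 + 1 - 1 : ℕ)) : ℝ) * (|C| * (N : ℝ) ^ (1 / 2 + 2 * ε)) ≤
        N * (|C| * (N : ℝ) ^ (1 / 2 + 2 * ε)) := by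
      apply mul_le_mul_of_nonneg_right _ (by positivity)
      exact_mod_cast (by omega : N - 1 + 1 - 1 ≤ N)
    have h4 : (((N + 1 - 1 : ℕ)) : ℝ) = N := by simp
    rw [h4] at h1
    have h5 : (N : ℝ) * (N : ℝ) ^ (1 / 2 + 2 * ε) = (N : ℝ) ^ (3 / 2 + 2 * ε) := by
      rw [← Real.rpow_one_add' hN0.le (by positivity)]
      congr 1
      ring
    have h6 : (N : ℝ) ≤ (N : ℝ) ^ (3 / 2 + 2 * ε) := by
      calc (N : ℝ) = (N : ℝ) ^ (1 : ℝ) := (Real.rpow_one _).symm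
        _ ≤ (N : ℝ) ^ (3 / 2 + 2 * ε) := Real.rpow_le_rpow_of_exponent_le hN1 (by linarith)
    have h7 : (N : ℝ) * (|C| * (N : ℝ) ^ (1 / 2 + 2 * ε)) = |C| * (N : ℝ) ^ (3 / 2 + 2 * ε) := by
      rw [← h5]; ring
    refine (add_le_add h1 (mul_le_mul_of_nonneg_left (h2.trans h3) (by norm_num : (0 : ℝ) ≤ 2))).trans ?_
    rw [h7]
    linarith
  have hfin : ‖F g N x‖ ≤ Real.sqrt ((1 + 2 * |C|) * (N : ℝ) ^ (3 / 2 + 2 * ε)) :=
    Real.le_sqrt_of_sq_le hsq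
  refine hfin.trans (le_of_eq ?_)
  rw [Real.sqrt_mul (by positivity)]
  congr 1
  rw [Real.sqrt_eq_rpow, ← Real.rpow_mul hN0.le]
  congr 1
  ring

/-- the fourth moment from the correlations of order two -/
theorem mo_four_leQ (g : ℕ → ℤ) (hg : PairClass g) (ε : ℝ) (hε : 0 < ε) :
    ∃ C : ℝ, 0 < C ∧ ∀ N : ℕ, 1 ≤ N → mo 4 g N ≤ C * (N : ℝ) ^ (2 + ε) := by
  obtain ⟨C₀, hC₀⟩ := corr2 hg (ε / 2) (by linarith)
  refine ⟨1 + 3 * C₀ ^ 2, by positivity, fun N hN => ?_⟩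
  have hN1 : (1 : ℝ) ≤ N := by exact_mod_cast hN
  have hN0 : (0 : ℝ) < N := by linarith
  have h1 : ∀ h ∈ Icc (-(N : ℤ)) N, ‖c2 g N h‖ ^ 2 ≤ (if h = 0 then (N : ℝ) ^ (2 : ℝ) else 0) +
      C₀ ^ 2 * (N : ℝ) ^ (1 + ε) := by
    intro h hh
    rw [Finset.mem_Icc] at hh
    have hp : 0 ≤ C₀ ^ 2 * (N : ℝ) ^ (1 + ε) := by positivity
    by_cases h0 : h = 0
    · rw [if_pos h0, h0]
      have h2 := c2_zero_le g hg.sq N
      have h3 : (N : ℝ) ^ (2 : ℝ) = (N : ℝ) ^ 2 := Real.rpow_natCast _ 2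
      rw [h3]
      have h4 : ‖c2 g N 0‖ ^ 2 ≤ (N : ℝ) ^ 2 := pow_le_pow_left₀ (norm_nonneg _) h2 2
      linarith
    · rw [if_neg h0, zero_add]
      have h2 : c2 g N h = c2 g N ((h.natAbs : ℕ) : ℤ) := by
        rcases Int.natAbs_eq h with h3 | h3
        · rw [← h3]
        · conv_lhs => rw [h3]
          rw [c2_neg]
      have h3 : h.natAbs ≠ 0 := fun h4 => h0 (Int.natAbs_eq_zero.1 h4)
      have h4 : h.natAbs ≤ N := by omega
      rw [h2, c2_nonneg_eq]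
      have h5 := hC₀ (N - h.natAbs) N (Nat.sub_le _ _) hN (fun i : Fin 2 => if i = 0 then 0 else h.natAbs)
        (by
          intro i j hij
          simp only at hij
          fin_cases i <;> fin_cases j
          · rfl
          · exfalso
            simp at hij
            exact h3 (by omega)
          · exfalso
            simp at hij
            exact h3 (by omega)
          · rfl)
        (by
          intro i
          split_ifs
          · omega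
          · exact h4) (if_pos rfl)
      have h6 : (N : ℝ) ^ (1 + ε) = ((N : ℝ) ^ (1 / 2 + ε / 2)) ^ 2 := by
        rw [← Real.rpow_natCast, ← Real.rpow_mul hN0.le]
        congr 1
        push_cast
        ring
      rw [h6, ← mul_pow]
      exact pow_le_pow_left₀ (norm_nonneg _) h5 2
  rw [mo_four]
  refine (Finset.sum_le_sum h1).trans ?_
  rw [Finset.sum_add_distrib, Finset.sum_ite_eq', if_pos (by rw [Finset.mem_Icc]; omega), Finset.sum_const,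
    nsmul_eq_mul]
  have hcard : ((Icc (-(N : ℤ)) N).card : ℝ) ≤ 3 * N := by
    rw [Int.card_Icc]
    have : ((N : ℤ) + 1 - -(N : ℤ)).toNat = 2 * N + 1 := by omega
    rw [this]
    push_cast
    linarith
  have h7 : (N : ℝ) ^ (2 : ℝ) ≤ (N : ℝ) ^ (2 + ε) := Real.rpow_le_rpow_of_exponent_le hN1 (by linarith)
  have h8 : (N : ℝ) ^ (2 + ε) = N * (N : ℝ) ^ (1 + ε) := by
    nth_rewrite 2 [← Real.rpow_one (N : ℝ)]
    rw [← Real.rpow_add hN0]
    congr 1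
    ring
  have h9 : ((Icc (-(N : ℤ)) N).card : ℝ) * (C₀ ^ 2 * (N : ℝ) ^ (1 + ε)) ≤
      3 * N * (C₀ ^ 2 * (N : ℝ) ^ (1 + ε)) := mul_le_mul_of_nonneg_right hcard (by positivity)
  have h10 : 3 * N * (C₀ ^ 2 * (N : ℝ) ^ (1 + ε)) = 3 * C₀ ^ 2 * (N : ℝ) ^ (2 + ε) := by
    rw [h8]
    ring
  rw [h10] at h9
  linarith


/-- orders at most four: upper bound -/
theorem nrm_upperQ {p : ℝ} (hp : 0 < p) (hp4 : p ≤ 4) (g : ℕ → ℤ) (hg : PairClass g)
    (ε : ℝ) (hε : 0 < ε) : ∃ C : ℝ, 0 < C ∧ ∀ N : ℕ, 1 ≤ N → nrm p g N ≤ C * (N : ℝ) ^ (1 / 2 + ε) := by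
  obtain ⟨C₁, hC₁, h1⟩ := mo_four_leQ g hg (ε * p) (by positivity)
  refine ⟨(1 + C₁) ^ (1 / p), by positivity, fun N hN => ?_⟩
  have hN0 : (0 : ℝ) < N := by exact_mod_cast hN
  have hN1 : (1 : ℝ) ≤ N := by exact_mod_cast hN
  have hl : (0 : ℝ) < (N : ℝ) ^ (1 / 2 : ℝ) := by positivity
  have h2 := mo_le_four hp hp4 (g := g) (N := N) hl
  rw [← Real.rpow_mul hN0.le, ← Real.rpow_mul hN0.le] at h2
  have h3 : (N : ℝ) ^ (1 / 2 * (p - 4)) * mo 4 g N ≤ (N : ℝ) ^ (1 / 2 * (p - 4)) * (C₁ * (N : ℝ) ^ (2 + ε * p)) :=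
    mul_le_mul_of_nonneg_left (h1 N hN) (by positivity)
  have h4 : (N : ℝ) ^ (1 / 2 * (p - 4)) * (C₁ * (N : ℝ) ^ (2 + ε * p)) = C₁ * (N : ℝ) ^ (p / 2 + ε * p) := by
    have : (N : ℝ) ^ (p / 2 + ε * p) = (N : ℝ) ^ (1 / 2 * (p - 4)) * (N : ℝ) ^ (2 + ε * p) := by
      rw [← Real.rpow_add hN0]
      congr 1
      ring
    rw [this]
    ring
  have h5 : (N : ℝ) ^ (1 / 2 * p) ≤ (N : ℝ) ^ (p / 2 + ε * p) := by
    apply Real.rpow_le_rpow_of_exponent_le hN1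
    have := mul_pos hε hp
    linarith
  have h6 : mo p g N ≤ (1 + C₁) * (N : ℝ) ^ (p / 2 + ε * p) := by
    rw [h4] at h3
    linarith
  have h7 := nrm_le_of hp hN (by positivity) h6
  have h8 : (p / 2 + ε * p) / p = 1 / 2 + ε := by
    field_simp
  rwa [h8] at h7

/-- orders at most two: lower bound -/
theorem nrm_lower_lowQ {p : ℝ} (hp : 0 < p) (hp2 : p ≤ 2) (g : ℕ → ℤ)
    (hg : PairClass g) (ε : ℝ) (hε : 0 < ε) :
    ∃ c : ℝ, 0 < c ∧ ∀ N : ℕ, 1 ≤ N → c * (N : ℝ) ^ (1 / 2 - ε) ≤ nrm p g N := by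
  obtain ⟨C₁, hC₁, h1⟩ := mo_four_leQ g hg (ε * p) (by positivity)
  refine ⟨(1 / 8 * (8 * C₁) ^ (1 / 2 * (p - 2))) ^ (1 / p), by positivity, fun N hN => ?_⟩
  have hN0 : (0 : ℝ) < N := by exact_mod_cast hN
  have hN1 : (1 : ℝ) ≤ N := by exact_mod_cast hN
  set m : ℝ := 8 * C₁ * (N : ℝ) ^ (1 + ε * p) with hm
  have hm0 : 0 < m := by positivity
  have hl : (0 : ℝ) < m ^ (1 / 2 : ℝ) := by positivity
  have h2 := mo_two_le_low hp hp2 (g := g) (N := N) hl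
  have h3 := mo_two_ge g hg.sq N
  rw [← Real.rpow_mul hm0.le, ← Real.rpow_mul hm0.le] at h2
  have h4 : m ^ (1 / 2 * (-2) : ℝ) * mo 4 g N ≤ (N : ℝ) / 8 := by
    have h5 : m ^ (1 / 2 * (-2) : ℝ) = m⁻¹ := by
      have : (1 / 2 * (-2) : ℝ) = -1 := by norm_num
      rw [this, Real.rpow_neg_one]
    rw [h5, inv_mul_le_iff₀ hm0]
    refine (h1 N hN).trans (le_of_eq ?_)
    have h6 : (N : ℝ) ^ (2 + ε * p) = N * (N : ℝ) ^ (1 + ε * p) := by
      nth_rewrite 2 [← Real.rpow_one (N : ℝ)]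
      rw [← Real.rpow_add hN0]
      congr 1
      ring
    rw [h6, hm]
    ring
  have h5 : (N : ℝ) / 8 ≤ m ^ (1 / 2 * (2 - p)) * mo p g N := by linarith
  have h6 : (N : ℝ) / 8 * m ^ (1 / 2 * (p - 2)) ≤ mo p g N := by
    have h7 : (0 : ℝ) < m ^ (1 / 2 * (2 - p)) := by positivity
    refine le_of_mul_le_mul_left ?_ h7
    refine le_trans (le_of_eq ?_) h5
    have : m ^ (1 / 2 * (2 - p)) * ((N : ℝ) / 8 * m ^ (1 / 2 * (p - 2))) =
        (N : ℝ) / 8 * (m ^ (1 / 2 * (2 - p)) * m ^ (1 / 2 * (p - 2))) := by ring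
    rw [this, ← Real.rpow_add hm0]
    have : (1 / 2 * (2 - p) + 1 / 2 * (p - 2) : ℝ) = 0 := by ring
    rw [this, Real.rpow_zero, mul_one]
  have h7 : (1 / 8 * (8 * C₁) ^ (1 / 2 * (p - 2))) * (N : ℝ) ^ (1 + (1 + ε * p) * (1 / 2 * (p - 2))) ≤ mo p g N := by
    refine le_trans (le_of_eq ?_) h6
    rw [hm, Real.mul_rpow (show (0 : ℝ) ≤ 8 * C₁ by positivity) (Real.rpow_nonneg hN0.le _), ← Real.rpow_mul hN0.le,
      Real.rpow_add hN0 1, Real.rpow_one]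
    ring
  have h8 : (1 / 8 * (8 * C₁) ^ (1 / 2 * (p - 2))) * (N : ℝ) ^ (p / 2 - ε * p) ≤ mo p g N := by
    refine le_trans (mul_le_mul_of_nonneg_left ?_ (by positivity)) h7
    apply Real.rpow_le_rpow_of_exponent_le hN1
    have : 0 < ε * p * p := by positivity
    nlinarith
  have h9 := le_nrm_of hp hN (by positivity) h8
  have h10 : (p / 2 - ε * p) / p = 1 / 2 - ε := by
    field_simp
  rwa [h10] at h9

/-- orders at most four: two-sided bounds -/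
theorem nrm_two_sidedQ {p : ℝ} (hp : 0 < p) (hp4 : p ≤ 4) (g : ℕ → ℤ) (hg : PairClass g)
    (ε : ℝ) (hε : 0 < ε) : ∃ c C : ℝ, 0 < c ∧ 0 < C ∧ ∀ N : ℕ, 1 ≤ N →
      c * (N : ℝ) ^ (1 / 2 - ε) ≤ nrm p g N ∧ nrm p g N ≤ C * (N : ℝ) ^ (1 / 2 + ε) := by
  obtain ⟨C, hC, h1⟩ := nrm_upperQ hp hp4 g hg ε hε
  rcases le_total p 2 with h | h
  · obtain ⟨c, hc, h2⟩ := nrm_lower_lowQ hp h g hg ε hε
    exact ⟨c, C, hc, hC, fun N hN => ⟨h2 N hN, h1 N hN⟩⟩
  · refine ⟨(1 / 8) ^ (1 / 2 : ℝ), C, by positivity, hC, fun N hN => ⟨?_, h1 N hN⟩⟩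
    have hN1 : (1 : ℝ) ≤ N := by exact_mod_cast hN
    refine le_trans (mul_le_mul_of_nonneg_left ?_ (by positivity)) (nrm_lower_high h g hg.sq N hN)
    exact Real.rpow_le_rpow_of_exponent_le hN1 (by linarith)

/-- orders above four: upper bound from the maximum -/
theorem nrm_upper_highQ {p : ℝ} (hp : 4 < p) (g : ℕ → ℤ) (hg : PairClass g)
    (t : ℝ) (ht : ∀ ε : ℝ, 0 < ε → ∃ C : ℝ, ∀ N : ℕ, 1 ≤ N → ∀ x ∈ Set.Icc (0 : ℝ) 1,
      ‖F g N x‖ ≤ C * (N : ℝ) ^ (t + ε))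
    (ε : ℝ) (hε : 0 < ε) : ∃ C : ℝ, ∀ N : ℕ, 1 ≤ N →
      nrm p g N ≤ C * (N : ℝ) ^ (t - (4 * t - 2) / p + ε) := by
  have hp0 : 0 < p := by linarith
  obtain ⟨C₁, hC₁, h1⟩ := mo_four_leQ g hg ε hε
  obtain ⟨C₂, h2⟩ := ht ε hε
  refine ⟨(|C₂| ^ (p - 4) * C₁) ^ (1 / p), fun N hN => ?_⟩
  have hN0 : (0 : ℝ) < N := by exact_mod_cast hN
  have hN1 : (1 : ℝ) ≤ N := by exact_mod_cast hN
  have h3 : ∀ x ∈ Set.Icc (0 : ℝ) 1, ‖F g N x‖ ≤ |C₂| * (N : ℝ) ^ (t + ε) := fun x hx =>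
    (h2 N hN x hx).trans (mul_le_mul_of_nonneg_right (le_abs_self _) (by positivity))
  have h4 := mo_le_sup hp.le h3
  have h5 : mo p g N ≤ (|C₂| ^ (p - 4) * C₁) * (N : ℝ) ^ ((t + ε) * (p - 4) + (2 + ε)) := by
    refine h4.trans ((mul_le_mul_of_nonneg_left (h1 N hN) (by positivity)).trans (le_of_eq ?_))
    rw [Real.mul_rpow (by positivity) (by positivity), ← Real.rpow_mul hN0.le, Real.rpow_add hN0 (_ * _)]
    ring
  have h6 := nrm_le_of hp0 hN (by positivity) h5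
  refine h6.trans (mul_le_mul_of_nonneg_left ?_ (by positivity))
  apply Real.rpow_le_rpow_of_exponent_le hN1
  rw [div_le_iff₀ hp0]
  have h7 : (t - (4 * t - 2) / p + ε) * p = t * p - (4 * t - 2) + ε * p := by
    field_simp
  rw [h7]
  nlinarith

lemma setT_neQ (g : ℕ → ℤ) (hg : PairClass g) : ∃ a : ℝ, 0 ≤ a ∧ ∃ C : ℝ, ∀ N : ℕ, 1 ≤ N →
    ∀ x : ℝ, x ∈ Set.Icc (0 : ℝ) 1 → ‖F g N x‖ ≤ C * (N : ℝ) ^ a := by
  obtain ⟨C, hC⟩ := UPP g hg 1 one_pos
  exact ⟨3 / 4 + 1, by norm_num, C, fun N hN x _ => hC N hN x⟩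

lemma setP_neQ {p : ℝ} (hp : 0 < p) (g : ℕ → ℤ) (hg : PairClass g) :
    ∃ a : ℝ, 0 ≤ a ∧ ∃ C : ℝ, ∀ N : ℕ, 1 ≤ N → nrm p g N ≤ C * (N : ℝ) ^ a := by
  obtain ⟨a, ha, C, hC⟩ := setT_neQ g hg
  exact ⟨a, ha, |C|, setP_of hp g a C hC⟩

/-- the bound belonging to the growth exponent -/
lemma theta_boundQ (g : ℕ → ℤ) (hg : PairClass g) (ε : ℝ) (hε : 0 < ε) : ∃ C : ℝ, ∀ N : ℕ, 1 ≤ N →
    ∀ x ∈ Set.Icc (0 : ℝ) 1, ‖F g N x‖ ≤ C * (N : ℝ) ^ (theta g + ε) := by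
  have hlt : theta g < theta g + ε := by linarith
  obtain ⟨a, ⟨ha0, C, hC⟩, ha⟩ := exists_lt_of_csInf_lt (setT_neQ g hg) hlt
  refine ⟨|C|, fun N hN x hx => ?_⟩
  have hN1 : (1 : ℝ) ≤ N := by exact_mod_cast hN
  refine (hC N hN x hx).trans ?_
  refine (mul_le_mul_of_nonneg_right (le_abs_self C) (by positivity)).trans ?_
  exact mul_le_mul_of_nonneg_left (Real.rpow_le_rpow_of_exponent_le hN1 ha.le) (abs_nonneg _)

/-- the exponent of the maximum against that of the norm of order `p` -/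
theorem theta_le_thetaPQ {p : ℝ} (hp : 0 < p) (g : ℕ → ℤ) (hg : PairClass g) :
    theta g - 1 / p ≤ thetaP p g := by
  refine le_csInf (setP_neQ hp g hg) ?_
  rintro a ⟨ha0, C, hC⟩
  obtain ⟨c, hc, hl⟩ := nrm_ge_of_large hp g
  have hp1 : 0 < 1 / p := by positivity
  have h : theta g ≤ a + 1 / p := by
    refine csInf_le ⟨0, fun b hb => hb.1⟩ ⟨by linarith, c⁻¹ * C, fun N hN x hx => ?_⟩
    have hN0 : (0 : ℝ) < N := by exact_mod_cast hN
    have h1 := (hl N hN ‖F g N x‖ (norm_nonneg _) ⟨x, hx, le_rfl⟩).trans (hC N hN)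
    have h2 : (0 : ℝ) < c * (N : ℝ) ^ (-(1 / p)) := by positivity
    refine le_of_mul_le_mul_left (h1.trans (le_of_eq ?_)) h2
    have h3 : (N : ℝ) ^ a = (N : ℝ) ^ (-(1 / p)) * (N : ℝ) ^ (a + 1 / p) := by
      rw [← Real.rpow_add hN0]
      congr 1
      ring
    rw [h3]
    field_simp
  linarith

lemma half_le_thetaPQ {p : ℝ} (hp : 0 < p) (g : ℕ → ℤ) (hg : PairClass g) : 1 / 2 ≤ thetaP p g := by
  refine le_thetaP p g _ (setP_neQ hp g hg) fun ε hε => ?_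
  rcases le_total p 4 with h | h
  · obtain ⟨c, C, hc, hC, h1⟩ := nrm_two_sidedQ hp h g hg ε hε
    refine ⟨c, hc, fun N₀ => ⟨max N₀ 1, le_max_left _ _, (h1 _ (le_max_right _ _)).1⟩⟩
  · refine ⟨(1 / 8) ^ (1 / 2 : ℝ), by positivity, fun N₀ => ⟨max N₀ 1, le_max_left _ _, ?_⟩⟩
    have hN1 : (1 : ℝ) ≤ ((max N₀ 1 : ℕ) : ℝ) := by exact_mod_cast (le_max_right N₀ 1)
    refine le_trans (mul_le_mul_of_nonneg_left ?_ (by positivity))
      (nrm_lower_high (by linarith) g hg.sq _ (le_max_right _ _))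
    exact Real.rpow_le_rpow_of_exponent_le hN1 (by linarith)

lemma half_le_thetaQ (g : ℕ → ℤ) (hg : PairClass g) : 1 / 2 ≤ theta g :=
  Pool.Agent.Helper92.GB.half_le_theta g hg.sq (setT_neQ g hg)

lemma theta_leQ (g : ℕ → ℤ) (hg : PairClass g) : theta g ≤ 3 / 4 :=
  Pool.Agent.Helper92.GB.theta_le g _ (by norm_num) fun ε hε => UPP g hg ε hε

/-- orders above four: the exponent of the norm against that of the maximum -/
theorem thetaP_le_thetaQ {p : ℝ} (hp : 4 < p) (g : ℕ → ℤ) (hg : PairClass g) :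
    thetaP p g ≤ theta g - (4 * theta g - 2) / p := by
  have hp0 : 0 < p := by linarith
  have h1 := half_le_thetaQ g hg
  have h2 := theta_leQ g hg
  refine thetaP_le p g _ ?_ fun ε hε => nrm_upper_highQ hp g hg (theta g) (theta_boundQ g hg) ε hε
  have h3 : (4 * theta g - 2) / p ≤ (4 * theta g - 2) / 4 :=
    div_le_div_of_nonneg_left (by linarith) (by norm_num) hp.le
  linarith

/-- orders above four: the top value -/
theorem thetaP_topQ {p : ℝ} (hp : 4 < p) (g : ℕ → ℤ) (hg : PairClass g) :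
    thetaP p g ≤ 3 / 4 - 1 / p ∧ (thetaP p g = 3 / 4 - 1 / p ↔ theta g = 3 / 4) := by
  have hp0 : 0 < p := by linarith
  have h0 := thetaP_le_thetaQ hp g hg
  have h1 := half_le_thetaQ g hg
  have h2 := theta_leQ g hg
  have h3 := theta_le_thetaPQ hp0 g hg
  have h4 : theta g - (4 * theta g - 2) / p = 3 / 4 - 1 / p - (3 / 4 - theta g) * ((p - 4) / p) := by
    field_simp
    ring
  have h5 : 0 < (p - 4) / p := div_pos (by linarith) hp0
  rw [h4] at h0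
  have h6 : 0 ≤ (3 / 4 - theta g) * ((p - 4) / p) := mul_nonneg (by linarith) h5.le
  refine ⟨by linarith, fun h => ?_, fun h => ?_⟩
  · by_contra hne
    have h7 : theta g < 3 / 4 := lt_of_le_of_ne h2 hne
    have h8 : 0 < (3 / 4 - theta g) * ((p - 4) / p) := mul_pos (by linarith) h5
    linarith
  · apply le_antisymm
    · linarith
    · rw [h] at h3
      exact h3

/-- the exponent of a norm of exact order `N^t` -/
lemma thetaP_of_exactQ {p : ℝ} (hp : 0 < p) (g : ℕ → ℤ) (hg : PairClass g) {t : ℝ} (ht : 0 ≤ t)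
    (h1 : ∃ N₀ : ℕ, ∀ N : ℕ, N₀ ≤ N → nrm p g N ≤ (N : ℝ) ^ t)
    (h2 : ∀ η : ℝ, 0 < η → ∀ N₀ : ℕ, ∃ N : ℕ, N₀ ≤ N ∧ (1 - η) * (N : ℝ) ^ t ≤ nrm p g N) : thetaP p g = t := by
  apply le_antisymm
  · obtain ⟨N₀, hN₀⟩ := h1
    refine csInf_le ⟨0, fun a ha => ha.1⟩ ⟨ht, max 1 (∑ M ∈ range N₀, nrm p g M), fun N hN => ?_⟩
    have hN1 : (1 : ℝ) ≤ N := by exact_mod_cast hN
    have hNt : 1 ≤ (N : ℝ) ^ t := Real.one_le_rpow hN1 ht
    rcases le_or_gt N₀ N with h | h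
    · refine (hN₀ N h).trans ?_
      calc (N : ℝ) ^ t = 1 * (N : ℝ) ^ t := (one_mul _).symm
        _ ≤ _ := mul_le_mul_of_nonneg_right (le_max_left _ _) (by linarith)
    · have h3 : nrm p g N ≤ ∑ M ∈ range N₀, nrm p g M :=
        Finset.single_le_sum (f := fun M => nrm p g M) (fun M _ => nrm_nonneg p g M) (Finset.mem_range.mpr h)
      have h4 : nrm p g N ≤ max 1 (∑ M ∈ range N₀, nrm p g M) := h3.trans (le_max_right _ _)
      have h5 : (0 : ℝ) ≤ max 1 (∑ M ∈ range N₀, nrm p g M) := zero_le_one.trans (le_max_left _ _)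
      nlinarith
  · refine le_thetaP p g t (setP_neQ hp g hg) fun ε hε => ⟨1 / 2, by norm_num, fun N₀ => ?_⟩
    obtain ⟨N, hN, h⟩ := h2 (1 / 2) (by norm_num) (max N₀ 1)
    have hN1 : (1 : ℝ) ≤ N := by exact_mod_cast (le_max_right N₀ 1).trans hN
    refine ⟨N, (le_max_left _ _).trans hN, le_trans ?_ h⟩
    have h3 : (1 - 1 / 2 : ℝ) = 1 / 2 := by norm_num
    rw [h3]
    exact mul_le_mul_of_nonneg_left (Real.rpow_le_rpow_of_exponent_le hN1 (by linarith)) (by norm_num)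

end Pool.Agent.Helper80.LPP
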